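import Mathlib
import Pool.Agent.Lib52.SP.Hol1

/-!
# Osgood's theorem in `ℂ²`

An injective holomorphic map of the unit ball of `ℂ²` to `ℂ²` whose derivative at `0` is injective
has injective derivative at every point.  (The hypothesis at `0` is what is used here to know that
the Jacobian does not vanish identically.)
-/

set_option autoImplicit false

open Set Metric Filter
open scoped Topology

namespace Pool.Agent.Lib37.Osg

/-- `ℂ²` -/
abbrev E := EuclideanSpace ℂ (Fin 2)

/-- a holomorphic function of one variable which is injective on an open set has nonvanishing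
derivative there -/
theorem deriv_ne_zero_of_injOn {f : ℂ → ℂ} {U : Set ℂ} (hU : IsOpen U)
    (hf : DifferentiableOn ℂ f U) (hinj : InjOn f U) {z : ℂ} (hz : z ∈ U) : deriv f z ≠ 0 := by
  intro h0
  have hfa : AnalyticOnNhd ℂ f U := hf.analyticOnNhd hU
  have hda : AnalyticAt ℂ (deriv f) z := (hfa z hz).deriv
  obtain ⟨r₀, hr₀, hr₀U⟩ := Metric.isOpen_iff.1 hU z hz
  -- the derivative is not locally zero
  have hnz : ∀ᶠ w in 𝓝[≠] z, deriv f w ≠ 0 := by
    rcases hda.eventually_eq_zero_or_eventually_ne_zero with h | h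
    · exfalso
      obtain ⟨r, hr, hrb⟩ := Metric.eventually_nhds_iff_ball.1 h
      set ρ := min r r₀ with hρ
      have hρ0 : 0 < ρ := lt_min hr hr₀
      have hconst : ∀ w ∈ ball z ρ, f w = f z := by
        intro w hw
        have hdiff : ∀ x ∈ ball z ρ, DifferentiableAt ℂ f x := fun x hx =>
          hf.differentiableAt (hU.mem_nhds (hr₀U (ball_subset_ball (min_le_right _ _) hx)))
        have := (convex_ball z ρ).norm_image_sub_le_of_norm_deriv_le (f := f) (C := 0) hdiff
          (fun x hx => by rw [hrb x (ball_subset_ball (min_le_left _ _) hx)]; simp)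
          (mem_ball_self hρ0) hw
        rw [zero_mul] at this
        exact sub_eq_zero.1 (norm_le_zero_iff.1 this)
      have hw : z + (ρ / 2 : ℝ) ∈ ball z ρ := by
        rw [mem_ball, dist_eq_norm, add_sub_cancel_left, Complex.norm_real, Real.norm_eq_abs,
          abs_of_pos (by positivity)]
        linarith
      have h1 := hinj (hr₀U (ball_subset_ball (min_le_right _ _) hw)) hz (hconst _ hw)
      have h2 : ((ρ / 2 : ℝ) : ℂ) = 0 := by simpa using h1
      have h3 : ρ / 2 = 0 := by exact_mod_cast h2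
      linarith
    · exact h
  obtain ⟨r₁, hr₁, hr₁b⟩ := Metric.mem_nhdsWithin_iff.1 hnz
  set ρ := min r₀ r₁ with hρ
  have hρ0 : 0 < ρ := lt_min hr₀ hr₁
  have hBU : ball z ρ ⊆ U := (ball_subset_ball (min_le_left _ _)).trans hr₀U
  have hBne : ∀ w ∈ ball z ρ, w ≠ z → deriv f w ≠ 0 := fun w hw hwz =>
    hr₁b ⟨ball_subset_ball (min_le_right _ _) hw, hwz⟩
  have hopen : ∀ s ⊆ ball z ρ, IsOpen s → IsOpen (f '' s) := by
    rcases (hfa.mono hBU).is_constant_or_isOpen (convex_ball z ρ).isPreconnected with h | h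
    · exfalso
      obtain ⟨c, hc⟩ := h
      have hw : z + (ρ / 2 : ℝ) ∈ ball z ρ := by
        rw [mem_ball, dist_eq_norm, add_sub_cancel_left, Complex.norm_real, Real.norm_eq_abs,
          abs_of_pos (by positivity)]
        linarith
      have h1 := hinj (hBU hw) hz ((hc _ hw).trans (hc _ (mem_ball_self hρ0)).symm)
      have h2 : ((ρ / 2 : ℝ) : ℂ) = 0 := by simpa using h1
      have h3 : ρ / 2 = 0 := by exact_mod_cast h2
      linarith
    · exact h
  set V := f '' ball z ρ with hV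
  have hVo : IsOpen V := hopen _ subset_rfl isOpen_ball
  set g := Function.invFunOn f (ball z ρ) with hg
  have hinjB : InjOn f (ball z ρ) := hinj.mono hBU
  have hgf : ∀ w ∈ ball z ρ, g (f w) = w := fun w hw => hinjB.leftInvOn_invFunOn hw
  have hgB : ∀ y ∈ V, g y ∈ ball z ρ := by
    rintro y ⟨w, hw, rfl⟩
    rw [hgf w hw]; exact hw
  have hfg : ∀ y ∈ V, f (g y) = y := by
    rintro y ⟨w, hw, rfl⟩
    rw [hgf w hw]
  have hgc : ∀ y ∈ V, ContinuousAt g y := by
    intro y hy
    rw [Metric.continuousAt_iff']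
    intro ε hε
    have h1 : IsOpen (f '' (ball z ρ ∩ ball (g y) ε)) :=
      hopen _ inter_subset_left (isOpen_ball.inter isOpen_ball)
    have h2 : y ∈ f '' (ball z ρ ∩ ball (g y) ε) :=
      ⟨g y, ⟨hgB y hy, mem_ball_self hε⟩, hfg y hy⟩
    filter_upwards [h1.mem_nhds h2] with x hx
    obtain ⟨w, ⟨hw1, hw2⟩, rfl⟩ := hx
    rw [hgf w hw1]
    exact hw2
  have hgd : DifferentiableOn ℂ g (V \ {f z}) := by
    rintro y ⟨hy, hyz⟩
    have hgy : g y ≠ z := by
      intro h
      apply hyz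
      rw [mem_singleton_iff, ← h, hfg y hy]
    have hd : HasDerivAt f (deriv f (g y)) (g y) :=
      (hf.differentiableAt (hU.mem_nhds (hBU (hgB y hy)))).hasDerivAt
    exact (HasDerivAt.of_local_left_inverse (hgc y hy) hd (hBne _ (hgB y hy) hgy)
      (by filter_upwards [hVo.mem_nhds hy] with x hx using hfg x hx)).differentiableAt.differentiableWithinAt
  have hfz : f z ∈ V := ⟨z, mem_ball_self hρ0, rfl⟩
  have hgd' : DifferentiableOn ℂ g V :=
    (Complex.differentiableOn_compl_singleton_and_continuousAt_iff (hVo.mem_nhds hfz)).1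
      ⟨hgd, hgc _ hfz⟩
  have hg1 : HasDerivAt g (deriv g (f z)) (f z) :=
    (hgd'.differentiableAt (hVo.mem_nhds hfz)).hasDerivAt
  have hf1 : HasDerivAt f (deriv f z) z := (hf.differentiableAt (hU.mem_nhds hz)).hasDerivAt
  have hcomp : HasDerivAt (g ∘ f) (deriv g (f z) * deriv f z) z := hg1.comp z hf1
  have hid : HasDerivAt (g ∘ f) 1 z := by
    apply (hasDerivAt_id z).congr_of_eventuallyEq
    filter_upwards [ball_mem_nhds z hρ0] with w hw using hgf w hw
  have := hcomp.unique hid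
  rw [h0, mul_zero] at this
  exact zero_ne_one this

theorem contDiffAt_one {E' F' : Type*} [NormedAddCommGroup E'] [NormedSpace ℂ E']
    [NormedAddCommGroup F'] [NormedSpace ℂ F'] {f : E' → F'} {U : Set E'} (hU : IsOpen U)
    (hf : DifferentiableOn ℂ f U) {z : E'} (hz : z ∈ U) : ContDiffAt ℂ 1 f z := by
  rw [contDiffAt_one_iff]
  exact ⟨fderiv ℂ f, U, hU.mem_nhds hz, SP.continuousOn_fderiv' hU hf,
    fun x hx => (hf.differentiableAt (hU.mem_nhds hx)).hasFDerivAt⟩

/-- at every point the derivative of an injective holomorphic map `ℂ² ⊇ U → ℂ²` is either zero or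
injective -/
theorem fderiv_injective_of_ne_zero {f : E → E} {U : Set E} (hU : IsOpen U)
    (hf : DifferentiableOn ℂ f U) (hinj : InjOn f U) {p : E} (hp : p ∈ U)
    (hne : fderiv ℂ f p ≠ 0) : Function.Injective (fderiv ℂ f p) := by
  rw [injective_iff_map_eq_zero]
  intro v hv
  by_contra hv0
  obtain ⟨u, hu⟩ : ∃ u, fderiv ℂ f p u ≠ 0 := by
    by_contra h
    push Not at h
    exact hne (ContinuousLinearMap.ext h)
  obtain ⟨i, hi⟩ : ∃ i, (fderiv ℂ f p u) i ≠ 0 := by
    by_contra h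
    push Not at h
    exact hu (by ext i; exact h i)
  -- the linear parametrisation
  set L : ℂ × ℂ →L[ℂ] E :=
    (ContinuousLinearMap.snd ℂ ℂ ℂ).smulRight u + (ContinuousLinearMap.fst ℂ ℂ ℂ).smulRight v
    with hL
  have hLapp : ∀ x : ℂ × ℂ, L x = x.2 • u + x.1 • v := fun x => by simp [hL]
  set P : E →L[ℂ] ℂ := EuclideanSpace.proj i with hP
  have hPapp : ∀ x : E, P x = x i := fun x => rfl
  set φ : ℂ × ℂ → ℂ := fun x => P (f (p + L x)) with hφ
  have hp0 : p + L (0, 0) = p := by rw [hLapp]; simp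
  have hfc : ContDiffAt ℂ 1 f (p + L (0, 0)) := by
    rw [hp0]; exact contDiffAt_one hU hf hp
  have hcd : ContDiffAt ℂ 1 φ (0, 0) := by
    have h1 : ContDiffAt ℂ 1 (fun x : ℂ × ℂ => p + L x) (0, 0) :=
      contDiffAt_const.add L.contDiff.contDiffAt
    exact P.contDiff.contDiffAt.comp (0, 0) (hfc.comp (f := fun x : ℂ × ℂ => p + L x) (0, 0) h1)
  have hfd : HasFDerivAt φ (P ∘L (fderiv ℂ f p) ∘L L) (0, 0) := by
    have h1 : HasFDerivAt (fun x : ℂ × ℂ => p + L x) L (0, 0) := L.hasFDerivAt.const_add p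
    have h2 : HasFDerivAt f (fderiv ℂ f p) (p + L (0, 0)) := by
      rw [hp0]; exact (hf.differentiableAt (hU.mem_nhds hp)).hasFDerivAt
    exact P.hasFDerivAt.comp (0, 0) (h2.comp (f := fun x : ℂ × ℂ => p + L x) (0, 0) h1)
  have hfd' : fderiv ℂ φ (0, 0) = P ∘L (fderiv ℂ f p) ∘L L := hfd.fderiv
  have hinr : ∀ a : ℂ, (fderiv ℂ φ (0, 0) ∘L .inr ℂ ℂ ℂ) a = a * (fderiv ℂ f p u) i := by
    intro a
    rw [hfd']
    simp [hLapp, hPapp]
  have hinl : fderiv ℂ φ (0, 0) ∘L .inl ℂ ℂ ℂ = 0 := by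
    ext
    rw [hfd']
    simp [hLapp, hv]
  have hinv : (fderiv ℂ φ (0, 0) ∘L .inr ℂ ℂ ℂ).IsInvertible := by
    refine ⟨ContinuousLinearEquiv.unitsEquivAut ℂ (Units.mk0 _ hi), ?_⟩
    ext
    rw [hinr]
    simp
  have hψd := hcd.hasStrictFDerivAt_implicitFunction one_ne_zero hinv
  have hψc := hcd.contDiffAt_implicitFunction one_ne_zero hinv
  have hψ0 := hcd.implicitFunction_apply_self one_ne_zero hinv
  have hψe := hcd.eventually_apply_implicitFunction one_ne_zero hinv
  set ψ := hcd.implicitFunction one_ne_zero hinv with hψ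
  rw [hinl] at hψd
  simp only [ContinuousLinearMap.comp_zero] at hψd hψc hψ0 hψe
  -- the curve
  set γ : ℂ → E := fun s => p + L (s, ψ s) with hγ
  have hγ0 : γ 0 = p := by
    rw [hγ]
    simp only
    rw [hψ0, hp0]
  have hψdiff : ∀ᶠ s in 𝓝 (0 : ℂ), DifferentiableAt ℂ ψ s := by
    filter_upwards [hψc.eventually (by simp)] with s hs using hs.differentiableAt one_ne_zero
  have hγdiff : ∀ s, DifferentiableAt ℂ ψ s → DifferentiableAt ℂ γ s := by
    intro s hs
    exact (L.differentiableAt.comp s (differentiableAt_id.prodMk hs)).const_add p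
  have hγcont : ContinuousAt γ 0 := (hγdiff 0 hψdiff.self_of_nhds).continuousAt
  have hγU : ∀ᶠ s in 𝓝 (0 : ℂ), γ s ∈ U := by
    apply hγcont.eventually_mem
    rw [hγ0]; exact hU.mem_nhds hp
  obtain ⟨r, hr, hrb⟩ := Metric.eventually_nhds_iff_ball.1 ((hψdiff.and hγU).and hψe)
  -- the other coordinate
  obtain ⟨j, hij⟩ : ∃ j : Fin 2, ∀ k, k = i ∨ k = j := by
    fin_cases i
    · exact ⟨1, fun k => by fin_cases k <;> simp⟩
    · exact ⟨0, fun k => by fin_cases k <;> simp⟩
  set h : ℂ → ℂ := fun s => f (γ s) j with hh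
  have hγder : HasDerivAt γ v 0 := by
    have h1 : HasDerivAt ψ 0 0 := by
      have := hψd.hasFDerivAt.hasDerivAt
      simpa using this
    have h2 : HasDerivAt (fun s : ℂ => ((s, ψ s) : ℂ × ℂ)) (1, 0) 0 := (hasDerivAt_id 0).prodMk h1
    have h3 : HasDerivAt (fun s : ℂ => L (s, ψ s)) (L (1, 0)) 0 :=
      L.hasFDerivAt.comp_hasDerivAt 0 h2
    have h4 : HasDerivAt γ (L (1, 0)) 0 := h3.const_add p
    rw [hLapp] at h4
    simpa using h4
  have hhd : DifferentiableOn ℂ h (ball 0 r) := by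
    intro s hs
    obtain ⟨⟨h1, h2⟩, -⟩ := hrb s hs
    have h3 : DifferentiableAt ℂ (fun s => f (γ s)) s :=
      (hf.differentiableAt (hU.mem_nhds h2)).comp s (hγdiff s h1)
    exact ((EuclideanSpace.proj j : E →L[ℂ] ℂ).differentiableAt.comp s h3).differentiableWithinAt
  have hhinj : InjOn h (ball 0 r) := by
    intro s hs s' hs' hss
    obtain ⟨⟨h1, h2⟩, h3⟩ := hrb s hs
    obtain ⟨⟨h1', h2'⟩, h3'⟩ := hrb s' hs'
    have e1 : f (γ s) = f (γ s') := by
      ext k
      rcases hij k with rfl | rfl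
      · exact h3.trans h3'.symm
      · exact hss
    have e2 := hinj h2 h2' e1
    have e3 : ψ s • u + s • v = ψ s' • u + s' • v := by
      have := add_left_cancel e2
      rwa [hLapp, hLapp] at this
    have e4 : ψ s = ψ s' := by
      have h5 := congrArg (fderiv ℂ f p) e3
      simp only [map_add, map_smul, hv, smul_zero, add_zero] at h5
      exact smul_left_injective ℂ hu h5
    rw [e4] at e3
    exact smul_left_injective ℂ hv0 (add_left_cancel e3)
  have hder : HasDerivAt h 0 0 := by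
    have h1 : HasFDerivAt f (fderiv ℂ f p) (γ 0) := by
      rw [hγ0]; exact (hf.differentiableAt (hU.mem_nhds hp)).hasFDerivAt
    have h2 := h1.comp_hasDerivAt 0 hγder
    have h3 : HasDerivAt h ((EuclideanSpace.proj j : E →L[ℂ] ℂ) (fderiv ℂ f p v)) 0 :=
      (EuclideanSpace.proj j : E →L[ℂ] ℂ).hasFDerivAt.comp_hasDerivAt 0 h2
    rw [hv, map_zero] at h3
    exact h3
  exact deriv_ne_zero_of_injOn isOpen_ball hhd hhinj (mem_ball_self hr) hder.deriv

/-- basis vectors -/
noncomputable def e0 : E := EuclideanSpace.single 0 1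
noncomputable def e1 : E := EuclideanSpace.single 1 1

theorem decomp (x : E) : x = x 0 • e0 + x 1 • e1 := by
  ext i
  fin_cases i <;> simp [e0, e1]

/-- the Jacobian determinant -/
noncomputable def jac (A : E →L[ℂ] E) : ℂ := A e0 0 * A e1 1 - A e0 1 * A e1 0

theorem jac_eq_zero_of_not_injective {A : E →L[ℂ] E} (h : ¬ Function.Injective A) : jac A = 0 := by
  rw [injective_iff_map_eq_zero] at h
  push Not at h
  obtain ⟨x, hx, hx0⟩ := h
  have hx' : x 0 • A e0 + x 1 • A e1 = 0 := by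
    rw [← map_smul, ← map_smul, ← map_add, ← decomp, hx]
  have h0 : x 0 * A e0 0 + x 1 * A e1 0 = 0 := by simpa using congrArg (fun y : E => y 0) hx'
  have h1 : x 0 * A e0 1 + x 1 * A e1 1 = 0 := by simpa using congrArg (fun y : E => y 1) hx'
  by_contra hJ
  apply hx0
  unfold jac at hJ
  have e0' : x 0 * (A e0 0 * A e1 1 - A e0 1 * A e1 0) = 0 := by
    linear_combination A e1 1 * h0 - A e1 0 * h1
  have e1' : x 1 * (A e0 0 * A e1 1 - A e0 1 * A e1 0) = 0 := by
    linear_combination A e0 0 * h1 - A e0 1 * h0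
  rw [decomp x, (mul_eq_zero.1 e0').resolve_right hJ, (mul_eq_zero.1 e1').resolve_right hJ]
  simp

theorem e0_ne : e0 ≠ 0 := by
  intro h
  have := congrArg (fun y : E => y 0) h
  simp [e0] at this

theorem not_injective_of_jac_eq_zero {A : E →L[ℂ] E} (h : jac A = 0) : ¬ Function.Injective A := by
  intro hinj
  rw [injective_iff_map_eq_zero] at hinj
  unfold jac at h
  have h1 : A e1 1 • e0 - A e0 1 • e1 = 0 := by
    apply hinj
    rw [map_sub, map_smul, map_smul]
    ext i
    fin_cases i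
    · simp; linear_combination h
    · simp; ring
  have h2 : A e1 0 • e0 - A e0 0 • e1 = 0 := by
    apply hinj
    rw [map_sub, map_smul, map_smul]
    ext i
    fin_cases i
    · simp; ring
    · simp; linear_combination -h
  have h3 : A e0 1 = 0 := by simpa [e0, e1] using congrArg (fun y : E => y 1) h1
  have h4 : A e0 0 = 0 := by simpa [e0, e1] using congrArg (fun y : E => y 1) h2
  apply e0_ne
  apply hinj
  ext i
  fin_cases i
  · simpa using h4
  · simpa using h3

theorem differentiableOn_jac {f : E → E} {U : Set E} (hU : IsOpen U)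
    (hf : DifferentiableOn ℂ f U) : DifferentiableOn ℂ (fun z => jac (fderiv ℂ f z)) U := by
  have h0 := SP.differentiableOn_fderiv_apply hU hf e0
  have h1 := SP.differentiableOn_fderiv_apply hU hf e1
  have hc : ∀ (w : E → E), DifferentiableOn ℂ w U → ∀ i, DifferentiableOn ℂ (fun z => w z i) U := by
    intro w hw i
    exact (EuclideanSpace.proj i : E →L[ℂ] ℂ).differentiable.comp_differentiableOn hw
  exact ((hc _ h0 0).mul (hc _ h1 1)).sub ((hc _ h0 1).mul (hc _ h1 0))

/-- If a holomorphic function `J` on the unit ball is not identically zero and has a zero, there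
is a holomorphic function vanishing on its zero set, with nonzero derivative at some zero of `J` -/
theorem exists_reduced {J : E → ℂ} (hJ : DifferentiableOn ℂ J (ball (0 : E) 1)) (h0 : J 0 ≠ 0)
    {p : E} (hp : p ∈ ball (0 : E) 1) (hJp : J p = 0) :
    ∃ g : E → ℂ, DifferentiableOn ℂ g (ball (0 : E) 1) ∧
      (∀ z ∈ ball (0 : E) 1, J z = 0 → g z = 0) ∧
      ∃ q ∈ ball (0 : E) 1, J q = 0 ∧ fderiv ℂ g q ≠ 0 := by
  by_contra hcon
  push Not at hcon
  set v : E := -p with hv
  obtain ⟨G, hG0, hGs⟩ : ∃ G : ℕ → E → ℂ, G 0 = J ∧ ∀ k, G (k + 1) = fun z => fderiv ℂ (G k) z v :=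
    ⟨fun k => Nat.rec J (fun _ g => fun z => fderiv ℂ g z v) k, rfl, fun k => rfl⟩
  have hG : ∀ k, DifferentiableOn ℂ (G k) (ball (0 : E) 1) ∧
      ∀ z ∈ ball (0 : E) 1, J z = 0 → G k z = 0 := by
    intro k
    induction k with
    | zero => rw [hG0]; exact ⟨hJ, fun z _ h => h⟩
    | succ k ih =>
      rw [hGs]
      refine ⟨SP.differentiableOn_fderiv_apply isOpen_ball ih.1 v, fun z hz hJz => ?_⟩
      show fderiv ℂ (G k) z v = 0
      rw [hcon (G k) ih.1 ih.2 z hz hJz]
      rfl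
  set S : Set ℂ := {s | p + s • v ∈ ball (0 : E) 1} with hS
  have hSo : IsOpen S := isOpen_ball.preimage (by fun_prop)
  have hSc : IsPreconnected S := by
    apply Convex.isPreconnected
    intro s hs t ht a b ha hb hab
    have h1 := convex_ball (0 : E) 1 hs ht ha hb hab
    have h2 : a • (p + s • v) + b • (p + t • v) = p + (a • s + b • t) • v := by
      have : p = a • p + b • p := by rw [← add_smul, hab, one_smul]
      conv_rhs => rw [this]
      rw [add_smul, smul_assoc, smul_assoc, smul_add, smul_add]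
      abel
    rw [h2] at h1
    exact h1
  set φ : ℂ → ℂ := fun s => J (p + s • v) with hφ
  have hder : ∀ k, ∀ s ∈ S, HasDerivAt (fun s : ℂ => G k (p + s • v)) (G (k + 1) (p + s • v)) s := by
    intro k s hs
    rw [hGs]
    exact SP.hasDerivAt_line ((hG k).1.differentiableAt (isOpen_ball.mem_nhds hs))
  have hit : ∀ k, ∀ s ∈ S, iteratedDeriv k φ s = G k (p + s • v) := by
    intro k
    induction k with
    | zero => intro s hs; rw [iteratedDeriv_zero, hG0]
    | succ k ih =>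
      intro s hs
      rw [iteratedDeriv_succ]
      have : iteratedDeriv k φ =ᶠ[𝓝 s] fun s => G k (p + s • v) := by
        filter_upwards [hSo.mem_nhds hs] with t ht using ih t ht
      rw [this.deriv_eq, (hder k s hs).deriv]
  have h0S : (0 : ℂ) ∈ S := by simpa [hS] using hp
  have h1S : (1 : ℂ) ∈ S := by simp [hS, hv]
  have hφd : DifferentiableOn ℂ φ S := by
    intro s hs
    have := (hder 0 s hs).differentiableAt
    rw [hG0] at this
    exact this.differentiableWithinAt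
  have hev : φ =ᶠ[𝓝 0] 0 := by
    obtain ⟨r, hr, hrS⟩ := Metric.isOpen_iff.1 hSo 0 h0S
    filter_upwards [ball_mem_nhds (0 : ℂ) hr] with s hs
    have h1 := Complex.hasSum_taylorSeries_on_ball (hφd.mono hrS) hs
    have h2 : ∀ n : ℕ, ((n.factorial : ℂ)⁻¹ • (s - 0) ^ n • iteratedDeriv n φ 0) = 0 := by
      intro n
      rw [hit n 0 h0S, (hG n).2 _ h0S (by simpa using hJp)]
      simp
    simp only [h2] at h1
    exact h1.unique hasSum_zero
  have := (hφd.analyticOnNhd hSo).eqOn_zero_of_preconnected_of_eventuallyEq_zero hSc h0S hev h1S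
  apply h0
  simpa [hφ, hv] using this


theorem no_zero {f : E → E} (hf : DifferentiableOn ℂ f (ball (0 : E) 1))
    (hinj : InjOn f (ball (0 : E) 1)) {J : E → ℂ} (hJ : DifferentiableOn ℂ J (ball (0 : E) 1))
    (h0 : J 0 ≠ 0) (hJf : ∀ z ∈ ball (0 : E) 1, J z = 0 → fderiv ℂ f z = 0) {p : E}
    (hp : p ∈ ball (0 : E) 1) (hJp : J p = 0) : False := by
  obtain ⟨g, hg, hgz, q, hq, hJq, hdg⟩ := exists_reduced hJ h0 hp hJp
  obtain ⟨v, hv⟩ : ∃ v, fderiv ℂ g q v = 1 := by
    obtain ⟨w, hw⟩ : ∃ w, fderiv ℂ g q w ≠ 0 := by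
      by_contra h
      push Not at h
      exact hdg (ContinuousLinearMap.ext h)
    exact ⟨(fderiv ℂ g q w)⁻¹ • w, by rw [map_smul, smul_eq_mul, inv_mul_cancel₀ hw]⟩
  obtain ⟨u, hu0, hu⟩ : ∃ u, u ≠ 0 ∧ fderiv ℂ g q u = 0 := by
    refine ⟨fderiv ℂ g q e1 • e0 - fderiv ℂ g q e0 • e1, ?_, ?_⟩
    · intro h
      apply hdg
      have h1 : fderiv ℂ g q e1 = 0 := by simpa [e0, e1] using congrArg (fun y : E => y 0) h
      have h2 : fderiv ℂ g q e0 = 0 := by simpa [e0, e1] using congrArg (fun y : E => y 1) h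
      ext x
      rw [decomp x, map_add, map_smul, map_smul, h1, h2]
      simp
    · rw [map_sub, map_smul, map_smul, smul_eq_mul, smul_eq_mul]
      ring
  -- radii
  have hM : 0 < ‖u‖ + ‖v‖ + 1 := by positivity
  have hstr := (SP.hasStrictFDerivAt' isOpen_ball hg hq).isLittleO.def
    (c := 1 / (2 * (‖u‖ + ‖v‖ + 1))) (by positivity)
  obtain ⟨r₁, hr₁, hr₁b⟩ := Metric.eventually_nhds_iff_ball.1 hstr
  obtain ⟨K, s₀, hs₀, hK⟩ := (SP.hasStrictFDerivAt' isOpen_ball hJ hq).exists_lipschitzOnWith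
  obtain ⟨r₂, hr₂, hr₂b⟩ := Metric.mem_nhds_iff.1 hs₀
  obtain ⟨r₃, hr₃, hr₃b⟩ := Metric.isOpen_iff.1 isOpen_ball q hq
  set r := min r₁ (min r₂ r₃) with hr
  have hr0 : 0 < r := lt_min hr₁ (lt_min hr₂ hr₃)
  have hrU : ball q r ⊆ ball (0 : E) 1 :=
    (ball_subset_ball ((min_le_right _ _).trans (min_le_right _ _))).trans hr₃b
  have hrs : ball q r ⊆ s₀ :=
    (ball_subset_ball ((min_le_right _ _).trans (min_le_left _ _))).trans hr₂b
  have hlipJ : ∀ z ∈ ball q r, ∀ z' ∈ ball q r, ‖J z - J z'‖ ≤ K * ‖z - z'‖ := by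
    intro z hz z' hz'
    have := hK.dist_le_mul z (hrs hz) z' (hrs hz')
    rwa [dist_eq_norm, dist_eq_norm] at this
  set L : ℂ → ℂ → E := fun a s => q + (a • u + s • v) with hL
  have hLn : ∀ a s a' s', ‖L a s - L a' s'‖ ≤ ‖a - a'‖ * ‖u‖ + ‖s - s'‖ * ‖v‖ := by
    intro a s a' s'
    have : L a s - L a' s' = (a - a') • u + (s - s') • v := by
      simp only [hL, sub_smul]; abel
    rw [this]
    exact (norm_add_le _ _).trans (by rw [norm_smul, norm_smul])
  have hL00 : L 0 0 = q := by simp [hL]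
  have key : ∀ a s a' s', L a s ∈ ball q r → L a' s' ∈ ball q r → J (L a s) = 0 →
      J (L a' s') = 0 → ‖s - s'‖ ≤ ‖a - a'‖ := by
    intro a s a' s' h1 h2 hz1 hz2
    have h3 : ((L a s, L a' s') : E × E) ∈ ball (q, q) r₁ := by
      rw [← ball_prod_same]
      exact ⟨ball_subset_ball (min_le_left _ _) h1, ball_subset_ball (min_le_left _ _) h2⟩
    have h4 := hr₁b _ h3
    simp only at h4
    rw [hgz _ (hrU h1) hz1, hgz _ (hrU h2) hz2] at h4
    have h5 : fderiv ℂ g q (L a s - L a' s') = s - s' := by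
      have : L a s - L a' s' = (a - a') • u + (s - s') • v := by
        simp only [hL, sub_smul]; abel
      rw [this, map_add, map_smul, map_smul, hu, hv]
      simp
    rw [h5, sub_zero, zero_sub, norm_neg] at h4
    have h6 := hLn a s a' s'
    have h7 : ‖s - s'‖ ≤ 1 / (2 * (‖u‖ + ‖v‖ + 1)) * (‖a - a'‖ * ‖u‖ + ‖s - s'‖ * ‖v‖) :=
      h4.trans (mul_le_mul_of_nonneg_left h6 (by positivity))
    have h8 : ‖a - a'‖ * ‖u‖ + ‖s - s'‖ * ‖v‖ ≤ (‖a - a'‖ + ‖s - s'‖) * (‖u‖ + ‖v‖ + 1) := by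
      have := norm_nonneg (a - a')
      have := norm_nonneg (s - s')
      have := norm_nonneg u
      have := norm_nonneg v
      nlinarith
    have h9 : 1 / (2 * (‖u‖ + ‖v‖ + 1)) * ((‖a - a'‖ + ‖s - s'‖) * (‖u‖ + ‖v‖ + 1)) =
        (‖a - a'‖ + ‖s - s'‖) / 2 := by
      field_simp
    have h10 := h7.trans (mul_le_mul_of_nonneg_left h8 (by positivity))
    rw [h9] at h10
    linarith
  -- the disc on the line
  set ε := r / (2 * (‖v‖ + 1)) with hε
  have hε0 : 0 < ε := by positivity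
  have hεv : ε * ‖v‖ < r / 2 := by
    rw [hε, div_mul_eq_mul_div, div_lt_div_iff₀ (by positivity) (by positivity)]
    nlinarith [norm_nonneg v]
  have hin : ∀ a s : ℂ, ‖a‖ * ‖u‖ < r / 2 → ‖s‖ ≤ ε → L a s ∈ ball q r := by
    intro a s ha hs
    rw [mem_ball, dist_eq_norm]
    have h1 := hLn a s 0 0
    rw [hL00, sub_zero, sub_zero] at h1
    have h2 : ‖s‖ * ‖v‖ ≤ ε * ‖v‖ := mul_le_mul_of_nonneg_right hs (norm_nonneg _)
    linarith
  have hline : ∀ s : ℂ, ‖s‖ ≤ ε → s ≠ 0 → J (L 0 s) ≠ 0 := by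
    intro s hs hs0 hJs
    have h1 := key 0 s 0 0 (hin 0 s (by simp; linarith) hs) (by rw [hL00]; exact mem_ball_self hr0)
      hJs (by rw [hL00]; exact hJq)
    rw [sub_zero, sub_zero, norm_zero] at h1
    exact hs0 (norm_le_zero_iff.1 h1)
  have hLc : ∀ a, Continuous (L a) := by
    intro a
    simp only [hL]
    fun_prop
  have hJc : ContinuousOn J (ball (0 : E) 1) := hJ.continuousOn
  obtain ⟨s₁, hs₁, hmin⟩ := (isCompact_sphere (0 : ℂ) ε).exists_isMinOn
    (NormedSpace.sphere_nonempty.2 hε0.le) (f := fun s => ‖J (L 0 s)‖) (by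
      apply ContinuousOn.norm
      apply hJc.comp (hLc 0).continuousOn
      intro s hs
      rw [mem_sphere_zero_iff_norm] at hs
      exact hrU (hin 0 s (by simp; linarith) hs.le))
  set m := ‖J (L 0 s₁)‖ with hm
  have hs₁n : ‖s₁‖ = ε := mem_sphere_zero_iff_norm.1 hs₁
  have hm0 : 0 < m := by
    rw [hm, norm_pos_iff]
    apply hline s₁ hs₁n.le
    intro h
    rw [h, norm_zero] at hs₁n
    linarith
  have hmle : ∀ s : ℂ, ‖s‖ = ε → m ≤ ‖J (L 0 s)‖ := fun s hs =>
    hmin (mem_sphere_zero_iff_norm.2 hs)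
  set δ := min (r / (2 * (‖u‖ + 1))) (m / (4 * (K * ‖u‖ + 1))) with hδ
  have hKu : 0 < (K : ℝ) * ‖u‖ + 1 := by positivity
  have hδ0 : 0 < δ := lt_min (by positivity) (by positivity)
  have hδu : ∀ a ∈ ball (0 : ℂ) δ, ‖a‖ * ‖u‖ < r / 2 := by
    intro a ha
    rw [mem_ball_zero_iff] at ha
    have h1 : ‖a‖ < r / (2 * (‖u‖ + 1)) := lt_of_lt_of_le ha (min_le_left _ _)
    rw [lt_div_iff₀ (by positivity)] at h1
    nlinarith [norm_nonneg a, norm_nonneg u]
  have hδK : ∀ a ∈ ball (0 : ℂ) δ, K * (‖a‖ * ‖u‖) ≤ m / 4 := by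
    intro a ha
    rw [mem_ball_zero_iff] at ha
    have h1 : ‖a‖ < m / (4 * (K * ‖u‖ + 1)) := lt_of_lt_of_le ha (min_le_right _ _)
    rw [lt_div_iff₀ (by positivity)] at h1
    nlinarith [norm_nonneg a, norm_nonneg u]
  have hclose : ∀ a ∈ ball (0 : ℂ) δ, ∀ s : ℂ, ‖s‖ ≤ ε → ‖J (L a s) - J (L 0 s)‖ ≤ m / 4 := by
    intro a ha s hs
    have h1 := hlipJ _ (hin a s (hδu a ha) hs) _ (hin 0 s (by simp; linarith) hs)
    have h2 := hLn a s 0 s
    rw [sub_zero, sub_self, norm_zero, zero_mul, add_zero] at h2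
    exact (h1.trans (mul_le_mul_of_nonneg_left h2 K.2)).trans (hδK a ha)
  have hex : ∀ a ∈ ball (0 : ℂ) δ, ∃ s : ℂ, ‖s‖ ≤ ε ∧ J (L a s) = 0 := by
    intro a ha
    by_contra hcon
    push Not at hcon
    have hd : DifferentiableOn ℂ (fun s => (J (L a s))⁻¹) (closedBall 0 ε) := by
      intro s hs
      rw [mem_closedBall_zero_iff] at hs
      have h1 : DifferentiableAt ℂ J (L a s) :=
        hJ.differentiableAt (isOpen_ball.mem_nhds (hrU (hin a s (hδu a ha) hs)))
      have h2 : DifferentiableAt ℂ (L a) s := by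
        simp only [hL]
        fun_prop
      exact ((h1.comp s h2).inv (hcon s hs)).differentiableWithinAt
    have hd' := hd.diffContOnCl_ball subset_rfl
    have hb : ∀ s ∈ frontier (ball (0 : ℂ) ε), ‖(J (L a s))⁻¹‖ ≤ (3 * m / 4)⁻¹ := by
      intro s hs
      rw [frontier_ball _ hε0.ne', mem_sphere_zero_iff_norm] at hs
      rw [norm_inv]
      apply inv_anti₀ (by positivity)
      have h1 := hmle s hs
      have h2 := hclose a ha s hs.le
      have h3 := norm_sub_norm_le (J (L 0 s)) (J (L a s))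
      rw [norm_sub_rev] at h3
      linarith
    have h1 := Complex.norm_le_of_forall_mem_frontier_norm_le isBounded_ball hd' hb
      (subset_closure (mem_ball_self hε0))
    rw [norm_inv] at h1
    have h2 : 0 < ‖J (L a 0)‖ := norm_pos_iff.2 (hcon 0 (by simp; exact hε0.le))
    have h3 : 3 * m / 4 ≤ ‖J (L a 0)‖ := (inv_le_inv₀ h2 (by positivity)).1 h1
    have h4 := hclose a ha 0 (by simp; exact hε0.le)
    rw [hL00, hJq, sub_zero] at h4
    linarith
  choose! σ hσ using hex
  have hmem : ∀ a ∈ ball (0 : ℂ) δ, L a (σ a) ∈ ball q r := fun a ha =>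
    hin a _ (hδu a ha) (hσ a ha).1
  have hσl : ∀ a ∈ ball (0 : ℂ) δ, ∀ a' ∈ ball (0 : ℂ) δ, ‖σ a - σ a'‖ ≤ ‖a - a'‖ :=
    fun a ha a' ha' => key a _ a' _ (hmem a ha) (hmem a' ha') (hσ a ha).2 (hσ a' ha').2
  set z : ℂ → E := fun a => L a (σ a) with hz
  have hzl : ∀ a ∈ ball (0 : ℂ) δ, ∀ a' ∈ ball (0 : ℂ) δ,
      ‖z a - z a'‖ ≤ (‖u‖ + ‖v‖) * ‖a - a'‖ := by
    intro a ha a' ha'
    have h1 := hLn a (σ a) a' (σ a')
    have h2 := mul_le_mul_of_nonneg_right (hσl a ha a' ha') (norm_nonneg v)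
    calc ‖z a - z a'‖ ≤ ‖a - a'‖ * ‖u‖ + ‖σ a - σ a'‖ * ‖v‖ := h1
      _ ≤ ‖a - a'‖ * ‖u‖ + ‖a - a'‖ * ‖v‖ := by linarith
      _ = (‖u‖ + ‖v‖) * ‖a - a'‖ := by ring
  have hFd : ∀ a ∈ ball (0 : ℂ) δ, HasDerivAt (fun a => f (z a)) 0 a := by
    intro a ha
    have hO : (fun a' => z a' - z a) =O[𝓝 a] (fun a' => a' - a) := by
      apply Asymptotics.IsBigO.of_bound (‖u‖ + ‖v‖)
      filter_upwards [isOpen_ball.mem_nhds ha] with a' ha' using hzl a' ha' a ha
    have ht : Tendsto z (𝓝 a) (𝓝 (z a)) := by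
      rw [tendsto_iff_norm_sub_tendsto_zero]
      have h1 : Tendsto (fun a' => (‖u‖ + ‖v‖) * ‖a' - a‖) (𝓝 a) (𝓝 0) := by
        have : Tendsto (fun a' : ℂ => (‖u‖ + ‖v‖) * ‖a' - a‖) (𝓝 a) (𝓝 ((‖u‖ + ‖v‖) * ‖a - a‖)) := by
          apply Continuous.tendsto
          fun_prop
        simpa using this
      refine squeeze_zero' (Eventually.of_forall fun _ => norm_nonneg _) ?_ h1
      filter_upwards [isOpen_ball.mem_nhds ha] with a' ha' using hzl a' ha' a ha
    have hfz : HasFDerivAt f (0 : E →L[ℂ] E) (z a) := by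
      have h1 := hmem a ha
      have h2 := (hf.differentiableAt (isOpen_ball.mem_nhds (hrU h1))).hasFDerivAt
      rwa [hJf _ (hrU h1) (hσ a ha).2] at h2
    have hlo := (hfz.isLittleO.comp_tendsto ht).trans_isBigO hO
    rw [hasDerivAt_iff_isLittleO]
    refine hlo.congr_left fun a' => ?_
    simp
  have hconst : f (z (δ / 2 : ℝ)) = f (z 0) := by
    have hδm : ((δ / 2 : ℝ) : ℂ) ∈ ball (0 : ℂ) δ := by
      rw [mem_ball_zero_iff, Complex.norm_real, Real.norm_eq_abs, abs_of_pos (by positivity)]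
      linarith
    have := (convex_ball (0 : ℂ) δ).norm_image_sub_le_of_norm_deriv_le (f := fun a => f (z a))
      (C := 0) (fun x hx => (hFd x hx).differentiableAt)
      (fun x hx => by rw [(hFd x hx).deriv]; simp) (mem_ball_self hδ0) hδm
    rw [zero_mul] at this
    exact sub_eq_zero.1 (norm_le_zero_iff.1 this)
  have hδm : ((δ / 2 : ℝ) : ℂ) ∈ ball (0 : ℂ) δ := by
    rw [mem_ball_zero_iff, Complex.norm_real, Real.norm_eq_abs, abs_of_pos (by positivity)]
    linarith
  have heq := hinj (hrU (hmem _ hδm)) (hrU (hmem _ (mem_ball_self hδ0))) hconst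
  have h1 : ((δ / 2 : ℝ) : ℂ) • u + σ ((δ / 2 : ℝ) : ℂ) • v = (0 : ℂ) • u + σ 0 • v :=
    add_left_cancel heq
  have h2 := congrArg (fderiv ℂ g q) h1
  simp only [map_add, map_smul, hu, hv, smul_zero, zero_add, smul_eq_mul, mul_one, mul_zero] at h2
  rw [h2] at h1
  have h3 := add_right_cancel h1
  have h4 := smul_left_injective ℂ hu0 h3
  have h5 : δ / 2 = 0 := by exact_mod_cast h4
  linarith

/-- **Osgood's theorem** in `ℂ²` -/
theorem osgood {f : E → E} (hd : DifferentiableOn ℂ f (Metric.ball 0 1))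
    (hinj : Set.InjOn f (Metric.ball 0 1)) (h0 : Function.Injective (fderiv ℂ f 0)) :
    ∀ z ∈ Metric.ball (0 : E) 1, Function.Injective (fderiv ℂ f z) := by
  intro p hp
  by_contra hnot
  refine no_zero hd hinj (J := fun z => jac (fderiv ℂ f z)) (differentiableOn_jac isOpen_ball hd)
    (fun h => not_injective_of_jac_eq_zero h h0) ?_ hp (jac_eq_zero_of_not_injective hnot)
  intro z hz hJ
  by_contra hne
  exact not_injective_of_jac_eq_zero hJ (fderiv_injective_of_ne_zero isOpen_ball hd hinj hz hne)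

end Pool.Agent.Lib37.Osg
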