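import Mathlib

/-!
Exponentials in a real Banach algebra: the sequence of semigroups generated by partial sums of
`a k - 1`, where the `a k` are contractions that almost absorb each other, converges in norm.
-/

open NormedSpace Filter Topology
open scoped Nat

set_option linter.unusedSectionVars false

namespace Pool.Agent.Helper37.Sg

variable {E : Type*} [NormedRing E] [NormedAlgebra ℝ E] [CompleteSpace E]

lemma hasSum_exp (x : E) : HasSum (fun n : ℕ => ((n ! : ℝ)⁻¹) • x ^ n) (exp x) :=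
  exp_series_hasSum_exp' x

lemma exp_add_comm' {x y : E} (h : Commute x y) : exp (x + y) = exp x * exp y := by
  let _ : NormedAlgebra ℚ E := NormedAlgebra.restrictScalars ℚ ℝ E
  exact exp_add_of_commute h

lemma hasSum_real_exp (r : ℝ) : HasSum (fun n : ℕ => ((n ! : ℝ)⁻¹) * r ^ n) (Real.exp r) := by
  have h := hasSum_exp (E := ℝ) r
  simpa [Real.exp_eq_exp_ℝ, smul_eq_mul] using h

lemma norm_exp_le [NormOneClass E] (x : E) : ‖exp x‖ ≤ Real.exp ‖x‖ := by
  have h1 := hasSum_exp x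
  have h2 := hasSum_real_exp ‖x‖
  refine h1.norm_le_of_bounded h2 (fun n => ?_)
  rw [norm_smul, Real.norm_eq_abs, abs_of_nonneg (by positivity)]
  exact mul_le_mul_of_nonneg_left (norm_pow_le x n) (by positivity)

lemma exp_smul_one [NormOneClass E] (r : ℝ) : exp (r • (1 : E)) = Real.exp r • (1 : E) := by
  have h := algebraMap_exp_comm (𝕂 := ℝ) (𝔸 := E) r
  rw [Algebra.algebraMap_eq_smul_one, Algebra.algebraMap_eq_smul_one] at h
  rw [← h, Real.exp_eq_exp_ℝ]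

lemma exp_sub_smul_one [NormOneClass E] (x : E) (r : ℝ) :
    exp (x - r • (1 : E)) = Real.exp (-r) • exp x := by
  have hc : Commute x ((-r) • (1 : E)) := (Commute.one_right x).smul_right (-r)
  rw [sub_eq_add_neg, ← neg_smul, exp_add_comm' hc, exp_smul_one, mul_smul_comm, mul_one]

/-- Contractivity. -/
lemma norm_exp_sub_le [NormOneClass E] (x : E) (r : ℝ) (h : ‖x‖ ≤ r) :
    ‖exp (x - r • (1 : E))‖ ≤ 1 := by
  rw [exp_sub_smul_one, norm_smul, Real.norm_eq_abs, abs_of_pos (Real.exp_pos _)]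
  calc Real.exp (-r) * ‖exp x‖ ≤ Real.exp (-r) * Real.exp ‖x‖ :=
        mul_le_mul_of_nonneg_left (norm_exp_le x) (Real.exp_pos _).le
    _ = Real.exp (-r + ‖x‖) := (Real.exp_add _ _).symm
    _ ≤ 1 := Real.exp_le_one_iff.mpr (by linarith)

lemma norm_pow_mixed [NormOneClass E] {A C : E} {M η : ℝ} (hM : 1 ≤ M) (hη : 0 ≤ η)
    (hA : ‖A‖ ≤ M)
    (hC : ‖C‖ ≤ M) (hAC : ‖A * C‖ ≤ η) (hCA : ‖C * A‖ ≤ η) (n : ℕ) :
    ‖(A + C) ^ (n + 1) - A ^ (n + 1) - C ^ (n + 1)‖ ≤ η * (4 * M) ^ (n + 1) := by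
  have hM0 : 0 ≤ M := by linarith
  induction n with
  | zero => simp; positivity
  | succ n ih =>
    have e : (A + C) ^ (n + 1 + 1) - A ^ (n + 1 + 1) - C ^ (n + 1 + 1)
        = (A + C) * ((A + C) ^ (n + 1) - A ^ (n + 1) - C ^ (n + 1))
          + (C * A) * A ^ n + (A * C) * C ^ n := by
      have h1 : (A + C) ^ (n + 1 + 1) = (A + C) * (A + C) ^ (n + 1) := pow_succ' _ _
      have h2 : A ^ (n + 1 + 1) = A * A ^ (n + 1) := pow_succ' _ _
      have h3 : C ^ (n + 1 + 1) = C * C ^ (n + 1) := pow_succ' _ _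
      have h4 : A ^ (n + 1) = A * A ^ n := pow_succ' _ _
      have h5 : C ^ (n + 1) = C * C ^ n := pow_succ' _ _
      rw [h1, h2, h3]
      have h6 : (C * A) * A ^ n = C * A ^ (n + 1) := by rw [h4, mul_assoc]
      have h7 : (A * C) * C ^ n = A * C ^ (n + 1) := by rw [h5, mul_assoc]
      rw [h6, h7]
      noncomm_ring
    rw [e]
    have hAC2 : ‖A + C‖ ≤ 2 * M := (norm_add_le _ _).trans (by linarith)
    have hAn : ‖A ^ n‖ ≤ M ^ n := (norm_pow_le A n).trans (pow_le_pow_left₀ (norm_nonneg _) hA n)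
    have hCn : ‖C ^ n‖ ≤ M ^ n := (norm_pow_le C n).trans (pow_le_pow_left₀ (norm_nonneg _) hC n)
    have hMn : M ^ n ≤ (4 * M) ^ (n + 1) := by
      calc M ^ n ≤ (4 * M) ^ n := pow_le_pow_left₀ hM0 (by linarith) n
        _ ≤ (4 * M) ^ (n + 1) := pow_le_pow_right₀ (by linarith) (Nat.le_succ n)
    calc ‖(A + C) * ((A + C) ^ (n + 1) - A ^ (n + 1) - C ^ (n + 1))
          + (C * A) * A ^ n + (A * C) * C ^ n‖
        ≤ ‖A + C‖ * ‖(A + C) ^ (n + 1) - A ^ (n + 1) - C ^ (n + 1)‖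
          + ‖C * A‖ * ‖A ^ n‖ + ‖A * C‖ * ‖C ^ n‖ := by
          refine (norm_add_le _ _).trans (add_le_add ((norm_add_le _ _).trans
            (add_le_add (norm_mul_le _ _) (norm_mul_le _ _))) (norm_mul_le _ _))
      _ ≤ (2 * M) * (η * (4 * M) ^ (n + 1)) + η * M ^ n + η * M ^ n := by
          gcongr
      _ ≤ (2 * M) * (η * (4 * M) ^ (n + 1)) + η * (4 * M) ^ (n + 1) + η * (4 * M) ^ (n + 1) := by
          gcongr
      _ = (2 * M + 2) * (η * (4 * M) ^ (n + 1)) := by ring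
      _ ≤ (4 * M) * (η * (4 * M) ^ (n + 1)) := by
          gcongr
          linarith
      _ = η * (4 * M) ^ (n + 1 + 1) := by ring

lemma norm_exp_mixed [NormOneClass E] {A C : E} {M η : ℝ} (hM : 1 ≤ M) (hη : 0 ≤ η)
    (hA : ‖A‖ ≤ M)
    (hC : ‖C‖ ≤ M) (hAC : ‖A * C‖ ≤ η) (hCA : ‖C * A‖ ≤ η) :
    ‖exp (A + C) - exp A - exp C + 1‖ ≤ η * Real.exp (4 * M) := by
  have h1 := ((hasSum_exp (A + C)).sub (hasSum_exp A)).sub (hasSum_exp C)
  have h2 := h1.add (hasSum_ite_eq (0 : ℕ) (1 : E))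
  have h3 := (hasSum_real_exp (4 * M)).mul_left η
  refine h2.norm_le_of_bounded h3 (fun n => ?_)
  rcases n with _ | n
  · simp
    exact hη
  · have e : ((n + 1)! : ℝ)⁻¹ • (A + C) ^ (n + 1) - ((n + 1)! : ℝ)⁻¹ • A ^ (n + 1)
        - ((n + 1)! : ℝ)⁻¹ • C ^ (n + 1) + (if n + 1 = 0 then (1 : E) else 0)
        = ((n + 1)! : ℝ)⁻¹ • ((A + C) ^ (n + 1) - A ^ (n + 1) - C ^ (n + 1)) := by
      simp [smul_sub]
    rw [e, norm_smul, Real.norm_eq_abs, abs_of_nonneg (by positivity)]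
    calc ((n + 1)! : ℝ)⁻¹ * ‖(A + C) ^ (n + 1) - A ^ (n + 1) - C ^ (n + 1)‖
        ≤ ((n + 1)! : ℝ)⁻¹ * (η * (4 * M) ^ (n + 1)) :=
          mul_le_mul_of_nonneg_left (norm_pow_mixed hM hη hA hC hAC hCA n) (by positivity)
      _ = η * (((n + 1)! : ℝ)⁻¹ * (4 * M) ^ (n + 1)) := by ring

section Sequence

variable [NormOneClass E] (a : ℕ → E)

/-- Partial sums. -/
noncomputable def psum (K : ℕ) : E := ∑ k ∈ Finset.range K, a k

/-- Generators. -/
noncomputable def gen (K : ℕ) : E := psum a K - (K : ℝ) • (1 : E)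

lemma psum_succ (K : ℕ) : psum a (K + 1) = psum a K + a K := by
  simp [psum, Finset.sum_range_succ]

lemma norm_psum_le (ha : ∀ k, ‖a k‖ ≤ 1) (K : ℕ) : ‖psum a K‖ ≤ K := by
  unfold psum
  refine (norm_sum_le _ _).trans ?_
  calc ∑ k ∈ Finset.range K, ‖a k‖ ≤ ∑ _k ∈ Finset.range K, (1 : ℝ) :=
        Finset.sum_le_sum (fun k _ => ha k)
    _ = K := by simp

lemma smul_gen (t : ℝ) (K : ℕ) :
    t • gen a K = t • psum a K - (t * K) • (1 : E) := by
  rw [gen, smul_sub, smul_smul]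

lemma norm_exp_gen_le (ha : ∀ k, ‖a k‖ ≤ 1) {t : ℝ} (ht : 0 ≤ t) (K : ℕ) :
    ‖exp (t • gen a K)‖ ≤ 1 := by
  rw [smul_gen]
  refine norm_exp_sub_le _ _ ?_
  rw [norm_smul, Real.norm_eq_abs, abs_of_nonneg ht]
  exact mul_le_mul_of_nonneg_left (norm_psum_le a ha K) ht

/-- The main increment estimate. -/
lemma norm_exp_gen_succ_sub (ha : ∀ k, ‖a k‖ ≤ 1) {η : ℕ → ℝ}
    (h1 : ∀ K, ‖psum a K * (a K - 1)‖ ≤ η K) (h2 : ∀ K, ‖(a K - 1) * psum a K‖ ≤ η K)
    {t : ℝ} (ht : 0 ≤ t) (K : ℕ) :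
    ‖exp (t • gen a (K + 1)) - exp (t • gen a K)‖
      ≤ 2 * Real.exp (-(t * K)) + (t ^ 2 * η K) * Real.exp (4 * (1 + t * (K + 2))) := by
  have hη : 0 ≤ η K := (norm_nonneg _).trans (h1 K)
  set A := t • psum a K with hAdef
  set C := t • (a K - 1) with hCdef
  have e1 : t • gen a (K + 1) = (A + C) - (t * K) • (1 : E) := by
    rw [smul_gen, psum_succ, hAdef, hCdef]
    push_cast
    module
  have e2 : t • gen a K = A - (t * K) • (1 : E) := smul_gen a t K
  rw [e1, e2, exp_sub_smul_one, exp_sub_smul_one, ← smul_sub, norm_smul, Real.norm_eq_abs,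
    abs_of_pos (Real.exp_pos _)]
  have hAn : ‖A‖ ≤ 1 + t * (K + 2) := by
    rw [hAdef, norm_smul, Real.norm_eq_abs, abs_of_nonneg ht]
    have := mul_le_mul_of_nonneg_left (norm_psum_le a ha K) ht
    nlinarith
  have hCn : ‖C‖ ≤ 1 + t * (K + 2) := by
    rw [hCdef, norm_smul, Real.norm_eq_abs, abs_of_nonneg ht]
    have h3 : ‖a K - 1‖ ≤ 2 := (norm_sub_le _ _).trans (by rw [norm_one]; linarith [ha K])
    have := mul_le_mul_of_nonneg_left h3 ht
    have hK : (0 : ℝ) ≤ K := Nat.cast_nonneg K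
    nlinarith [mul_nonneg ht hK]
  have hM : (1 : ℝ) ≤ 1 + t * (K + 2) := by
    have hK : (0 : ℝ) ≤ K := Nat.cast_nonneg K
    nlinarith [mul_nonneg ht hK]
  have hAC : ‖A * C‖ ≤ t ^ 2 * η K := by
    rw [hAdef, hCdef, smul_mul_smul_comm, norm_smul, Real.norm_eq_abs,
      abs_of_nonneg (mul_nonneg ht ht), sq]
    exact mul_le_mul_of_nonneg_left (h1 K) (mul_nonneg ht ht)
  have hCA : ‖C * A‖ ≤ t ^ 2 * η K := by
    rw [hAdef, hCdef, smul_mul_smul_comm, norm_smul, Real.norm_eq_abs,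
      abs_of_nonneg (mul_nonneg ht ht), sq]
    exact mul_le_mul_of_nonneg_left (h2 K) (mul_nonneg ht ht)
  have hmix := norm_exp_mixed hM (by positivity) hAn hCn hAC hCA
  have hCe : ‖exp C‖ ≤ 1 := by
    have : C = t • a K - t • (1 : E) := by rw [hCdef, smul_sub]
    rw [this]
    refine norm_exp_sub_le _ _ ?_
    rw [norm_smul, Real.norm_eq_abs, abs_of_nonneg ht]
    have := mul_le_mul_of_nonneg_left (ha K) ht
    linarith
  have hdec : exp (A + C) - exp A = (exp (A + C) - exp A - exp C + 1) + (exp C - 1) := by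
    abel
  have hb : ‖exp (A + C) - exp A‖ ≤ (t ^ 2 * η K) * Real.exp (4 * (1 + t * (K + 2))) + 2 := by
    rw [hdec]
    refine (norm_add_le _ _).trans (add_le_add hmix ?_)
    refine (norm_sub_le _ _).trans ?_
    rw [norm_one]
    linarith
  have hexp1 : Real.exp (-(t * K)) ≤ 1 := by
    apply Real.exp_le_one_iff.mpr
    have : 0 ≤ t * K := mul_nonneg ht (Nat.cast_nonneg K)
    linarith
  have hpos : 0 ≤ (t ^ 2 * η K) * Real.exp (4 * (1 + t * (K + 2))) := by positivity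
  calc Real.exp (-(t * K)) * ‖exp (A + C) - exp A‖
      ≤ Real.exp (-(t * K)) * ((t ^ 2 * η K) * Real.exp (4 * (1 + t * (K + 2))) + 2) :=
        mul_le_mul_of_nonneg_left hb (Real.exp_pos _).le
    _ = 2 * Real.exp (-(t * K))
          + Real.exp (-(t * K)) * ((t ^ 2 * η K) * Real.exp (4 * (1 + t * (K + 2)))) := by ring
    _ ≤ 2 * Real.exp (-(t * K)) + 1 * ((t ^ 2 * η K) * Real.exp (4 * (1 + t * (K + 2)))) := by
        gcongr
    _ = _ := by ring

lemma summable_bound {t : ℝ} (ht : 0 < t) {η : ℕ → ℝ} (hη0 : ∀ K, 0 ≤ η K)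
    (hη : ∀ K, η K ≤ ((K ! : ℕ) : ℝ)⁻¹) :
    Summable (fun K : ℕ => 2 * Real.exp (-(t * K))
      + (t ^ 2 * η K) * Real.exp (4 * (1 + t * (K + 2)))) := by
  refine Summable.add ?_ ?_
  · refine Summable.mul_left _ ?_
    have : ∀ K : ℕ, Real.exp (-(t * K)) = (Real.exp (-t)) ^ K := by
      intro K
      rw [← Real.exp_nat_mul]
      congr 1
      ring
    simp_rw [this]
    exact summable_geometric_of_lt_one (Real.exp_pos _).le (Real.exp_lt_one_iff.mpr (by linarith))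
  · have hs : Summable (fun K : ℕ => (t ^ 2 * Real.exp (4 * (1 + 2 * t)))
        * ((Real.exp (4 * t)) ^ K / (K ! : ℕ))) :=
      (Real.summable_pow_div_factorial _).mul_left _
    refine Summable.of_nonneg_of_le (fun K => ?_) (fun K => ?_) hs
    · have := hη0 K
      positivity
    · have e : Real.exp (4 * (1 + t * (K + 2)))
          = Real.exp (4 * (1 + 2 * t)) * (Real.exp (4 * t)) ^ K := by
        rw [← Real.exp_nat_mul, ← Real.exp_add]
        congr 1
        ring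
      rw [e]
      calc t ^ 2 * η K * (Real.exp (4 * (1 + 2 * t)) * Real.exp (4 * t) ^ K)
          ≤ t ^ 2 * ((K ! : ℕ) : ℝ)⁻¹ * (Real.exp (4 * (1 + 2 * t)) * Real.exp (4 * t) ^ K) := by
            gcongr
            exact hη K
        _ = _ := by
            field_simp

theorem exists_limit (ha : ∀ k, ‖a k‖ ≤ 1) {η : ℕ → ℝ}
    (h1 : ∀ K, ‖psum a K * (a K - 1)‖ ≤ η K) (h2 : ∀ K, ‖(a K - 1) * psum a K‖ ≤ η K)
    (hη : ∀ K, η K ≤ ((K ! : ℕ) : ℝ)⁻¹) {t : ℝ} (ht : 0 ≤ t) :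
    ∃ T : E, Tendsto (fun K => exp (t • gen a K)) atTop (𝓝 T) := by
  rcases ht.eq_or_lt with h | h
  · subst h
    exact ⟨1, by simp [exp_zero]⟩
  · have hη0 : ∀ K, 0 ≤ η K := fun K => (norm_nonneg _).trans (h1 K)
    refine cauchySeq_tendsto_of_complete (cauchySeq_of_summable_dist
      (Summable.of_nonneg_of_le (fun _ => dist_nonneg) (fun K => ?_) (summable_bound h hη0 hη)))
    rw [dist_comm, dist_eq_norm]
    exact norm_exp_gen_succ_sub a ha h1 h2 ht K

end Sequence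

end Pool.Agent.Helper37.Sg
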