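import Mathlib

/-!
The Banach space of bounded measurable functions on a measurable group and the operators
`f ↦ (x ↦ ∫ f (x * y) dσ(y))` on it.
-/

open MeasureTheory Filter Topology
open scoped ENNReal NNReal

set_option linter.unusedSectionVars false

namespace Pool.Agent.Helper37.Sg

section Space

variable (H : Type*) [MeasurableSpace H]

/-- Bounded measurable real functions, as a subspace of the space of bounded functions. -/
noncomputable def BM : Submodule ℝ (lp (fun _ : H => ℝ) ∞) where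
  carrier := {f | Measurable (f : H → ℝ)}
  add_mem' := by
    intro f g hf hg
    simp only [Set.mem_ofPred_eq, lp.coeFn_add] at *
    exact hf.add hg
  zero_mem' := by
    simp only [Set.mem_ofPred_eq, lp.coeFn_zero]
    exact measurable_zero
  smul_mem' := by
    intro c f hf
    simp only [Set.mem_ofPred_eq, lp.coeFn_smul] at *
    exact hf.const_smul c

lemma isClosed_BM : IsClosed (BM H : Set (lp (fun _ : H => ℝ) ∞)) := by
  refine IsSeqClosed.isClosed ?_
  intro u f hu hf
  have hp : Tendsto (fun n => (u n : H → ℝ)) atTop (𝓝 (f : H → ℝ)) := by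
    rw [tendsto_pi_nhds]
    intro x
    rw [tendsto_iff_norm_sub_tendsto_zero]
    rw [tendsto_iff_norm_sub_tendsto_zero] at hf
    refine squeeze_zero (fun _ => norm_nonneg _) (fun n => ?_) hf
    have := lp.norm_apply_le_norm (p := ∞) (by simp) (u n - f) x
    simpa using this
  exact measurable_of_tendsto_metrizable (fun n => hu n) hp

/-- The Banach space of bounded measurable real functions. -/
def Bd : Type _ := ↥(BM H)

noncomputable instance : NormedAddCommGroup (Bd H) :=
  inferInstanceAs (NormedAddCommGroup ↥(BM H))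

noncomputable instance : NormedSpace ℝ (Bd H) :=
  inferInstanceAs (NormedSpace ℝ ↥(BM H))

instance : CompleteSpace (Bd H) := (isClosed_BM H).completeSpace_coe

/-- Bounded operators. -/
abbrev Op : Type _ := Bd H →L[ℝ] Bd H

end Space

section API

variable {H : Type*} [MeasurableSpace H]

/-- Underlying function. -/
def fn (f : Bd H) : H → ℝ := fun x => (f.1 : lp (fun _ : H => ℝ) ∞) x

lemma measurable_fn (f : Bd H) : Measurable (fn f) := f.2

lemma abs_fn_le (f : Bd H) (x : H) : |fn f x| ≤ ‖f‖ := by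
  exact lp.norm_apply_le_norm (p := ∞) (by simp) (f.1 : lp (fun _ : H => ℝ) ∞) x

lemma fn_add (f g : Bd H) (x : H) : fn (f + g) x = fn f x + fn g x := rfl

lemma fn_sub (f g : Bd H) (x : H) : fn (f - g) x = fn f x - fn g x := rfl

lemma fn_smul (c : ℝ) (f : Bd H) (x : H) : fn (c • f) x = c * fn f x := rfl

lemma fn_zero (x : H) : fn (0 : Bd H) x = 0 := rfl

lemma fn_ext {f g : Bd H} (h : ∀ x, fn f x = fn g x) : f = g := by
  apply Subtype.ext
  apply lp.ext
  funext x
  exact h x

lemma norm_le_of {f : Bd H} {C : ℝ} (hC : 0 ≤ C) (h : ∀ x, |fn f x| ≤ C) : ‖f‖ ≤ C := by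
  exact lp.norm_le_of_forall_le (f := (f.1 : lp (fun _ : H => ℝ) ∞)) hC
    (fun x => by simpa [fn] using h x)

/-- Constructor. -/
noncomputable def mkBM (f : H → ℝ) (hf : Measurable f) (hb : ∃ C, ∀ x, |f x| ≤ C) : Bd H :=
  ⟨⟨f, memℓp_infty (by
    obtain ⟨C, hC⟩ := hb
    exact ⟨C, by rintro _ ⟨x, rfl⟩; simpa using hC x⟩)⟩, hf⟩

lemma fn_mkBM (f : H → ℝ) (hf : Measurable f) (hb : ∃ C, ∀ x, |f x| ≤ C) (x : H) :
    fn (mkBM f hf hb) x = f x := rfl

/-- Indicator functions. -/
noncomputable def ind (S : Set H) (hS : MeasurableSet S) : Bd H :=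
  mkBM (S.indicator (fun _ => (1 : ℝ))) (measurable_const.indicator hS)
    ⟨1, fun x => by by_cases h : x ∈ S <;> simp [h]⟩

lemma fn_ind (S : Set H) (hS : MeasurableSet S) (x : H) :
    fn (ind S hS) x = S.indicator (fun _ => (1 : ℝ)) x := rfl

lemma integrable_fn (f : Bd H) (σ : Measure H) [IsFiniteMeasure σ] : Integrable (fn f) σ :=
  Integrable.of_bound (measurable_fn f).aestronglyMeasurable ‖f‖
    (Eventually.of_forall (fun x => by simpa using abs_fn_le f x))

lemma integral_ind (S : Set H) (hS : MeasurableSet S) (σ : Measure H) [IsFiniteMeasure σ] :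
    ∫ x, fn (ind S hS) x ∂σ = σ.real S := by
  simp only [fn_ind]
  rw [integral_indicator hS]
  simp

instance [Nonempty H] : Nontrivial (Bd H) := by
  obtain ⟨x⟩ := ‹Nonempty H›
  refine ⟨⟨ind Set.univ MeasurableSet.univ, 0, ?_⟩⟩
  intro h
  have := congrArg (fun f => fn f x) h
  simp [fn_ind, fn_zero] at this

end API

section Ops

variable {H : Type*} [MeasurableSpace H] [Group H] [MeasurableMul₂ H]

/-- Left translate. -/
noncomputable def ltr (x : H) (f : Bd H) : Bd H :=
  mkBM (fun y => fn f (x * y)) ((measurable_fn f).comp (measurable_const_mul x))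
    ⟨‖f‖, fun y => abs_fn_le f _⟩

lemma fn_ltr (x : H) (f : Bd H) (y : H) : fn (ltr x f) y = fn f (x * y) := rfl

lemma norm_ltr_le (x : H) (f : Bd H) : ‖ltr x f‖ ≤ ‖f‖ :=
  norm_le_of (norm_nonneg _) (fun y => by rw [fn_ltr]; exact abs_fn_le f _)

/-- The operator `T` is given by integration against the finite measure `σ`. -/
structure Rep (T : Op H) (σ : Measure H) : Prop where
  fin : IsFiniteMeasure σ
  eq : ∀ (f : Bd H) (x : H), fn (T f) x = ∫ y, fn f (x * y) ∂σ

lemma Rep.eq' {T : Op H} {σ : Measure H} (h : Rep T σ) (f : Bd H) (x : H) :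
    fn (T f) x = ∫ y, fn (ltr x f) y ∂σ := h.eq f x

lemma Rep.eq_one {T : Op H} {σ : Measure H} (h : Rep T σ) (f : Bd H) :
    fn (T f) 1 = ∫ y, fn f y ∂σ := by
  have := h.eq f 1
  simpa using this

lemma exists_rep (σ : Measure H) [IsFiniteMeasure σ] : ∃ T : Op H, Rep T σ := by
  have hmeas : ∀ f : Bd H, Measurable (fun x => ∫ y, fn f (x * y) ∂σ) := by
    intro f
    have h1 : StronglyMeasurable (fun p : H × H => fn f (p.1 * p.2)) :=
      ((measurable_fn f).comp measurable_mul).stronglyMeasurable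
    exact h1.integral_prod_right.measurable
  have hbd : ∀ (f : Bd H) (x : H), |∫ y, fn f (x * y) ∂σ| ≤ σ.real Set.univ * ‖f‖ := by
    intro f x
    have := norm_integral_le_of_norm_le_const (μ := σ) (f := fun y => fn f (x * y)) (C := ‖f‖)
      (Eventually.of_forall (fun y => by simpa using abs_fn_le f (x * y)))
    rw [Real.norm_eq_abs] at this
    linarith [mul_comm (σ.real Set.univ) ‖f‖]
  let L : Bd H →ₗ[ℝ] Bd H :=
    { toFun := fun f => mkBM (fun x => ∫ y, fn f (x * y) ∂σ) (hmeas f) ⟨_, hbd f⟩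
      map_add' := by
        intro f g
        apply fn_ext
        intro x
        rw [fn_add, fn_mkBM, fn_mkBM, fn_mkBM]
        simp only [fn_add]
        exact integral_add (integrable_fn (ltr x f) σ) (integrable_fn (ltr x g) σ)
      map_smul' := by
        intro c f
        apply fn_ext
        intro x
        rw [RingHom.id_apply, fn_smul, fn_mkBM, fn_mkBM]
        simp only [fn_smul]
        exact integral_const_mul c _ }
  refine ⟨L.mkContinuous (σ.real Set.univ) (fun f => ?_), ⟨inferInstance, fun f x => rfl⟩⟩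
  exact norm_le_of (by positivity) (fun x => hbd f x)

lemma Rep.add {T S : Op H} {σ τ : Measure H} (h : Rep T σ) (h' : Rep S τ) :
    Rep (T + S) (σ + τ) := by
  have := h.fin
  have := h'.fin
  refine ⟨inferInstance, fun f x => ?_⟩
  rw [add_apply, fn_add, h.eq, h'.eq]
  exact (integral_add_measure (integrable_fn (ltr x f) σ) (integrable_fn (ltr x f) τ)).symm

lemma rep_zero : Rep (0 : Op H) 0 :=
  ⟨inferInstance, fun f x => by simp [fn_zero]⟩

lemma Rep.smul {T : Op H} {σ : Measure H} (h : Rep T σ) (c : ℝ≥0) :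
    Rep ((c : ℝ) • T) (c • σ) := by
  have := h.fin
  refine ⟨inferInstance, fun f x => ?_⟩
  rw [smul_apply, fn_smul, h.eq, integral_smul_nnreal_measure]
  rfl

lemma rep_one : Rep (1 : Op H) (Measure.dirac 1) := by
  refine ⟨inferInstance, fun f x => ?_⟩
  have := integral_dirac' (fn (ltr x f)) (1 : H) (measurable_fn (ltr x f)).stronglyMeasurable
  simp only [fn_ltr, mul_one] at this
  rw [this]
  rfl

lemma Rep.mul {T S : Op H} {σ τ : Measure H} (h : Rep T σ) (h' : Rep S τ) :
    Rep (T * S) (Measure.mconv σ τ) := by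
  have := h.fin
  have := h'.fin
  refine ⟨inferInstance, fun f x => ?_⟩
  rw [mul_apply_eq_comp, h.eq]
  have h1 := integral_mconv (μ := σ) (ν := τ) (f := fn (ltr x f))
    (integrable_fn (ltr x f) (Measure.mconv σ τ))
  simp only [fn_ltr] at h1
  rw [h1]
  congr 1
  funext y
  rw [h'.eq]
  simp only [mul_assoc]

/-- Injectivity. -/
lemma Rep.inj {T : Op H} {σ τ : Measure H} (h : Rep T σ) (h' : Rep T τ) : σ = τ := by
  have := h.fin
  have := h'.fin
  ext S hS
  have h1 := h.eq_one (ind S hS)
  have h2 := h'.eq_one (ind S hS)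
  rw [integral_ind] at h1 h2
  rw [h1] at h2
  exact (measureReal_eq_measureReal_iff).mp h2

lemma Rep.norm_sub_le {T S : Op H} {σ τ : Measure H} (h : Rep T σ) (h' : Rep S τ)
    {c : ℝ} (hc : 0 ≤ c)
    (H1 : ∀ f : Bd H, |∫ y, fn f y ∂σ - ∫ y, fn f y ∂τ| ≤ c * ‖f‖) : ‖T - S‖ ≤ c := by
  refine ContinuousLinearMap.opNorm_le_bound _ hc (fun f => ?_)
  refine norm_le_of (by positivity) (fun x => ?_)
  rw [sub_apply, fn_sub, h.eq', h'.eq']
  exact (H1 (ltr x f)).trans (mul_le_mul_of_nonneg_left (norm_ltr_le x f) hc)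

lemma Rep.abs_integral_sub_le {T S : Op H} {σ τ : Measure H} (h : Rep T σ)
    (h' : Rep S τ) (f : Bd H) :
    |∫ y, fn f y ∂σ - ∫ y, fn f y ∂τ| ≤ ‖T - S‖ * ‖f‖ := by
  rw [← h.eq_one, ← h'.eq_one, ← fn_sub, ← sub_apply]
  exact (abs_fn_le _ _).trans (ContinuousLinearMap.le_opNorm _ _)

lemma Rep.norm_le {T : Op H} {σ : Measure H} (h : Rep T σ) :
    ‖T‖ ≤ σ.real Set.univ := by
  have := h.fin
  refine ContinuousLinearMap.opNorm_le_bound _ (by positivity) (fun f => ?_)
  refine norm_le_of (by positivity) (fun x => ?_)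
  rw [h.eq]
  have := norm_integral_le_of_norm_le_const (μ := σ) (f := fun y => fn f (x * y)) (C := ‖f‖)
      (Eventually.of_forall (fun y => by simpa using abs_fn_le f (x * y)))
  rw [Real.norm_eq_abs] at this
  linarith [mul_comm (σ.real Set.univ) ‖f‖]

end Ops

end Pool.Agent.Helper37.Sg
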