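import Mathlib
import Pool.Agent.Lib_helper37.SgBM

/-!
Norm limits of operators given by absolutely continuous measures are given by absolutely
continuous measures.
-/

open MeasureTheory Filter Topology
open scoped ENNReal NNReal

set_option linter.unusedSectionVars false

namespace Pool.Agent.Helper37.Sg

variable {H : Type*} [MeasurableSpace H] [Group H] [MeasurableMul₂ H]

/-- Density. -/
noncomputable def dens (σ m : Measure H) : H → ℝ := fun x => (σ.rnDeriv m x).toReal

lemma measurable_dens (σ m : Measure H) : Measurable (dens σ m) :=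
  (Measure.measurable_rnDeriv σ m).ennreal_toReal

lemma integrable_dens (σ m : Measure H) [IsFiniteMeasure σ] : Integrable (dens σ m) m :=
  Measure.integrable_toReal_rnDeriv

lemma dens_nonneg (σ m : Measure H) (x : H) : 0 ≤ dens σ m x := ENNReal.toReal_nonneg

lemma integral_dens (σ m : Measure H) [IsFiniteMeasure σ] [SigmaFinite m] (h : σ ≪ m)
    (f : H → ℝ) : ∫ x, dens σ m x * f x ∂m = ∫ x, f x ∂σ :=
  integral_toReal_rnDeriv_mul h

lemma integrable_mul_fn {m : Measure H} {s : H → ℝ} (hs : Integrable s m) (g : Bd H) :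
    Integrable (fun x => s x * fn g x) m :=
  hs.mul_bdd (c := ‖g‖) (measurable_fn g).aestronglyMeasurable
    (Eventually.of_forall (fun x => by simpa using abs_fn_le g x))

lemma abs_integral_mul_fn_sub_le {m : Measure H} {s s' : H → ℝ} (hs : Integrable s m)
    (hs' : Integrable s' m) (g : Bd H) :
    |∫ x, s x * fn g x ∂m - ∫ x, s' x * fn g x ∂m| ≤ (∫ x, |s x - s' x| ∂m) * ‖g‖ := by
  rw [← integral_sub (integrable_mul_fn hs g) (integrable_mul_fn hs' g), ← integral_mul_const]
  refine (abs_integral_le_integral_abs).trans ?_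
  refine integral_mono_of_nonneg (Eventually.of_forall (fun _ => abs_nonneg _))
    ((hs.sub hs').abs.mul_const _) (Eventually.of_forall (fun x => ?_))
  show |s x * fn g x - s' x * fn g x| ≤ |s x - s' x| * ‖g‖
  rw [← sub_mul, abs_mul]
  exact mul_le_mul_of_nonneg_left (abs_fn_le g x) (abs_nonneg _)

/-- The `L¹` distance of the densities is bounded by the operator norm distance. -/
lemma integral_abs_dens_sub_le {m : Measure H} [SigmaFinite m] {T S : Op H} {σ τ : Measure H}
    (h : Rep T σ) (h' : Rep S τ) (hσ : σ ≪ m) (hτ : τ ≪ m) :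
    ∫ x, |dens σ m x - dens τ m x| ∂m ≤ ‖T - S‖ := by
  have := h.fin
  have := h'.fin
  have hms : MeasurableSet {x | dens σ m x < dens τ m x} :=
    measurableSet_lt (measurable_dens σ m) (measurable_dens τ m)
  classical
  let g : Bd H := mkBM (fun x => if dens σ m x < dens τ m x then (-1 : ℝ) else 1)
    (Measurable.ite hms measurable_const measurable_const)
    ⟨1, fun x => by split_ifs <;> simp⟩
  have hg : ‖g‖ ≤ 1 := norm_le_of zero_le_one (fun x => by
    rw [fn_mkBM]
    split_ifs <;> simp)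
  have e : ∫ x, |dens σ m x - dens τ m x| ∂m
      = ∫ x, fn g x ∂σ - ∫ x, fn g x ∂τ := by
    rw [← integral_dens σ m hσ, ← integral_dens τ m hτ,
      ← integral_sub (integrable_mul_fn (integrable_dens σ m) g)
        (integrable_mul_fn (integrable_dens τ m) g)]
    congr 1
    funext x
    rw [fn_mkBM, ← sub_mul]
    split_ifs with hlt
    · rw [abs_of_neg (by linarith)]; ring
    · rw [abs_of_nonneg (by linarith)]; ring
  rw [e]
  calc ∫ x, fn g x ∂σ - ∫ x, fn g x ∂τ ≤ |∫ x, fn g x ∂σ - ∫ x, fn g x ∂τ| := le_abs_self _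
    _ ≤ ‖T - S‖ * ‖g‖ := h.abs_integral_sub_le h' g
    _ ≤ ‖T - S‖ * 1 := mul_le_mul_of_nonneg_left hg (norm_nonneg _)
    _ = ‖T - S‖ := mul_one _

theorem rep_limit (m : Measure H) [SigmaFinite m] {T : ℕ → Op H} {S : Op H}
    (hT : ∀ n, ∃ σ, Rep (T n) σ ∧ σ ≪ m) (hS : Tendsto T atTop (𝓝 S)) :
    ∃ σ, Rep S σ ∧ σ ≪ m := by
  choose σ hσ hac using hT
  have hfin : ∀ n, IsFiniteMeasure (σ n) := fun n => (hσ n).fin
  set s : ℕ → H → ℝ := fun n => dens (σ n) m with hs
  have hsi : ∀ n, Integrable (s n) m := fun n => integrable_dens (σ n) m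
  let u : ℕ → (H →₁[m] ℝ) := fun n => (hsi n).toL1 (s n)
  have hdist : ∀ n k, dist (u n) (u k) ≤ dist (T n) (T k) := by
    intro n k
    rw [dist_eq_norm, dist_eq_norm]
    have : u n - u k = ((hsi n).sub (hsi k)).toL1 (s n - s k) := by
      simp only [u]
      exact (Integrable.toL1_sub _ _ _ _).symm
    rw [this, L1.norm_of_fun_eq_integral_norm]
    exact integral_abs_dens_sub_le (hσ n) (hσ k) (hac n) (hac k)
  have hcau : CauchySeq u := by
    have h1 := hS.cauchySeq
    rw [Metric.cauchySeq_iff] at h1 ⊢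
    intro ε hε
    obtain ⟨N, hN⟩ := h1 ε hε
    exact ⟨N, fun n hn k hk => (hdist n k).trans_lt (hN n hn k hk)⟩
  obtain ⟨L, hL⟩ := cauchySeq_tendsto_of_complete hcau
  have hLm : StronglyMeasurable (L : H → ℝ) := Lp.stronglyMeasurable L
  have hLi : Integrable (L : H → ℝ) m := L1.integrable_coeFn L
  have hlim : Tendsto (fun n => ∫ x, |s n x - L x| ∂m) atTop (𝓝 0) := by
    rw [tendsto_iff_norm_sub_tendsto_zero] at hL
    refine hL.congr (fun n => ?_)
    rw [L1.norm_eq_integral_norm]
    refine integral_congr_ae ?_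
    filter_upwards [Lp.coeFn_sub (u n) L, Integrable.coeFn_toL1 (hsi n)] with x h1 h2
    rw [h1, Pi.sub_apply, h2, Real.norm_eq_abs]
  let P : H → ℝ≥0 := fun x => Real.toNNReal (L x)
  have hPm : Measurable P := hLm.measurable.real_toNNReal
  have hPi : Integrable (fun x => (P x : ℝ)) m := by
    have := hLi.pos_part
    refine this.congr (Eventually.of_forall (fun x => ?_))
    simp [P, Real.coe_toNNReal']
  have hPl : ∀ n, ∫ x, |s n x - P x| ∂m ≤ ∫ x, |s n x - L x| ∂m := by
    intro n
    refine integral_mono ((hsi n).sub hPi).abs ((hsi n).sub hLi).abs (fun x => ?_)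
    show |s n x - P x| ≤ |s n x - L x|
    have h0 : s n x = max (s n x) 0 := (max_eq_left (dens_nonneg _ _ _)).symm
    have h1 : (P x : ℝ) = max (L x) 0 := Real.coe_toNNReal' _
    rw [h1]
    conv_lhs => rw [h0]
    exact abs_max_sub_max_le_abs _ _ _
  let τ : Measure H := m.withDensity (fun x => (P x : ℝ≥0∞))
  have hτfin : IsFiniteMeasure τ := by
    refine isFiniteMeasure_withDensity ?_
    have := hPi.2
    have h2 : ∫⁻ x, (P x : ℝ≥0∞) ∂m = ∫⁻ x, ‖(P x : ℝ)‖ₑ ∂m := by
      congr 1
      funext x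
      simp [Real.enorm_eq_ofReal]
    rw [h2]
    exact this.ne
  have hτint : ∀ g : H → ℝ, ∫ x, g x ∂τ = ∫ x, (P x : ℝ) * g x ∂m := by
    intro g
    have := integral_withDensity_eq_integral_smul (μ := m) hPm g
    exact this
  refine ⟨τ, ⟨hτfin, fun f x => ?_⟩, withDensity_absolutelyContinuous _ _⟩
  have hfx : Tendsto (fun n => fn (T n f) x) atTop (𝓝 (fn (S f) x)) := by
    rw [tendsto_iff_norm_sub_tendsto_zero] at hS ⊢
    have hS' : Tendsto (fun n => ‖T n - S‖ * ‖f‖) atTop (𝓝 0) := by
      simpa using hS.mul_const ‖f‖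
    refine squeeze_zero (fun _ => norm_nonneg _) (fun n => ?_) hS'
    rw [Real.norm_eq_abs, ← fn_sub, ← sub_apply]
    exact (abs_fn_le _ _).trans (ContinuousLinearMap.le_opNorm _ _)
  have hfx2 : Tendsto (fun n => fn (T n f) x) atTop (𝓝 (∫ y, fn f (x * y) ∂τ)) := by
    rw [tendsto_iff_norm_sub_tendsto_zero]
    have h3 : Tendsto (fun n => (∫ x, |s n x - L x| ∂m) * ‖ltr x f‖) atTop (𝓝 0) := by
      simpa using hlim.mul_const ‖ltr x f‖
    refine squeeze_zero (fun _ => norm_nonneg _) (fun n => ?_) h3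
    rw [Real.norm_eq_abs, (hσ n).eq', ← integral_dens (σ n) m (hac n), hτint]
    exact (abs_integral_mul_fn_sub_le (hsi n) hPi (ltr x f)).trans
      (mul_le_mul_of_nonneg_right (hPl n) (norm_nonneg _))
  exact tendsto_nhds_unique hfx hfx2

end Pool.Agent.Helper37.Sg
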