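import Mathlib
import Pool.Agent.Lib_helper37.SgLimit

/-!
Translation continuity, inversion symmetry and small symmetric absolutely continuous measures.
-/

open MeasureTheory Filter Topology
open scoped ENNReal NNReal

set_option linter.unusedSectionVars false

namespace Pool.Agent.Helper37.Sg

variable {H : Type*} [TopologicalSpace H] [Group H] [IsTopologicalGroup H]
  [LocallyCompactSpace H] [SecondCountableTopology H] [T2Space H] [MeasurableSpace H]
  [BorelSpace H]

/-- Continuity of left translations in total variation. -/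
lemma exists_nhds_transl (m : Measure H) [m.IsHaarMeasure] (σ : Measure H)
    [IsFiniteMeasure σ] (hσ : σ ≪ m) {ε : ℝ} (hε : 0 < ε) :
    ∃ U ∈ 𝓝 (1 : H), ∀ y ∈ U, ∀ f : Bd H,
      |∫ z, fn f (y * z) ∂σ - ∫ z, fn f z ∂σ| ≤ ε * ‖f‖ := by
  have hs := integrable_dens σ m
  set s := dens σ m with hsdef
  have hmem : MemLp s 1 m := memLp_one_iff_integrable.mpr hs
  let p : Lp ℝ 1 m := hmem.toLp s
  have hfact : Fact ((1 : ℝ≥0∞) ≠ ∞) := ⟨ENNReal.one_ne_top⟩
  have hcont : Continuous (fun y : H => DomMulAct.mk y⁻¹ • p) := by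
    have h1 : Continuous (fun y : H => (DomMulAct.mk y⁻¹ : Hᵈᵐᵃ)) :=
      DomMulAct.continuous_mk.comp continuous_inv
    exact h1.smul continuous_const
  have h1 := hcont.tendsto 1
  rw [Metric.tendsto_nhds] at h1
  have h2 := h1 ε hε
  refine ⟨_, h2, fun y hy f => ?_⟩
  have hy' : ‖DomMulAct.mk y⁻¹ • p - p‖ ≤ ε := by
    have : dist (DomMulAct.mk y⁻¹ • p) (DomMulAct.mk (1 : H)⁻¹ • p) < ε := hy
    rw [inv_one, DomMulAct.mk_one, one_smul, dist_eq_norm] at this
    exact this.le
  have hst : Integrable (fun z => s (y⁻¹ * z)) m := hs.comp_mul_left y⁻¹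
  have hnorm : ∫ z, |s (y⁻¹ * z) - s z| ∂m = ‖DomMulAct.mk y⁻¹ • p - p‖ := by
    rw [L1.norm_eq_integral_norm]
    refine integral_congr_ae ?_
    have h3 : DomMulAct.mk y⁻¹ • p
        = (hmem.comp_measurePreserving (measurePreserving_smul y⁻¹ m)).toLp
          (s <| y⁻¹ • ·) := DomMulAct.mk_smul_toLp y⁻¹ hmem
    filter_upwards [Lp.coeFn_sub (DomMulAct.mk y⁻¹ • p) p, hmem.coeFn_toLp,
      (hmem.comp_measurePreserving (measurePreserving_smul y⁻¹ m)).coeFn_toLp] with z h4 h5 h6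
    rw [h4, Pi.sub_apply, h5, h3]
    erw [h6]
    rfl
  have e1 : ∫ z, fn f (y * z) ∂σ = ∫ z, s (y⁻¹ * z) * fn f z ∂m := by
    rw [← integral_dens σ m hσ]
    have := integral_mul_left_eq_self (μ := m) (fun z => s (y⁻¹ * z) * fn f z) y
    rw [← this]
    simp
    rfl
  rw [e1, ← integral_dens σ m hσ]
  refine (abs_integral_mul_fn_sub_le hst hs f).trans ?_
  rw [hnorm]
  exact mul_le_mul_of_nonneg_right hy' (norm_nonneg _)

/-- Averaging the previous estimate. -/
lemma norm_mul_sub_le {T S : Op H} {ρ σ : Measure H} (hT : Rep T ρ) (hS : Rep S σ)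
    [IsProbabilityMeasure ρ] {U : Set H} (hU : ∀ᵐ y ∂ρ, y ∈ U) {ε : ℝ} (hε : 0 ≤ ε)
    (h : ∀ y ∈ U, ∀ f : Bd H, |∫ z, fn f (y * z) ∂σ - ∫ z, fn f z ∂σ| ≤ ε * ‖f‖) :
    ‖T * S - S‖ ≤ ε := by
  have := hS.fin
  refine (hT.mul hS).norm_sub_le hS hε (fun f => ?_)
  rw [integral_mconv (integrable_fn f _)]
  have e : ∫ z, fn f z ∂σ = ∫ _y, (∫ z, fn f z ∂σ) ∂ρ := by simp
  rw [e]
  have hmeas : StronglyMeasurable (fun y : H => ∫ z, fn f (y * z) ∂σ) := by
    have h1 : StronglyMeasurable (fun p : H × H => fn f (p.1 * p.2)) :=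
      ((measurable_fn f).comp measurable_mul).stronglyMeasurable
    exact h1.integral_prod_right
  have hint : Integrable (fun y : H => ∫ z, fn f (y * z) ∂σ) ρ := by
    refine Integrable.of_bound hmeas.aestronglyMeasurable (‖f‖ * σ.real Set.univ)
      (Eventually.of_forall (fun y => ?_))
    exact norm_integral_le_of_norm_le_const
      (Eventually.of_forall (fun z => by simpa using abs_fn_le f (y * z)))
  rw [← integral_sub hint (integrable_const _)]
  have := norm_integral_le_of_norm_le_const (μ := ρ)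
    (f := fun y => ∫ z, fn f (y * z) ∂σ - ∫ z, fn f z ∂σ) (C := ε * ‖f‖)
    (by filter_upwards [hU] with y hy using by simpa using h y hy f)
  simpa using this

lemma inv_mconv (σ τ : Measure H) [SFinite σ] [SFinite τ] :
    (Measure.mconv σ τ).inv = Measure.mconv τ.inv σ.inv := by
  unfold Measure.mconv Measure.inv
  rw [Measure.map_map measurable_inv measurable_mul]
  rw [Measure.map_prod_map _ _ measurable_inv measurable_inv]
  rw [Measure.map_map measurable_mul (measurable_inv.prodMap measurable_inv)]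
  rw [← Measure.prod_swap, Measure.map_map (by fun_prop) measurable_swap]
  congr 1
  funext p
  simp

/-- Inversion of functions. -/
noncomputable def invf (f : Bd H) : Bd H :=
  mkBM (fun y => fn f y⁻¹) ((measurable_fn f).comp measurable_inv)
    ⟨‖f‖, fun y => abs_fn_le f _⟩

lemma fn_invf (f : Bd H) (y : H) : fn (invf f) y = fn f y⁻¹ := rfl

lemma norm_invf_le (f : Bd H) : ‖invf f‖ ≤ ‖f‖ :=
  norm_le_of (norm_nonneg _) (fun y => by rw [fn_invf]; exact abs_fn_le f _)

lemma integral_inv_fn (σ : Measure H) (f : Bd H) :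
    ∫ x, fn f x ∂σ.inv = ∫ x, fn (invf f) x ∂σ := by
  unfold Measure.inv
  rw [integral_map measurable_inv.aemeasurable (measurable_fn f).aestronglyMeasurable]
  rfl

/-- For symmetric measures the two one-sided estimates agree. -/
lemma norm_mul_sub_le' {T S : Op H} {ρ σ : Measure H} (hT : Rep T ρ) (hS : Rep S σ)
    (hρ : ρ.inv = ρ) (hσ : σ.inv = σ) : ‖S * T - S‖ ≤ ‖T * S - S‖ := by
  have := hS.fin
  have := hT.fin
  refine (hS.mul hT).norm_sub_le hS (norm_nonneg _) (fun f => ?_)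
  have h1 : ∫ y, fn f y ∂(Measure.mconv σ ρ) = ∫ y, fn (invf f) y ∂(Measure.mconv ρ σ) := by
    rw [← integral_inv_fn, inv_mconv, hρ, hσ]
  have h2 : ∫ y, fn f y ∂σ = ∫ y, fn (invf f) y ∂σ := by
    rw [← integral_inv_fn, hσ]
  rw [h1, h2]
  exact ((hT.mul hS).abs_integral_sub_le hS (invf f)).trans
    (mul_le_mul_of_nonneg_left (norm_invf_le f) (norm_nonneg _))

lemma inv_add (σ τ : Measure H) : (σ + τ).inv = σ.inv + τ.inv := by
  unfold Measure.inv
  exact Measure.map_add _ _ measurable_inv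

lemma inv_smul (c : ℝ≥0∞) (σ : Measure H) : (c • σ).inv = c • σ.inv := by
  unfold Measure.inv
  exact Measure.map_smul ..

/-- Small symmetric absolutely continuous probability measures. -/
lemma exists_small (m : Measure H) [m.IsHaarMeasure] {U : Set H} (hU : U ∈ 𝓝 (1 : H)) :
    ∃ ρ : Measure H, IsProbabilityMeasure ρ ∧ ρ ≪ m ∧ ρ.inv = ρ ∧ ∀ᵐ y ∂ρ, y ∈ U := by
  obtain ⟨K, hK, hKU⟩ := LocallyCompactSpace.local_compact_nhds (1 : H) U hU
  obtain ⟨V, hVK, hVo, hV1⟩ := mem_nhds_iff.mp hK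
  set W : Set H := V ∩ V⁻¹ with hW
  have hWo : IsOpen W := hVo.inter hVo.inv
  have hW1 : (1 : H) ∈ W := ⟨hV1, by simpa using hV1⟩
  have hWK : W ⊆ K := fun x hx => hVK hx.1
  have hWinv : ∀ x, x⁻¹ ∈ W ↔ x ∈ W := by
    intro x
    simp only [hW, Set.mem_inter_iff, Set.mem_inv, inv_inv]
    tauto
  have hmW0 : m W ≠ 0 := hWo.measure_ne_zero m ⟨1, hW1⟩
  have hmWt : m W ≠ ∞ := ((measure_mono hWK).trans_lt hKU.2.measure_lt_top).ne
  set τ : Measure H := m.restrict W with hτ
  have hτfin : IsFiniteMeasure τ := ⟨by simpa [hτ] using hmWt.lt_top⟩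
  set κ : Measure H := τ + τ.inv with hκ
  have hinvfin : IsFiniteMeasure τ.inv := by
    unfold Measure.inv
    infer_instance
  have hκfin : IsFiniteMeasure κ := by rw [hκ]; infer_instance
  have hτac : τ ≪ m := Measure.absolutelyContinuous_of_le Measure.restrict_le_self
  have hτiac : τ.inv ≪ m := by
    have h1 : τ.inv ≪ m.inv := by
      unfold Measure.inv
      exact hτac.map measurable_inv
    exact h1.trans (inv_absolutelyContinuous m)
  have hκac : κ ≪ m := by
    rw [hκ]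
    exact hτac.add_left hτiac
  have hκ0 : κ Set.univ ≠ 0 := by
    intro h
    apply hmW0
    have : τ Set.univ = 0 := by
      have h2 : τ Set.univ + τ.inv Set.univ = 0 := by simpa [hκ] using h
      exact (add_eq_zero.mp h2).1
    simpa [hτ] using this
  have hκt : κ Set.univ ≠ ∞ := measure_ne_top _ _
  have hτW : ∀ᵐ y ∂τ, y ∈ W := by
    rw [hτ]
    exact ae_restrict_mem hWo.measurableSet
  have hτiW : ∀ᵐ y ∂τ.inv, y ∈ W := by
    have hm : MeasurableSet {y | y ∈ W} := hWo.measurableSet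
    unfold Measure.inv
    rw [ae_map_iff measurable_inv.aemeasurable hm]
    filter_upwards [hτW] with y hy using (hWinv y).mpr hy
  refine ⟨(κ Set.univ)⁻¹ • κ, ⟨?_⟩, ?_, ?_, ?_⟩
  · simp only [Measure.smul_apply, smul_eq_mul]
    exact ENNReal.inv_mul_cancel hκ0 hκt
  · exact hκac.smul_left _
  · rw [inv_smul]
    congr 1
    rw [hκ, inv_add, Measure.inv_inv, add_comm]
  · refine Measure.ae_smul_measure ?_ _
    rw [hκ, ae_add_measure_iff]
    exact ⟨hτW.mono (fun y hy => hKU.1 (hWK hy)), hτiW.mono (fun y hy => hKU.1 (hWK hy))⟩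

/-- Uniform continuity of compactly supported functions under right translation. -/
lemma exists_nhds_unif (φ : H → ℝ) (hφ : Continuous φ) (hc : HasCompactSupport φ) {ε : ℝ}
    (hε : 0 < ε) : ∃ U ∈ 𝓝 (1 : H), ∀ y ∈ U, ∀ x, |φ (x * y) - φ x| ≤ ε := by
  let _ : UniformSpace H := IsTopologicalGroup.leftUniformSpace H
  have h1 : UniformContinuous φ := hc.uniformContinuous_of_continuous hφ
  have h2 := h1 (Metric.dist_mem_uniformity hε)
  rw [mem_map, uniformity_eq_comap_nhds_one_left, mem_comap] at h2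
  obtain ⟨U, hU, hUs⟩ := h2
  refine ⟨U, hU, fun y hy x => ?_⟩
  have h3 : (x, x * y) ∈ (fun p : H × H => p.1⁻¹ * p.2) ⁻¹' U := by simpa using hy
  have h4 := hUs h3
  have h5 : dist (φ x) (φ (x * y)) < ε := h4
  rw [dist_comm, Real.dist_eq] at h5
  exact h5.le

end Pool.Agent.Helper37.Sg
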