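import Mathlib
import Pool.Agent.Lib_helper37.SgExp
import Pool.Agent.Lib_helper37.SgTop

/-!
Construction of the absolutely continuous convolution semigroup.
-/

open MeasureTheory Filter Topology NormedSpace
open scoped ENNReal NNReal Nat

set_option linter.unusedSectionVars false

namespace Pool.Agent.Helper37.Sg

variable {H : Type*} [TopologicalSpace H] [Group H] [IsTopologicalGroup H]
  [LocallyCompactSpace H] [SecondCountableTopology H] [T2Space H] [MeasurableSpace H]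
  [BorelSpace H]

section AC

variable (m : Measure H)

/-- Operators given by finite absolutely continuous measures. -/
def AC (T : Op H) : Prop := ∃ σ, Rep T σ ∧ σ ≪ m

variable {m}

lemma AC.add {T S : Op H} (hT : AC m T) (hS : AC m S) : AC m (T + S) := by
  obtain ⟨σ, h1, h2⟩ := hT
  obtain ⟨τ, h3, h4⟩ := hS
  exact ⟨σ + τ, h1.add h3, h2.add_left h4⟩

lemma AC.smul {T : Op H} (hT : AC m T) {c : ℝ} (hc : 0 ≤ c) : AC m (c • T) := by
  obtain ⟨σ, h1, h2⟩ := hT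
  lift c to ℝ≥0 using hc
  exact ⟨c • σ, h1.smul c, h2.smul_left _⟩

lemma AC.mul [m.IsMulLeftInvariant] {T S : Op H} (hT : AC m T) (hS : AC m S) :
    AC m (T * S) := by
  obtain ⟨σ, h1, h2⟩ := hT
  obtain ⟨τ, h3, h4⟩ := hS
  have := h3.fin
  exact ⟨_, h1.mul h3, Measure.mconv_absolutelyContinuous h4⟩

lemma AC.zero : AC m (0 : Op H) := ⟨0, rep_zero, Measure.AbsolutelyContinuous.zero m⟩

lemma AC.pow [m.IsMulLeftInvariant] {T : Op H} (hT : AC m T) (n : ℕ) : AC m (T ^ (n + 1)) := by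
  induction n with
  | zero => simpa using hT
  | succ n ih => rw [pow_succ]; exact ih.mul hT

lemma AC.limit [SigmaFinite m] {T : ℕ → Op H} {S : Op H} (hT : ∀ n, AC m (T n))
    (hS : Tendsto T atTop (𝓝 S)) : AC m S := rep_limit m hT hS

lemma AC.exp_sub_one [SigmaFinite m] [m.IsMulLeftInvariant] {S : Op H} (hS : AC m S) {t : ℝ}
    (ht : 0 ≤ t) : AC m (exp (t • S) - 1) := by
  have h := hasSum_exp (t • S)
  have h1 : HasSum (fun n : ℕ => (((n + 1)! : ℝ)⁻¹) • (t • S) ^ (n + 1)) (exp (t • S) - 1) := by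
    have := (hasSum_nat_add_iff' (f := fun n : ℕ => ((n ! : ℝ)⁻¹) • (t • S) ^ n) 1).mpr h
    simpa using this
  refine AC.limit (fun N => ?_) h1.tendsto_sum_nat
  induction N with
  | zero => simpa using AC.zero
  | succ N ih =>
    rw [Finset.sum_range_succ]
    exact ih.add (((hS.smul ht).pow N).smul (by positivity))

end AC

/-- Symmetric absolutely continuous operators. -/
def Good (m : Measure H) (S : Op H) : Prop := ∃ α, Rep S α ∧ α ≪ m ∧ α.inv = α

/-- Operators given by symmetric absolutely continuous probability measures. -/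
def GoodP (m : Measure H) (S : Op H) : Prop :=
  ∃ α, Rep S α ∧ IsProbabilityMeasure α ∧ α ≪ m ∧ α.inv = α

lemma GoodP.good {m : Measure H} {S : Op H} (h : GoodP m S) : Good m S := by
  obtain ⟨α, h1, _, h3, h4⟩ := h
  exact ⟨α, h1, h3, h4⟩

lemma Good.zero (m : Measure H) : Good m (0 : Op H) :=
  ⟨0, rep_zero, Measure.AbsolutelyContinuous.zero m, by simp [Measure.inv]⟩

lemma Good.add {m : Measure H} {S T : Op H} (hS : Good m S) (hT : Good m T) :
    Good m (S + T) := by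
  obtain ⟨α, h1, h2, h3⟩ := hS
  obtain ⟨β, g1, g2, g3⟩ := hT
  exact ⟨α + β, h1.add g1, h2.add_left g2, by rw [inv_add, h3, g3]⟩

lemma Good.ac {m : Measure H} {S : Op H} (h : Good m S) : AC m S := by
  obtain ⟨α, h1, h2, _⟩ := h
  exact ⟨α, h1, h2⟩

lemma GoodP.norm_le {m : Measure H} {S : Op H} (h : GoodP m S) : ‖S‖ ≤ 1 := by
  obtain ⟨α, h1, h2, _⟩ := h
  simpa using h1.norm_le

/-- The constant function one. -/
noncomputable def one' : Bd H := ind Set.univ MeasurableSet.univ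

lemma fn_one' (x : H) : fn (one' : Bd H) x = 1 := by simp [one', fn_ind]

lemma GoodP.map_one {m : Measure H} {S : Op H} (h : GoodP m S) : S one' = one' := by
  obtain ⟨α, h1, h2, _⟩ := h
  apply fn_ext
  intro x
  rw [h1.eq]
  simp [fn_one']

lemma norm_apply_sub_le {T : Op H} {ρ : Measure H} (hT : Rep T ρ) [IsProbabilityMeasure ρ]
    {U : Set H} (hU : ∀ᵐ y ∂ρ, y ∈ U) {ε : ℝ} (hε : 0 ≤ ε) {Φ : Bd H}
    (h : ∀ y ∈ U, ∀ x, |fn Φ (x * y) - fn Φ x| ≤ ε) : ‖T Φ - Φ‖ ≤ ε := by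
  refine norm_le_of hε (fun x => ?_)
  rw [fn_sub, hT.eq]
  have e : fn Φ x = ∫ _y, fn Φ x ∂ρ := by simp
  have e2 : ∫ y, fn Φ (x * y) ∂ρ - fn Φ x = ∫ y, (fn Φ (x * y) - fn Φ x) ∂ρ := by
    have h1 : Integrable (fun y => fn Φ (x * y)) ρ := integrable_fn (ltr x Φ) ρ
    rw [integral_sub h1 (integrable_const _)]
    simp
  rw [e2]
  have := norm_integral_le_of_norm_le_const (μ := ρ)
    (f := fun y => fn Φ (x * y) - fn Φ x) (C := ε)
    (by filter_upwards [hU] with y hy using by simpa using h y hy x)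
  simpa using this

/-- One step of the recursive choice. -/
lemma exists_step (m : Measure H) [m.IsHaarMeasure] (Φ : ℕ → Bd H)
    (hΦ : ∀ j, ∀ ε : ℝ, 0 < ε → ∃ U ∈ 𝓝 (1 : H), ∀ y ∈ U, ∀ x,
      |fn (Φ j) (x * y) - fn (Φ j) x| ≤ ε) (S : Op H) (hS : Good m S) (k : ℕ) :
    ∃ T : Op H, GoodP m T ∧ ‖(T - 1) * S‖ ≤ ((k ! : ℕ) : ℝ)⁻¹ ∧
      ‖S * (T - 1)‖ ≤ ((k ! : ℕ) : ℝ)⁻¹ ∧ ∀ j ≤ k, ‖T (Φ j) - Φ j‖ ≤ (1 / 2 : ℝ) ^ k := by
  obtain ⟨α, h1, h2, h3⟩ := hS
  have := h1.fin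
  have hk : (0 : ℝ) < ((k ! : ℕ) : ℝ)⁻¹ := by positivity
  obtain ⟨U, hU, hUe⟩ := exists_nhds_transl m α h2 hk
  have hV : ∀ j, ∃ V ∈ 𝓝 (1 : H), ∀ y ∈ V, ∀ x,
      |fn (Φ j) (x * y) - fn (Φ j) x| ≤ (1 / 2 : ℝ) ^ k := fun j => hΦ j _ (by positivity)
  choose V hV hVe using hV
  have hW : U ∩ ⋂ j ∈ Finset.range (k + 1), V j ∈ 𝓝 (1 : H) := by
    refine inter_mem hU ?_
    rw [Filter.biInter_finset_mem]
    intro j _
    exact hV j
  obtain ⟨ρ, hρp, hρac, hρinv, hρW⟩ := exists_small m hW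
  obtain ⟨T, hT⟩ := exists_rep ρ
  have hl : ‖T * S - S‖ ≤ ((k ! : ℕ) : ℝ)⁻¹ :=
    norm_mul_sub_le hT h1 (hρW.mono (fun y hy => hy.1)) hk.le hUe
  refine ⟨T, ⟨ρ, hT, hρp, hρac, hρinv⟩, ?_, ?_, ?_⟩
  · rw [sub_mul, one_mul]
    exact hl
  · rw [mul_sub, mul_one]
    exact (norm_mul_sub_le' hT h1 hρinv h3).trans hl
  · intro j hj
    refine norm_apply_sub_le hT (U := V j) (hρW.mono (fun y hy => ?_)) (by positivity) (hVe j)
    have h5 := hy.2
    simp only [Set.mem_iInter] at h5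
    exact h5 j (Finset.mem_range.mpr (by omega))

/-- The recursive choice. -/
theorem exists_sequence (m : Measure H) [m.IsHaarMeasure] (Φ : ℕ → Bd H)
    (hΦ : ∀ j, ∀ ε : ℝ, 0 < ε → ∃ U ∈ 𝓝 (1 : H), ∀ y ∈ U, ∀ x,
      |fn (Φ j) (x * y) - fn (Φ j) x| ≤ ε) :
    ∃ a : ℕ → Op H, (∀ k, GoodP m (a k)) ∧ (∀ k, Good m (psum a k)) ∧
      (∀ k, ‖(a k - 1) * psum a k‖ ≤ ((k ! : ℕ) : ℝ)⁻¹) ∧
      (∀ k, ‖psum a k * (a k - 1)‖ ≤ ((k ! : ℕ) : ℝ)⁻¹) ∧
      (∀ k, ∀ j ≤ k, ‖a k (Φ j) - Φ j‖ ≤ (1 / 2 : ℝ) ^ k) := by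
  choose! step hstep using (fun (S : {S : Op H // Good m S}) (k : ℕ) =>
    exists_step m Φ hΦ S.1 S.2 k)
  let st : ℕ → {S : Op H // Good m S} := fun n =>
    Nat.rec ⟨0, Good.zero m⟩ (fun k S => ⟨S.1 + step S k, S.2.add (hstep S k).1.good⟩) n
  let a : ℕ → Op H := fun k => step (st k) k
  have hst : ∀ k, psum a k = (st k).1 := by
    intro k
    induction k with
    | zero => simp [psum, st]
    | succ k ih => rw [psum_succ, ih]
  refine ⟨a, fun k => (hstep (st k) k).1, fun k => ?_, fun k => ?_, fun k => ?_, fun k => ?_⟩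
  · rw [hst]; exact (st k).2
  · rw [hst]; exact (hstep (st k) k).2.1
  · rw [hst]; exact (hstep (st k) k).2.2.1
  · exact (hstep (st k) k).2.2.2

/-- Contraction semigroups move a vector slowly. -/
lemma norm_exp_apply_sub_le {G : Op H} (hG : ∀ s : ℝ, 0 ≤ s → ‖exp (s • G)‖ ≤ 1) (g : Bd H)
    {t : ℝ} (ht : 0 ≤ t) : ‖exp (t • G) g - g‖ ≤ ‖G g‖ * t := by
  have hd : ∀ s : ℝ, HasDerivAt (fun u : ℝ => exp (u • G) g) ((exp (s • G) * G) g) s := by
    intro s
    have h1 := hasDerivAt_exp_smul_const (𝕂 := ℝ) (𝔸 := Op H) G s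
    exact ((ContinuousLinearMap.apply ℝ (Bd H) g).hasFDerivAt).comp_hasDerivAt s h1
  have h2 := norm_image_sub_le_of_norm_deriv_le_segment' (a := 0) (b := t) (C := ‖G g‖)
    (f := fun u : ℝ => exp (u • G) g) (f' := fun s => (exp (s • G) * G) g)
    (fun x _ => (hd x).hasDerivWithinAt) (fun x hx => by
      rw [mul_apply_eq_comp]
      refine (ContinuousLinearMap.le_opNorm _ _).trans ?_
      exact mul_le_of_le_one_left (norm_nonneg _) (hG x hx.1)) t ⟨ht, le_refl t⟩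
  simpa [exp_zero] using h2

lemma gen_apply (a : ℕ → Op H) (K : ℕ) (g : Bd H) :
    gen a K g = ∑ k ∈ Finset.range K, (a k g - g) := by
  unfold gen psum
  rw [sub_apply, smul_apply, sum_apply, Finset.sum_sub_distrib]
  simp [Nat.cast_smul_eq_nsmul]

lemma norm_gen_apply_le {m : Measure H} {a : ℕ → Op H} (ha : ∀ k, GoodP m (a k)) {g : Bd H}
    {j : ℕ} (hg : ∀ k, j ≤ k → ‖a k g - g‖ ≤ (1 / 2 : ℝ) ^ k) (K : ℕ) :
    ‖gen a K g‖ ≤ j * (2 * ‖g‖) + 2 := by
  rw [gen_apply]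
  have h1 : ∀ k, ‖a k g - g‖ ≤ (if k ∈ Finset.range j then 2 * ‖g‖ else 0) + (1 / 2 : ℝ) ^ k := by
    intro k
    by_cases hk : k ∈ Finset.range j
    · rw [if_pos hk]
      have h2 : ‖a k g‖ ≤ ‖g‖ := by
        refine (ContinuousLinearMap.le_opNorm _ _).trans ?_
        exact mul_le_of_le_one_left (norm_nonneg _) (ha k).norm_le
      have h3 := norm_sub_le (a k g) g
      have h4 : (0 : ℝ) ≤ (1 / 2 : ℝ) ^ k := by positivity
      linarith
    · rw [if_neg hk, zero_add]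
      exact hg k (by simpa using hk)
  calc ‖∑ k ∈ Finset.range K, (a k g - g)‖ ≤ ∑ k ∈ Finset.range K, ‖a k g - g‖ :=
        norm_sum_le _ _
    _ ≤ ∑ k ∈ Finset.range K, ((if k ∈ Finset.range j then 2 * ‖g‖ else 0) + (1 / 2 : ℝ) ^ k) :=
        Finset.sum_le_sum (fun k _ => h1 k)
    _ = ∑ k ∈ Finset.range K, (if k ∈ Finset.range j then 2 * ‖g‖ else 0)
          + ∑ k ∈ Finset.range K, (1 / 2 : ℝ) ^ k := Finset.sum_add_distrib
    _ ≤ j * (2 * ‖g‖) + 2 := by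
        refine add_le_add ?_ ?_
        · rw [← Finset.sum_filter]
          rw [Finset.sum_const, nsmul_eq_mul]
          refine mul_le_mul_of_nonneg_right ?_ (by positivity)
          have : (Finset.filter (fun k => k ∈ Finset.range j) (Finset.range K)).card ≤ j := by
            calc _ ≤ (Finset.range j).card := Finset.card_le_card (fun x hx => by
                  simp only [Finset.mem_filter] at hx; exact hx.2)
              _ = j := Finset.card_range j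
          exact_mod_cast this
        · have h5 : Summable (fun n : ℕ => (1 / 2 : ℝ) ^ n) := summable_geometric_two
          calc ∑ k ∈ Finset.range K, (1 / 2 : ℝ) ^ k ≤ ∑' k : ℕ, (1 / 2 : ℝ) ^ k :=
                h5.sum_le_tsum _ (fun _ _ => by positivity)
            _ = 2 := tsum_geometric_two

end Pool.Agent.Helper37.Sg
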