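import Mathlib
import Pool.Agent.Lib_helper37.SgBuild

/-!
The absolutely continuous convolution semigroup: final assembly.
-/

open MeasureTheory Filter Topology NormedSpace
open scoped ENNReal NNReal

set_option linter.unusedSectionVars false

namespace Pool.Agent.Helper37.Sg

variable {H : Type*} [TopologicalSpace H] [Group H] [IsTopologicalGroup H]
  [LocallyCompactSpace H] [SecondCountableTopology H] [T2Space H] [MeasurableSpace H]
  [BorelSpace H]

lemma exists_bumps : ∃ (U : ℕ → Set H) (Φ : ℕ → Bd H),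
    (𝓝 (1 : H)).HasAntitoneBasis U ∧
    (∀ j, fn (Φ j) 1 = 1) ∧ (∀ j x, x ∉ U j → fn (Φ j) x = 0) ∧
    (∀ j x, 0 ≤ fn (Φ j) x) ∧ (∀ j x, fn (Φ j) x ≤ 1) ∧
    (∀ j, ∀ ε : ℝ, 0 < ε → ∃ V ∈ 𝓝 (1 : H), ∀ y ∈ V, ∀ x,
      |fn (Φ j) (x * y) - fn (Φ j) x| ≤ ε) := by
  obtain ⟨U, hU⟩ := (𝓝 (1 : H)).exists_antitone_basis
  have hex : ∀ j, ∃ f : C(H, ℝ), Set.EqOn f 1 {(1 : H)} ∧ Set.EqOn f 0 (interior (U j))ᶜ ∧
      HasCompactSupport f ∧ ∀ x, f x ∈ Set.Icc (0 : ℝ) 1 := by
    intro j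
    refine exists_continuous_one_zero_of_isCompact isCompact_singleton
      isOpen_interior.isClosed_compl ?_
    rw [Set.disjoint_singleton_left]
    intro h
    exact h (mem_interior_iff_mem_nhds.mpr (hU.mem j))
  choose f hf1 hf0 hfc hf01 using hex
  refine ⟨U, fun j => mkBM (f j) (f j).continuous.measurable ⟨1, fun x => ?_⟩, hU, ?_, ?_, ?_,
    ?_, ?_⟩
  · rw [abs_of_nonneg (hf01 j x).1]
    exact (hf01 j x).2
  · intro j
    rw [fn_mkBM]
    exact hf1 j rfl
  · intro j x hx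
    rw [fn_mkBM]
    exact hf0 j (fun h => hx (interior_subset h))
  · intro j x
    rw [fn_mkBM]
    exact (hf01 j x).1
  · intro j x
    rw [fn_mkBM]
    exact (hf01 j x).2
  · intro j ε hε
    simp only [fn_mkBM]
    exact exists_nhds_unif (f j) (f j).continuous (hfc j) hε

theorem exists_semigroup (m : Measure H) [m.IsHaarMeasure] :
    ∃ μ : ℝ≥0 → Measure H, (∀ t, IsProbabilityMeasure (μ t)) ∧ μ 0 = Measure.dirac 1 ∧
      (∀ s t, μ (s + t) = Measure.mconv (μ s) (μ t)) ∧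
      (∀ U ∈ 𝓝 (1 : H), ∃ C : ℝ, ∀ t, (μ t).real Uᶜ ≤ C * t) ∧
      ∀ t, 0 < t → μ t ≪ m := by
  obtain ⟨U, Φ, hU, hΦ1, hΦ0, hΦnn, hΦle, hΦu⟩ := exists_bumps (H := H)
  obtain ⟨a, haP, haS, h2, h1, hΦa⟩ := exists_sequence m Φ hΦu
  have hn : ∀ k, ‖a k‖ ≤ 1 := fun k => (haP k).norm_le
  have hlim : ∀ t : ℝ≥0, ∃ T : Op H, Tendsto (fun K => exp ((t : ℝ) • gen a K)) atTop (𝓝 T) :=
    fun t => exists_limit a hn h1 h2 (fun _ => le_rfl) t.2
  choose T hT using hlim
  have hT0 : T 0 = 1 := by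
    refine tendsto_nhds_unique (hT 0) ?_
    simp [exp_zero]
  have hTadd : ∀ s t, T (s + t) = T s * T t := by
    intro s t
    refine tendsto_nhds_unique (hT (s + t)) (((hT s).mul (hT t)).congr (fun K => ?_))
    rw [← exp_add_comm' (((Commute.refl (gen a K)).smul_left _).smul_right _), ← add_smul]
    rfl
  have hAC : ∀ t : ℝ≥0, 0 < t → AC m (T t) := by
    intro t ht
    have ht' : (0 : ℝ) < t := ht
    have h3 : ∀ K : ℕ, AC m (exp ((t : ℝ) • gen a K) - Real.exp (-((t : ℝ) * K)) • (1 : Op H)) := by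
      intro K
      rw [smul_gen, exp_sub_smul_one, ← smul_sub]
      exact (((haS K).ac).exp_sub_one t.2).smul (Real.exp_pos _).le
    refine AC.limit h3 ?_
    have h4 : Tendsto (fun K : ℕ => Real.exp (-((t : ℝ) * K)) • (1 : Op H)) atTop (𝓝 0) := by
      have h5 : Tendsto (fun K : ℕ => (t : ℝ) * K) atTop atTop :=
        tendsto_natCast_atTop_atTop.const_mul_atTop ht'
      have h6 := (Real.tendsto_exp_neg_atTop_nhds_zero.comp h5).smul_const (1 : Op H)
      simpa using h6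
    simpa using (hT t).sub h4
  have hone : ∀ t, T t one' = one' := by
    intro t
    have h3 : ∀ K, exp ((t : ℝ) • gen a K) one' = one' := by
      intro K
      have h4 := norm_exp_apply_sub_le (G := gen a K)
        (fun s hs => norm_exp_gen_le a hn hs K) one' t.2
      have h5 : gen a K one' = 0 := by
        rw [gen_apply]
        refine Finset.sum_eq_zero (fun k _ => ?_)
        rw [(haP k).map_one, sub_self]
      rw [h5, norm_zero, zero_mul] at h4
      exact sub_eq_zero.mp (norm_le_zero_iff.mp h4)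
    have h6 : Tendsto (fun K => exp ((t : ℝ) • gen a K) one') atTop (𝓝 (T t one')) :=
      ((ContinuousLinearMap.apply ℝ (Bd H) one').continuous.tendsto _).comp (hT t)
    simp only [h3] at h6
    exact tendsto_nhds_unique h6 tendsto_const_nhds
  have hrep : ∀ t : ℝ≥0, ∃ μ, Rep (T t) μ ∧ (0 < t → μ ≪ m) := by
    intro t
    rcases (zero_le : 0 ≤ t).eq_or_lt with h | h
    · subst h
      exact ⟨Measure.dirac 1, by rw [hT0]; exact rep_one, fun h => absurd h (lt_irrefl _)⟩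
    · obtain ⟨μ, h3, h4⟩ := hAC t h
      exact ⟨μ, h3, fun _ => h4⟩
  choose μ hμ hμac using hrep
  have hfin : ∀ t, IsFiniteMeasure (μ t) := fun t => (hμ t).fin
  have hprob : ∀ t, IsProbabilityMeasure (μ t) := by
    intro t
    have h3 := (hμ t).eq_one one'
    rw [hone, fn_one'] at h3
    simp only [fn_one'] at h3
    rw [integral_const, smul_eq_mul, mul_one] at h3
    refine ⟨?_⟩
    rw [measureReal_def] at h3
    exact (ENNReal.toReal_eq_one_iff _).mp h3.symm
  refine ⟨μ, hprob, ?_, ?_, ?_, hμac⟩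
  · have h3 := hμ 0
    rw [hT0] at h3
    exact h3.inj rep_one
  · intro s t
    have h3 := hμ (s + t)
    rw [hTadd] at h3
    exact h3.inj ((hμ s).mul (hμ t))
  · intro V hV
    obtain ⟨j, -, hj⟩ := hU.1.mem_iff.mp hV
    refine ⟨j * (2 * ‖Φ j‖) + 2, fun t => ?_⟩
    have h3 : ‖T t (Φ j) - Φ j‖ ≤ (j * (2 * ‖Φ j‖) + 2) * t := by
      have h4 : ∀ K, ‖exp ((t : ℝ) • gen a K) (Φ j) - Φ j‖ ≤ (j * (2 * ‖Φ j‖) + 2) * t := by
        intro K
        refine (norm_exp_apply_sub_le (fun s hs => norm_exp_gen_le a hn hs K) (Φ j) t.2).trans ?_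
        exact mul_le_mul_of_nonneg_right
          (norm_gen_apply_le haP (fun k hk => hΦa k j hk) K) t.2
      have h6 : Tendsto (fun K => exp ((t : ℝ) • gen a K) (Φ j)) atTop (𝓝 (T t (Φ j))) :=
        ((ContinuousLinearMap.apply ℝ (Bd H) (Φ j)).continuous.tendsto _).comp (hT t)
      exact le_of_tendsto (h6.sub_const (Φ j)).norm (Eventually.of_forall h4)
    have h7 : (μ t).real Vᶜ ≤ 1 - ∫ x, fn (Φ j) x ∂(μ t) := by
      have h8 : (1 : ℝ) - ∫ x, fn (Φ j) x ∂(μ t) = ∫ x, (1 - fn (Φ j) x) ∂(μ t) := by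
        rw [integral_sub (integrable_const _) (integrable_fn (Φ j) _)]
        simp
      rw [h8]
      have h9 := mul_meas_ge_le_integral_of_nonneg (μ := μ t) (f := fun x => 1 - fn (Φ j) x)
        (Eventually.of_forall (fun x => by
          show (0 : ℝ) ≤ 1 - fn (Φ j) x
          linarith [hΦle j x])) ((integrable_const _).sub (integrable_fn (Φ j) _)) 1
      rw [one_mul] at h9
      refine le_trans (measureReal_mono (fun x hx => ?_)) h9
      show (1 : ℝ) ≤ 1 - fn (Φ j) x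
      rw [hΦ0 j x (fun h => hx (hj h))]
      simp
    have h10 : 1 - ∫ x, fn (Φ j) x ∂(μ t) ≤ ‖T t (Φ j) - Φ j‖ := by
      rw [← (hμ t).eq_one (Φ j), ← hΦ1 j, ← neg_sub, ← fn_sub]
      exact (neg_le_abs _).trans (abs_fn_le _ _)
    linarith

end Pool.Agent.Helper37.Sg
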