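import Pool.Agent.Lib_helper37.SquierU

/-!
# The piecewise linear representation of the universal group
-/

namespace Pool.Agent.DiagramGroups

/-- The map which is the identity up to `k`, maps `[k, k + m]` affinely onto `[k, k + n]`, and is
the translation by `n - m` beyond. -/
def PL (k m n y : ℚ) : ℚ :=
  if y ≤ k then y else if y ≤ k + m then k + (y - k) * n / m else y + n - m

lemma PL_le {k m n y : ℚ} (h : y ≤ k) : PL k m n y = y := if_pos h

lemma PL_mid {k m n y : ℚ} (h : k < y) (h2 : y ≤ k + m) :
    PL k m n y = k + (y - k) * n / m := by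
  unfold PL
  rw [if_neg (not_le.2 h), if_pos h2]

lemma PL_ge {k m n y : ℚ} (hm : 0 < m) (h : k + m < y) : PL k m n y = y + n - m := by
  unfold PL
  rw [if_neg (by linarith), if_neg (by linarith)]

lemma PL_cases {k m : ℚ} (y : ℚ) : y ≤ k ∨ (k < y ∧ y ≤ k + m) ∨ k + m < y := by
  rcases le_or_gt y k with h | h
  · exact Or.inl h
  · rcases le_or_gt y (k + m) with h2 | h2
    · exact Or.inr (Or.inl ⟨h, h2⟩)
    · exact Or.inr (Or.inr h2)

lemma PL_inv {k m n : ℚ} (hm : 0 < m) (hn : 0 < n) (y : ℚ) : PL k n m (PL k m n y) = y := by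
  rcases PL_cases (k := k) (m := m) y with h | ⟨h1, h2⟩ | h
  · rw [PL_le h, PL_le h]
  · rw [PL_mid h1 h2, PL_mid]
    · field_simp
      ring
    · have : 0 < (y - k) * n / m := by
        apply div_pos (mul_pos (by linarith) hn) hm
      linarith
    · have : (y - k) * n / m ≤ n := by
        rw [div_le_iff₀ hm]
        nlinarith
      linarith
  · rw [PL_ge hm h, PL_ge hn (by linarith)]
    ring

/-- The bound used below: up to `k + m`, the map `PL k m n` stays below `k + n`. -/
lemma PL_le_iff {k m n b : ℚ} (hm : 0 < m) (hn : 0 < n) (hb : 0 ≤ b) (y : ℚ)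
    (h : y ≤ k + m + b) : PL k m n y ≤ k + n + b := by
  rcases PL_cases (k := k) (m := m) y with h1 | ⟨h1, h2⟩ | h1
  · rw [PL_le h1]; linarith
  · rw [PL_mid h1 h2]
    have : (y - k) * n / m ≤ n := by
      rw [div_le_iff₀ hm]
      nlinarith
    linarith
  · rw [PL_ge hm h1]; linarith

lemma PL_square {k m n b m' n' : ℚ} (hm : 0 < m) (hn : 0 < n) (hb : 0 ≤ b) (hm' : 0 < m')
    (hn' : 0 < n') (y : ℚ) :
    PL k m n (PL (k + m + b) m' n' y) = PL (k + n + b) m' n' (PL k m n y) := by
  rcases PL_cases (k := k + m + b) (m := m') y with h | ⟨h1, h2⟩ | h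
  · rw [PL_le h, PL_le (PL_le_iff hm hn hb y h)]
  · rw [PL_mid h1 h2]
    have h3 : 0 < (y - (k + m + b)) * n' / m' := div_pos (mul_pos (by linarith) hn') hm'
    rw [PL_ge hm (by linarith), PL_ge hm (by linarith), PL_mid (by linarith) (by linarith)]
    have : y + n - m - (k + n + b) = y - (k + m + b) := by ring
    rw [this]; ring
  · rw [PL_ge hm' h, PL_ge hm (by linarith), PL_ge hm (by linarith), PL_ge hm' (by linarith)]
    ring

/-- The map `PL` as a permutation. -/
def PLp (k m n : ℚ) (hm : 0 < m) (hn : 0 < n) : Equiv.Perm ℚ where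
  toFun := PL k m n
  invFun := PL k n m
  left_inv := PL_inv hm hn
  right_inv := PL_inv hn hm

variable {α : Type}

open Classical in
/-- The image of a generator. -/
noncomputable def valFun (a u v _b : List α) : Equiv.Perm ℚ :=
  if h : 0 < (v.length : ℚ) ∧ 0 < (u.length : ℚ) then
    PLp a.length v.length u.length h.1 h.2 else 1

lemma valFun_apply {a u v b : List α} (hu : u ≠ []) (hv : v ≠ []) (y : ℚ) :
    valFun a u v b y = PL a.length v.length u.length y := by
  have h : 0 < (v.length : ℚ) ∧ 0 < (u.length : ℚ) := by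
    constructor
    · exact_mod_cast List.length_pos_of_ne_nil hv
    · exact_mod_cast List.length_pos_of_ne_nil hu
  unfold valFun
  rw [dif_pos h]
  rfl

variable {P : SemigroupPresentation α}

lemma step_ne {u v : List α} (h : P.Step u v) : u ≠ [] ∧ v ≠ [] := by
  rcases h with h | h
  · exact ⟨P.fst_ne_nil _ h, P.snd_ne_nil _ h⟩
  · exact ⟨P.snd_ne_nil _ h, P.fst_ne_nil _ h⟩

/-- The piecewise linear representation: the class of an edge path from `x` to `y` acts by
the inverse of the piecewise linear map from `[0, |x|]` to `[0, |y|]` it defines. -/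
noncomputable def val (P : SemigroupPresentation α) : U P →* Equiv.Perm ℚ :=
  liftU valFun
    (by
      intro a u v b h
      obtain ⟨hu, hv⟩ := step_ne h
      ext y
      rw [Equiv.Perm.mul_apply, valFun_apply hu hv, valFun_apply hv hu, Equiv.Perm.one_apply]
      apply PL_inv
      · exact_mod_cast List.length_pos_of_ne_nil hu
      · exact_mod_cast List.length_pos_of_ne_nil hv)
    (by
      intro a u v b p q c h h'
      obtain ⟨hu, hv⟩ := step_ne h
      obtain ⟨hp, hq⟩ := step_ne h'
      ext y
      rw [Equiv.Perm.mul_apply, Equiv.Perm.mul_apply, valFun_apply hu hv, valFun_apply hp hq,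
        valFun_apply hp hq, valFun_apply hu hv]
      have := PL_square (k := a.length) (m := v.length) (n := u.length) (b := b.length)
        (m' := q.length) (n' := p.length)
        (by exact_mod_cast List.length_pos_of_ne_nil hv)
        (by exact_mod_cast List.length_pos_of_ne_nil hu) (by positivity)
        (by exact_mod_cast List.length_pos_of_ne_nil hq)
        (by exact_mod_cast List.length_pos_of_ne_nil hp) y
      simpa [List.length_append, Nat.cast_add, add_assoc] using this)

lemma val_E {a u v b : List α} (h : P.Step u v) (y : ℚ) :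
    val P (E P a u v b) y = PL a.length v.length u.length y := by
  obtain ⟨hu, hv⟩ := step_ne h
  unfold val
  rw [liftU_E, valFun_apply hu hv]

lemma val_E_inv {a u v b : List α} (h : P.Step u v) (y : ℚ) :
    val P (E P a u v b)⁻¹ y = PL a.length u.length v.length y := by
  rw [← E_symm h, val_E h.symm]

end Pool.Agent.DiagramGroups
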