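import Pool.Agent.Lib_helper37.WreathLevel
import Pool.Agent.Lib_helper37.PLRep

/-!
# The example: the iterated wreath product `(ℤ ≀ ℤ) ≀ ℤ` as a diagram group
-/

namespace Pool.Agent.DiagramGroups

/-- The relations of the example. -/
def exRel : Set (List (Fin 10) × List (Fin 10)) :=
  {([1], [1, 0, 3]), ([2], [0, 3, 2]), ([4], [4, 1, 2, 6]), ([5], [1, 2, 6, 5]),
    ([7], [7, 4, 5, 9]), ([8], [4, 5, 9, 8])}

/-- The presentation of the example. -/
def exP : SemigroupPresentation (Fin 10) where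
  rel := exRel
  fst_ne_nil := by
    rintro r hr
    simp only [exRel, Set.mem_insert_iff, Set.mem_singleton_iff] at hr
    rcases hr with rfl | rfl | rfl | rfl | rfl | rfl <;> simp
  snd_ne_nil := by
    rintro r hr
    simp only [exRel, Set.mem_insert_iff, Set.mem_singleton_iff] at hr
    rcases hr with rfl | rfl | rfl | rfl | rfl | rfl <;> simp

lemma exP_finite : exP.rel.Finite := by
  change exRel.Finite
  unfold exRel
  simp

lemma exStep_iff (u v : List (Fin 10)) : exP.Step u v ↔
    ((u, v) ∈ exRel ∨ (v, u) ∈ exRel) := Iff.rfl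

/-- Letters of level at most `k`. -/
def low0 (y : Fin 10) : Prop := y = 0

lemma ex_level0 : Level exP [0] low0 := by
  have key : ∀ u γ, IsWalk exP [0] u γ → u = [0] ∧ γ = 1 := by
    intro u γ h
    induction h with
    | nil => exact ⟨rfl, rfl⟩
    | @snoc a u v b g _ hs ih =>
      exfalso
      obtain ⟨h1, -⟩ := ih
      have hu : u = [0] := by
        obtain ⟨hne, -⟩ := step_ne hs
        obtain ⟨y, u', rfl⟩ := List.exists_cons_of_ne_nil hne
        cases a with
        | nil =>
          simp only [List.nil_append, List.cons_append, List.cons.injEq,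
            List.append_eq_nil_iff] at h1
          rw [h1.1, h1.2.1]
        | cons z a => simp at h1
      rw [exStep_iff] at hs
      subst hu
      simp [exRel] at hs
  have hbot : Dsub exP [0] = ⊥ := by
    rw [Subgroup.eq_bot_iff_forall]
    intro g hg
    exact (key _ _ hg).2
  refine ⟨?_, ?_, ?_, ?_⟩
  · intro u γ h y hy
    rw [(key u γ h).1] at hy
    simpa [low0] using hy
  · intro u γ h z hz
    rw [(key u γ h).1] at hz
    have := congrArg List.length hz
    simp only [List.length_cons, List.length_nil, List.length_append] at this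
    exact List.eq_nil_of_length_eq_zero (by omega)
  · rw [isSolvable_iff_der]
    exact ⟨0, hbot⟩
  · rw [hbot]
    exact Subgroup.FG.bot

/-- Letters of level at most 1. -/
def low1 (y : Fin 10) : Prop := low0 y ∨ y = 1 ∨ y = 2 ∨ y = 3

/-- Letters of level at most 2. -/
def low2 (y : Fin 10) : Prop := low1 y ∨ y = 4 ∨ y = 5 ∨ y = 6

instance : DecidablePred low0 := fun y => inferInstanceAs (Decidable (y = 0))
instance : DecidablePred low1 := fun y => inferInstanceAs (Decidable (low0 y ∨ _))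
instance : DecidablePred low2 := fun y => inferInstanceAs (Decidable (low1 y ∨ _))

lemma ex_classif0 : Classif exP 1 2 3 [0] low0 where
  hc := by decide
  hd := by decide
  hs := by decide
  hcd := by decide
  hcs := by decide
  hds := by decide
  hk := by rw [exStep_iff]; simp [exRel]
  hl := by rw [exStep_iff]; simp [exRel]
  cases := by
    intro u v h
    rw [exStep_iff] at h
    simp only [exRel, Set.mem_insert_iff, Set.mem_singleton_iff, Prod.mk.injEq] at h
    rcases h with (⟨rfl, rfl⟩ | ⟨rfl, rfl⟩ | ⟨rfl, rfl⟩ | ⟨rfl, rfl⟩ | ⟨rfl, rfl⟩ | ⟨rfl, rfl⟩) |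
      (⟨rfl, rfl⟩ | ⟨rfl, rfl⟩ | ⟨rfl, rfl⟩ | ⟨rfl, rfl⟩ | ⟨rfl, rfl⟩ | ⟨rfl, rfl⟩) <;> decide

lemma ex_classif1 : Classif exP 4 5 6 [1, 2] low1 where
  hc := by decide
  hd := by decide
  hs := by decide
  hcd := by decide
  hcs := by decide
  hds := by decide
  hk := by rw [exStep_iff]; simp [exRel]
  hl := by rw [exStep_iff]; simp [exRel]
  cases := by
    intro u v h
    rw [exStep_iff] at h
    simp only [exRel, Set.mem_insert_iff, Set.mem_singleton_iff, Prod.mk.injEq] at h
    rcases h with (⟨rfl, rfl⟩ | ⟨rfl, rfl⟩ | ⟨rfl, rfl⟩ | ⟨rfl, rfl⟩ | ⟨rfl, rfl⟩ | ⟨rfl, rfl⟩) |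
      (⟨rfl, rfl⟩ | ⟨rfl, rfl⟩ | ⟨rfl, rfl⟩ | ⟨rfl, rfl⟩ | ⟨rfl, rfl⟩ | ⟨rfl, rfl⟩) <;> decide

lemma ex_classif2 : Classif exP 7 8 9 [4, 5] low2 where
  hc := by decide
  hd := by decide
  hs := by decide
  hcd := by decide
  hcs := by decide
  hds := by decide
  hk := by rw [exStep_iff]; simp [exRel]
  hl := by rw [exStep_iff]; simp [exRel]
  cases := by
    intro u v h
    rw [exStep_iff] at h
    simp only [exRel, Set.mem_insert_iff, Set.mem_singleton_iff, Prod.mk.injEq] at h
    rcases h with (⟨rfl, rfl⟩ | ⟨rfl, rfl⟩ | ⟨rfl, rfl⟩ | ⟨rfl, rfl⟩ | ⟨rfl, rfl⟩ | ⟨rfl, rfl⟩) |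
      (⟨rfl, rfl⟩ | ⟨rfl, rfl⟩ | ⟨rfl, rfl⟩ | ⟨rfl, rfl⟩ | ⟨rfl, rfl⟩ | ⟨rfl, rfl⟩) <;> decide

lemma ex_level1 : Level exP [1, 2] low1 := level_step ex_level0 ex_classif0

lemma ex_level2 : Level exP [4, 5] low2 := level_step ex_level1 ex_classif1

lemma ex_solvable : Group.IsSolvable (Dsub exP [7, 8]) := (level_step ex_level2 ex_classif2).solv

lemma ex_fg : (Dsub exP [7, 8]).FG := (level_step ex_level2 ex_classif2).fg

/-- The diagram group of the example is solvable. -/
theorem ex_diagramGroup_solvable : Group.IsSolvable (DiagramGroup exP [7, 8]) := by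
  have hr : ∀ g, toU exP [7, 8] g ∈ Dsub exP [7, 8] := fun g => isWalk_toU g
  have := ex_solvable
  apply Group.isSolvable_of_isSolvable_injective
    (f := (toU exP [7, 8]).codRestrict (Dsub exP [7, 8]) hr)
  intro x y h
  apply toU_injective
  exact congrArg Subtype.val h

/-- The isomorphism of the diagram group with the corresponding subgroup of the universal
group. -/
noncomputable def dEquiv {α : Type} (P : SemigroupPresentation α) (w : List α) :
    DiagramGroup P w ≃* Dsub P w :=
  MulEquiv.ofBijective ((toU P w).codRestrict (Dsub P w) (fun g => isWalk_toU g)) (by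
    constructor
    · intro x y h
      apply toU_injective
      exact congrArg Subtype.val h
    · rintro ⟨g, hg⟩
      obtain ⟨g', hg'⟩ := exists_toU hg
      exact ⟨g', Subtype.ext hg'⟩)

/-- The diagram group of the example is finitely generated. -/
theorem ex_diagramGroup_fg : Group.FG (DiagramGroup exP [7, 8]) := by
  have h : Group.FG (Dsub exP [7, 8]) := (Group.fg_iff_subgroup_fg _).2 ex_fg
  exact Group.fg_of_surjective (f := (dEquiv exP [7, 8]).symm.toMonoidHom)
    (dEquiv exP [7, 8]).symm.surjective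

/-! ### Non commuting elements -/

/-- The stable letter of level 2. -/
def t2 : U exP := tt exP 4 5 6 [1, 2]

/-- The copy at level 2 of the stable letter of level 1. -/
def g1 : U exP := gg exP 4 5 6 [1, 2] 0 (tt exP 1 2 3 [0])

lemma t2_walk : IsWalk exP [4, 5] [4, 5] t2 := tt_walk ex_classif1.hk ex_classif1.hl

lemma g1_walk : IsWalk exP [4, 5] [4, 5] g1 :=
  gg_walk ex_classif1.hk (tt_walk ex_classif0.hk ex_classif0.hl)

/-- First element. -/
def ea : U exP := gg exP 7 8 9 [4, 5] 0 t2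

/-- Second element. -/
def eb : U exP := gg exP 7 8 9 [4, 5] 0 g1

/-- Stable letter. -/
def et : U exP := tt exP 7 8 9 [4, 5]

lemma ea_walk : IsWalk exP [7, 8] [7, 8] ea := gg_walk ex_classif2.hk t2_walk

lemma eb_walk : IsWalk exP [7, 8] [7, 8] eb := gg_walk ex_classif2.hk g1_walk

lemma et_walk : IsWalk exP [7, 8] [7, 8] et := tt_walk ex_classif2.hk ex_classif2.hl

lemma e_conj {γ γ' : U exP} (hγ : IsWalk exP [4, 5] [4, 5] γ)
    (hγ' : IsWalk exP [4, 5] [4, 5] γ') (k : ℕ) (hk : 1 ≤ k) :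
    (et ^ k)⁻¹ * gg exP 7 8 9 [4, 5] 0 γ * et ^ k * gg exP 7 8 9 [4, 5] 0 γ' =
      gg exP 7 8 9 [4, 5] 0 γ' * ((et ^ k)⁻¹ * gg exP 7 8 9 [4, 5] 0 γ * et ^ k) := by
  unfold et
  rw [← gg_eq_conj ex_classif2.hk ex_classif2.hl hγ]
  obtain ⟨k, rfl⟩ := Nat.exists_eq_add_of_lt hk
  rw [show 0 + k + 1 = k + 1 by omega]
  exact gg_comm ex_classif2.hk hγ hγ' k

lemma step1 : exP.Step [1] [1, 0, 3] := ex_classif0.hk
lemma step2 : exP.Step [2] [0, 3, 2] := ex_classif0.hl
lemma step4 : exP.Step [4] [4, 1, 2, 6] := ex_classif1.hk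
lemma step5 : exP.Step [5] [1, 2, 6, 5] := ex_classif1.hl
lemma step7 : exP.Step [7] [7, 4, 5, 9] := ex_classif2.hk
lemma step8 : exP.Step [8] [4, 5, 9, 8] := ex_classif2.hl

lemma ea_eb : ea * eb ≠ eb * ea := by
  intro h
  have h1 : W exP [7] [9, 8] t2 * W exP [7] [9, 8] g1 =
      W exP [7] [9, 8] g1 * W exP [7] [9, 8] t2 := by
    have e4 : ∀ x y z : U exP, (x * y * x⁻¹) * (x * z * x⁻¹) = x * (y * z) * x⁻¹ := by
      intro x y z; group
    unfold ea eb gg at h
    rw [e4, e4] at h
    exact mul_left_cancel (mul_right_cancel h)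
  simp only [t2, g1, tt, gg, kap, lam, KK, pw, List.nil_append, List.cons_append,
    one_mul] at h1
  simp only [← E_symm step1, ← E_symm step4] at h1
  simp only [map_mul, W_E, List.append_nil, List.nil_append, List.cons_append] at h1
  have h2 := congrArg (fun g => val exP g (11 / 8)) h1
  simp only [map_mul, Equiv.Perm.mul_apply, val_E step2,
    val_E step4, val_E step5, val_E step1.symm, val_E step4.symm] at h2
  norm_num [PL] at h2

/-- Elements of the diagram group with the properties used in the applications. -/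
theorem ex_elements : ∃ a b t : DiagramGroup exP [7, 8], a * b ≠ b * a ∧
    (∀ k : ℕ, 1 ≤ k → (t ^ k)⁻¹ * a * t ^ k * b = b * ((t ^ k)⁻¹ * a * t ^ k)) ∧
    (∀ k : ℕ, 1 ≤ k → (t ^ k)⁻¹ * b * t ^ k * a = a * ((t ^ k)⁻¹ * b * t ^ k)) := by
  obtain ⟨a, ha⟩ := exists_toU ea_walk
  obtain ⟨b, hb⟩ := exists_toU eb_walk
  obtain ⟨t, ht⟩ := exists_toU et_walk
  refine ⟨a, b, t, ?_, ?_, ?_⟩
  · intro h
    apply ea_eb
    rw [← ha, ← hb, ← map_mul, ← map_mul, h]
  · intro k hk
    apply toU_injective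
    simp only [map_mul, map_inv, map_pow, ha, hb, ht]
    exact e_conj t2_walk g1_walk k hk
  · intro k hk
    apply toU_injective
    simp only [map_mul, map_inv, map_pow, ha, hb, ht]
    exact e_conj g1_walk t2_walk k hk

end Pool.Agent.DiagramGroups
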