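import Pool.Agent.Lib_helper37.WreathStep
import Pool.Agent.Lib_helper37.PLRep

/-!
# Thompson's group `F` is not solvable
-/

namespace Pool.Agent.DiagramGroups

open Subgroup

open scoped commutatorElement

lemma ulist_eq {l l' : List Unit} (h : l.length = l'.length) : l = l' :=
  List.ext_get h (fun _ _ _ => rfl)

/-- The word `x^n`. -/
abbrev X (n : ℕ) : List Unit := List.replicate n ()

/-- The presentation `⟨x ∣ x = x²⟩`. -/
def Px : SemigroupPresentation Unit where
  rel := {(X 1, X 2)}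
  fst_ne_nil := by
    rintro r hr
    rw [Set.mem_singleton_iff] at hr
    rw [hr]; simp
  snd_ne_nil := by
    rintro r hr
    rw [Set.mem_singleton_iff] at hr
    rw [hr]; simp

lemma Px_step : Px.Step (X 1) (X 2) := Or.inl rfl

lemma Px_step_iff {u v : List Unit} (h : Px.Step u v) :
    (u = X 1 ∧ v = X 2) ∨ (u = X 2 ∧ v = X 1) := by
  rcases h with h | h
  · left
    have : (u, v) = (X 1, X 2) := h
    exact ⟨(Prod.mk.inj this).1, (Prod.mk.inj this).2⟩
  · right
    have : (v, u) = (X 1, X 2) := h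
    exact ⟨(Prod.mk.inj this).2, (Prod.mk.inj this).1⟩

/-- The edge from `x^(i+1+j)` to `x^(i+2+j)` doubling the `i`-th letter. -/
def ee (i j : ℕ) : U Px := E Px (X i) (X 1) (X 2) (X j)

lemma ee_walk (i j n m : ℕ) (hn : n = i + 1 + j) (hm : m = i + 2 + j) :
    IsWalk Px (X n) (X m) (ee i j) := by
  have := IsWalk.edge (P := Px) (a := X i) (b := X j) Px_step
  have e1 : X i ++ X 1 ++ X j = X n := ulist_eq (by simp [hn] <;> omega)
  have e2 : X i ++ X 2 ++ X j = X m := ulist_eq (by simp [hm] <;> omega)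
  rw [e1, e2] at this
  exact this

lemma ee_square (i b j : ℕ) :
    ee i (b + 1 + j) * ee (i + 2 + b) j = ee (i + 1 + b) j * ee i (b + 2 + j) := by
  have := E_square (P := Px) (a := X i) (b := X b) (c := X j) Px_step Px_step
  have e1 : X b ++ X 1 ++ X j = X (b + 1 + j) := ulist_eq (by simp <;> omega)
  have e2 : X i ++ X 2 ++ X b = X (i + 2 + b) := ulist_eq (by simp <;> omega)
  have e3 : X i ++ X 1 ++ X b = X (i + 1 + b) := ulist_eq (by simp <;> omega)
  have e4 : X b ++ X 2 ++ X j = X (b + 2 + j) := ulist_eq (by simp <;> omega)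
  rw [e1, e2, e3, e4] at this
  exact this

/-- Iterated rightmost expansions, from `x` to `x^(n+1)`. -/
def KR : ℕ → U Px
  | 0 => 1
  | n + 1 => KR n * ee n 0

lemma KR_walk (n : ℕ) : IsWalk Px (X 1) (X (n + 1)) (KR n) := by
  induction n with
  | zero => exact IsWalk.nil _
  | succ n ih => exact ih.mul (ee_walk n 0 _ _ (by omega) (by omega))

/-- The loops generating the diagram group. -/
def yy (i j : ℕ) : U Px := KR (i + j) * ee i j * (KR (i + j + 1))⁻¹

lemma yy_zero (i : ℕ) : yy i 0 = 1 := by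
  unfold yy
  change KR i * ee i 0 * (KR i * ee i 0)⁻¹ = 1
  group

lemma yy_succ (i j : ℕ) : yy i (j + 2) = yy i (j + 1) := by
  unfold yy
  have h := ee_square i j 0
  have e1 : KR (i + (j + 2)) = KR (i + (j + 1)) * ee (i + 1 + j) 0 := by
    rw [show i + (j + 2) = (i + (j + 1)) + 1 by omega]
    change KR (i + (j + 1)) * ee (i + (j + 1)) 0 = _
    rw [show i + (j + 1) = i + 1 + j by omega]
  have e2 : KR (i + (j + 2) + 1) = KR (i + (j + 1) + 1) * ee (i + 2 + j) 0 := by
    rw [show i + (j + 2) + 1 = (i + (j + 1) + 1) + 1 by omega]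
    change KR (i + (j + 1) + 1) * ee (i + (j + 1) + 1) 0 = _
    rw [show i + (j + 1) + 1 = i + 2 + j by omega]
  rw [e1, e2]
  rw [show j + 1 + 0 = j + 1 by omega, show j + 2 + 0 = j + 2 by omega] at h
  rw [mul_assoc (KR _) (ee (i + 1 + j) 0), ← h]
  group

lemma yy_eq (i j : ℕ) : yy i (j + 1) = yy i 1 := by
  induction j with
  | zero => rfl
  | succ j ih => rw [yy_succ, ih]

lemma yy_rel (k n : ℕ) (h : k < n) : (yy k 1)⁻¹ * yy n 1 * yy k 1 = yy (n + 1) 1 := by
  obtain ⟨b, rfl⟩ := Nat.exists_eq_add_of_lt h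
  have h1 : yy (k + b + 1) 1 * yy k (b + 2 + 1) = yy k (b + 1 + 1) * yy (k + b + 1 + 1) 1 := by
    unfold yy
    have h2 := ee_square k b 1
    rw [show k + (b + 2 + 1) = k + b + 1 + 1 + 1 by omega,
      show k + (b + 1 + 1) = k + b + 1 + 1 by omega]
    rw [show k + 2 + b = k + b + 1 + 1 by omega, show k + 1 + b = k + b + 1 by omega] at h2
    have h3 : KR (k + b + 1 + 1) * ee (k + b + 1) 1 * (KR (k + b + 1 + 1 + 1))⁻¹ *
      (KR (k + b + 1 + 1 + 1) * ee k (b + 2 + 1) * (KR (k + b + 1 + 1 + 1 + 1))⁻¹) =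
      KR (k + b + 1 + 1) * (ee (k + b + 1) 1 * ee k (b + 2 + 1)) *
        (KR (k + b + 1 + 1 + 1 + 1))⁻¹ := by group
    rw [h3, ← h2]; group
  rw [yy_eq k (b + 2), yy_eq k (b + 1)] at h1
  rw [mul_assoc, h1]; group

/-- The homomorphism from Thompson's group. -/
def thom : ThompsonF →* U Px :=
  PresentedGroup.toGroup (f := fun n => yy n 1) (by
    rintro r ⟨k, n, hkn, rfl⟩
    simp only [map_mul, map_inv, FreeGroup.lift_apply_of]
    rw [yy_rel k n hkn, mul_inv_cancel])

lemma thom_of (n : ℕ) : yy n 1 ∈ thom.range :=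
  ⟨PresentedGroup.of n, PresentedGroup.toGroup.of _⟩

lemma yy_mem (i j : ℕ) : yy i j ∈ thom.range := by
  cases j with
  | zero => rw [yy_zero]; exact one_mem _
  | succ j => rw [yy_eq]; exact thom_of i

lemma X_split {n : ℕ} {a u b : List Unit} (h : X n = a ++ u ++ b) :
    a = X a.length ∧ b = X b.length ∧ n = a.length + u.length + b.length := by
  refine ⟨ulist_eq (by simp), ulist_eq (by simp), ?_⟩
  have := congrArg List.length h
  simpa [add_assoc] using this

lemma thom_gen {Y : List Unit} {g : U Px} (h : IsWalk Px (X 1) Y g) :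
    ∃ (n : ℕ) (k : U Px), k ∈ thom.range ∧ Y = X (n + 1) ∧ g = k * KR n := by
  induction h with
  | nil => exact ⟨0, 1, one_mem _, rfl, by simp [KR]⟩
  | @snoc a u v b g _ hs ih =>
    obtain ⟨n, k, hk, hY, hg⟩ := ih
    obtain ⟨ha, hb, hlen⟩ := X_split hY.symm
    set i := a.length
    set j := b.length
    rcases Px_step_iff hs with ⟨rfl, rfl⟩ | ⟨rfl, rfl⟩
    · have hn : n = i + j := by simp at hlen; omega
      refine ⟨n + 1, k * yy i j, mul_mem hk (yy_mem i j), ?_, ?_⟩
      · exact ulist_eq (by simp <;> omega)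
      · rw [hg, ha, hb]
        change k * KR n * ee i j = _
        unfold yy
        rw [hn]; group
    · have hn : n = i + j + 1 := by simp at hlen; omega
      refine ⟨i + j, k * (yy i j)⁻¹, mul_mem hk (inv_mem (yy_mem i j)), ?_, ?_⟩
      · exact ulist_eq (by simp <;> omega)
      · rw [hg, ha, hb, E_symm Px_step]
        change k * KR n * (ee i j)⁻¹ = _
        unfold yy
        rw [hn]; group

lemma Dsub_le_range : Dsub Px (X 1) ≤ thom.range := by
  intro g hg
  obtain ⟨n, k, hk, hY, rfl⟩ := thom_gen hg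
  have hn : n = 0 := by
    have := congrArg List.length hY
    simp at this
    omega
  subst hn
  simpa [KR] using hk

/-! ### The diagram group of `⟨x ∣ x = x²⟩` is not solvable -/

/-- The copy of the group on letter `1` of `x^4`. -/
def th1 : U Px →* U Px := (MulAut.conj (KR 3)).toMonoidHom.comp (W Px (X 1) (X 2))

/-- The copy of the group on letter `2` of `x^4`. -/
def th2 : U Px →* U Px := (MulAut.conj (KR 3)).toMonoidHom.comp (W Px (X 2) (X 1))

lemma th1_apply (g : U Px) : th1 g = KR 3 * W Px (X 1) (X 2) g * (KR 3)⁻¹ := rfl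

lemma th2_apply (g : U Px) : th2 g = KR 3 * W Px (X 2) (X 1) g * (KR 3)⁻¹ := rfl

lemma th_comm {g h : U Px} (hg : IsWalk Px (X 1) (X 1) g) (hh : IsWalk Px (X 1) (X 1) h) :
    th1 g * th2 h = th2 h * th1 g := by
  rw [th1_apply, th2_apply]
  have := interchange hg hh (X 1) [] (X 1)
  have e1 : [] ++ X 1 ++ X 1 = X 2 := ulist_eq (by simp)
  have e2 : X 1 ++ X 1 ++ [] = X 2 := ulist_eq (by simp)
  rw [e1, e2] at this
  have e4 : ∀ x y z : U Px, (x * y * x⁻¹) * (x * z * x⁻¹) = x * (y * z) * x⁻¹ := by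
    intro x y z; group
  rw [e4, e4, this]

lemma th1_mem {g : U Px} (hg : IsWalk Px (X 1) (X 1) g) : th1 g ∈ Dsub Px (X 1) := by
  have h1 := KR_walk 3
  have h2 := hg.whisker (X 1) (X 2)
  have e : X 1 ++ X 1 ++ X 2 = X 4 := ulist_eq (by simp)
  rw [e] at h2
  exact (h1.mul h2).mul h1.inv

lemma th2_mem {g : U Px} (hg : IsWalk Px (X 1) (X 1) g) : th2 g ∈ Dsub Px (X 1) := by
  have h1 := KR_walk 3
  have h2 := hg.whisker (X 2) (X 1)
  have e : X 2 ++ X 1 ++ X 1 = X 4 := ulist_eq (by simp)
  rw [e] at h2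
  exact (h1.mul h2).mul h1.inv

/-- The element conjugating the second copy to the first one. -/
def gS : U Px := KR 3 * (ee 0 3 * (ee 3 0)⁻¹) * (KR 3)⁻¹

lemma gS_mem : gS ∈ Dsub Px (X 1) := by
  have h1 := KR_walk 3
  have h2 : IsWalk Px (X 4) (X 5) (ee 0 3) := ee_walk 0 3 4 5 (by omega) (by omega)
  have h3 : IsWalk Px (X 4) (X 5) (ee 3 0) := ee_walk 3 0 4 5 (by omega) (by omega)
  exact (h1.mul (h2.mul h3.inv)).mul h1.inv

lemma gS_conj {g : U Px} (hg : IsWalk Px (X 1) (X 1) g) :
    gS * th2 g * gS⁻¹ = th1 g := by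
  have h1 : W Px (X 2) (X 1) g * ee 3 0 = ee 3 0 * W Px (X 2) (X 2) g := by
    have := interchange_edge hg (X 2) [] [] (X 1) (X 2) Px_step
    have e1 : [] ++ X 1 ++ [] = X 1 := ulist_eq (by simp)
    have e2 : [] ++ X 2 ++ [] = X 2 := ulist_eq (by simp)
    have e3 : X 2 ++ X 1 ++ [] = X 3 := ulist_eq (by simp)
    rw [e1, e2, e3] at this
    exact this
  have h2 : ee 0 3 * W Px (X 2) (X 2) g = W Px (X 1) (X 2) g * ee 0 3 := by
    have h3 : IsWalk Px (X 1) (X 2) (E Px [] (X 1) (X 2) []) := by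
      have := IsWalk.edge (P := Px) (a := []) (b := []) Px_step
      have e1 : [] ++ X 1 ++ [] = X 1 := ulist_eq (by simp)
      have e2 : [] ++ X 2 ++ [] = X 2 := ulist_eq (by simp)
      rw [e1, e2] at this
      exact this
    have := interchange h3 hg [] [] (X 2)
    rw [W_E] at this
    have e1 : ([] : List Unit) ++ ([] ++ X 1 ++ X 2) = X 3 := ulist_eq (by simp)
    have e2 : ([] : List Unit) ++ X 2 ++ [] = X 2 := ulist_eq (by simp)
    have e3 : ([] : List Unit) ++ X 1 ++ [] = X 1 := ulist_eq (by simp)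
    rw [e1, e2, e3] at this
    exact this
  rw [th1_apply, th2_apply]
  unfold gS
  have h3 : (ee 3 0)⁻¹ * W Px (X 2) (X 1) g = W Px (X 2) (X 2) g * (ee 3 0)⁻¹ := by
    rw [inv_mul_eq_iff_eq_mul, ← mul_assoc, ← h1]; group
  have h4 : KR 3 * (ee 0 3 * (ee 3 0)⁻¹) * (KR 3)⁻¹ * (KR 3 * W Px (X 2) (X 1) g * (KR 3)⁻¹) *
      (KR 3 * (ee 0 3 * (ee 3 0)⁻¹) * (KR 3)⁻¹)⁻¹ =
      KR 3 * (ee 0 3 * ((ee 3 0)⁻¹ * W Px (X 2) (X 1) g) * ee 3 0 * (ee 0 3)⁻¹) *
        (KR 3)⁻¹ := by group
  rw [h4, h3]
  have h5 : ee 0 3 * (W Px (X 2) (X 2) g * (ee 3 0)⁻¹) * ee 3 0 * (ee 0 3)⁻¹ =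
    ee 0 3 * W Px (X 2) (X 2) g * (ee 0 3)⁻¹ := by group
  rw [h5, h2]
  group

lemma der_key (k : ℕ) : ∀ g ∈ der (Dsub Px (X 1)) k,
    ∃ d ∈ Dsub Px (X 1), th2 g * th1 d ∈ der (Dsub Px (X 1)) (k + 1) := by
  induction k with
  | zero =>
    intro g hg
    rw [der_zero] at hg
    refine ⟨g⁻¹, inv_mem hg, ?_⟩
    have h1 : th2 g * th1 g⁻¹ = ⁅th2 g, gS⁆ := by
      rw [commutatorElement_def, ← map_inv th2]
      have : th2 g * gS * th2 g⁻¹ * gS⁻¹ = th2 g * (gS * th2 g⁻¹ * gS⁻¹) := by group
      rw [this, gS_conj (mem_Dsub.1 (inv_mem hg))]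
    rw [h1]
    exact commutator_mem_commutator (th2_mem hg) gS_mem
  | succ k ih =>
    let S : Subgroup (U Px) :=
      { carrier := {g | g ∈ Dsub Px (X 1) ∧
          ∃ d ∈ Dsub Px (X 1), th2 g * th1 d ∈ der (Dsub Px (X 1)) (k + 1 + 1)}
        mul_mem' := by
          rintro g g' ⟨hg, d, hd, h⟩ ⟨hg', d', hd', h'⟩
          refine ⟨mul_mem hg hg', d * d', mul_mem hd hd', ?_⟩
          have h1 := th_comm (g := d) (h := g') hd hg'
          have : th2 (g * g') * th1 (d * d') = (th2 g * th1 d) * (th2 g' * th1 d') := by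
            rw [map_mul, map_mul, mul_assoc (th2 g) (th1 d), ← mul_assoc (th1 d), h1]
            group
          rw [this]
          exact mul_mem h h'
        one_mem' := ⟨one_mem _, 1, one_mem _, by simp⟩
        inv_mem' := by
          rintro g ⟨hg, d, hd, h⟩
          refine ⟨inv_mem hg, d⁻¹, inv_mem hd, ?_⟩
          have h1 := th_comm (g := d) (h := g) hd hg
          have : th2 g⁻¹ * th1 d⁻¹ = (th2 g * th1 d)⁻¹ := by
            rw [← h1, mul_inv_rev, map_inv, map_inv]
          rw [this]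
          exact inv_mem h }
    have hS : der (Dsub Px (X 1)) (k + 1) ≤ S := by
      rw [der_succ, commutator_le]
      intro g hg g' hg'
      obtain ⟨d, hd, h⟩ := ih g hg
      obtain ⟨d', hd', h'⟩ := ih g' hg'
      have hgD := der_le _ _ hg
      have hgD' := der_le _ _ hg'
      have key1 : ∀ a ∈ Dsub Px (X 1), ∀ b ∈ Dsub Px (X 1), th1 a * th2 b = th2 b * th1 a :=
        fun a ha b hb => th_comm ha hb
      refine ⟨?_, ⁅d, d'⁆, ?_, ?_⟩
      · exact mul_mem (mul_mem (mul_mem hgD hgD') (inv_mem hgD)) (inv_mem hgD')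
      · exact mul_mem (mul_mem (mul_mem hd hd') (inv_mem hd)) (inv_mem hd')
      · have h1 : ⁅th2 g * th1 d, th2 g' * th1 d'⁆ = th2 ⁅g, g'⁆ * th1 ⁅d, d'⁆ := by
          have c1 := key1 d hd g' hgD'
          have c2 := key1 d' hd' g hgD
          have c3 := key1 d hd g hgD
          have c4 := key1 d' hd' g' hgD'
          have C1 : Commute (th1 d) (th2 g') := c1
          have C2 : Commute (th1 d') (th2 g) := c2
          have C3 : Commute (th1 d) (th2 g) := c3
          have C4 : Commute (th1 d') (th2 g') := c4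
          rw [map_commutatorElement, map_commutatorElement]
          simp only [commutatorElement_def]
          generalize th2 g = A at *
          generalize th2 g' = B at *
          generalize th1 d = C at *
          generalize th1 d' = D at *
          have e1 : A * C * (B * D) = (A * B) * (C * D) := by
            rw [mul_assoc A C, ← mul_assoc C B, C1.eq]; group
          have e2 : (A * C)⁻¹ * (B * D)⁻¹ = (A⁻¹ * B⁻¹) * (C⁻¹ * D⁻¹) := by
            rw [mul_inv_rev, mul_inv_rev]
            have x1 : C⁻¹ * A⁻¹ = A⁻¹ * C⁻¹ := (C3.inv_inv).eq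
            have x2 : D⁻¹ * B⁻¹ = B⁻¹ * D⁻¹ := (C4.inv_inv).eq
            have x3 : C⁻¹ * B⁻¹ = B⁻¹ * C⁻¹ := (C1.inv_inv).eq
            rw [x1, x2, mul_assoc A⁻¹ C⁻¹, ← mul_assoc C⁻¹ B⁻¹, x3]; group
          have e3 : (C * D) * (A⁻¹ * B⁻¹) = (A⁻¹ * B⁻¹) * (C * D) := by
            have y1 : Commute C (A⁻¹ * B⁻¹) := (C3.inv_right).mul_right (C1.inv_right)
            have y2 : Commute D (A⁻¹ * B⁻¹) := (C2.inv_right).mul_right (C4.inv_right)
            exact (y1.mul_left y2).eq
          have : A * C * (B * D) * (A * C)⁻¹ * (B * D)⁻¹ =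
            (A * C * (B * D)) * ((A * C)⁻¹ * (B * D)⁻¹) := by group
          rw [this, e1, e2]
          have : A * B * (C * D) * (A⁻¹ * B⁻¹ * (C⁻¹ * D⁻¹)) =
            A * B * ((C * D) * (A⁻¹ * B⁻¹)) * (C⁻¹ * D⁻¹) := by group
          rw [this, e3]
          group
        rw [← h1]
        exact commutator_mem_commutator h h'
    intro g hg
    exact (hS hg).2

/-- The permutation attached to a path from `x` to `y` is the identity on the negative rationals,
and a translation beyond `|y|`. -/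
lemma val_outside {α : Type} {P : SemigroupPresentation α} {x y : List α} {g : U P}
    (h : IsWalk P x y g) : (∀ z : ℚ, z ≤ 0 → val P g z = z) ∧
      (∀ z : ℚ, (y.length : ℚ) ≤ z → val P g z = z + x.length - y.length) := by
  induction h with
  | nil => simp
  | @snoc a u v b g _ hs ih =>
    obtain ⟨ih1, ih2⟩ := ih
    obtain ⟨hu, hv⟩ := step_ne hs
    have hupos : (0 : ℚ) < u.length := by exact_mod_cast List.length_pos_of_ne_nil hu
    have hvpos : (0 : ℚ) < v.length := by exact_mod_cast List.length_pos_of_ne_nil hv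
    have hapos : (0 : ℚ) ≤ a.length := by positivity
    have hbpos : (0 : ℚ) ≤ b.length := by positivity
    constructor
    · intro z hz
      rw [map_mul, Equiv.Perm.mul_apply, val_E hs, PL_le (by linarith)]
      exact ih1 z hz
    · intro z hz
      simp only [List.length_append, Nat.cast_add] at hz ih2 ⊢
      rw [map_mul, Equiv.Perm.mul_apply, val_E hs]
      rcases PL_cases (k := (a.length : ℚ)) (m := (v.length : ℚ)) z with h | ⟨h1, h2⟩ | h
      · linarith
      · have hz2 : z = a.length + v.length := by linarith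
        have hb0 : (b.length : ℚ) = 0 := by linarith
        rw [PL_mid h1 h2, hz2]
        have : (a.length : ℚ) + ((a.length : ℚ) + v.length - a.length) * u.length / v.length =
          a.length + u.length := by
          field_simp
          ring
        rw [this, ih2 _ (by linarith)]
        linarith
      · rw [PL_ge hvpos h, ih2 _ (by linarith)]
        ring

lemma val_W {α : Type} (P : SemigroupPresentation α) (l r : List α) (g : U P) (z : ℚ) :
    val P (W P l r g) z = val P g (z - l.length) + l.length := by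
  let T : Equiv.Perm ℚ := Equiv.addRight (l.length : ℚ)
  have hT : ∀ z, T z = z + l.length := fun z => rfl
  have hT' : ∀ z, T⁻¹ z = z - l.length := by
    intro z
    rw [Equiv.Perm.inv_eq_iff_eq, hT]; ring
  have : (val P).comp (W P l r) = (MulAut.conj T).toMonoidHom.comp (val P) := by
    apply hom_ext
    intro a u v b
    ext z
    simp only [MonoidHom.comp_apply, W_E]
    change val P (E P (l ++ a) u v (b ++ r)) z = (T * val P (E P a u v b) * T⁻¹) z
    rw [Equiv.Perm.mul_apply, Equiv.Perm.mul_apply, hT', hT]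
    unfold val
    rw [liftU_E, liftU_E]
    unfold valFun
    split_ifs with h
    · change PL _ _ _ _ = PL _ _ _ _ + _
      obtain ⟨hv, hu⟩ := h
      rw [List.length_append, Nat.cast_add]
      rcases PL_cases (k := (a.length : ℚ)) (m := (v.length : ℚ)) (z - l.length) with
        h | ⟨h1, h2⟩ | h
      · rw [PL_le h, PL_le (by linarith)]; ring
      · rw [PL_mid h1 h2, PL_mid (by linarith) (by linarith)]; ring
      · rw [PL_ge hv h, PL_ge hv (by linarith)]; ring
    · simp
  have h2 := DFunLike.congr_fun this g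
  have h3 : val P (W P l r g) z = T (val P g (T⁻¹ z)) :=
    congrArg (fun f : Equiv.Perm ℚ => f z) h2
  rw [hT', hT] at h3
  exact h3

lemma der_moves (n : ℕ) : ∃ g ∈ der (Dsub Px (X 1)) n, ∃ y : ℚ, val Px g y ≠ y := by
  induction n with
  | zero =>
    refine ⟨yy 0 1, ?_, 1 / 2, ?_⟩
    · rw [der_zero]
      have h1 := KR_walk 1
      have h2 : IsWalk Px (X 2) (X 3) (ee 0 1) := ee_walk 0 1 2 3 (by omega) (by omega)
      exact (h1.mul h2).mul (KR_walk 2).inv
    · unfold yy
      simp only [KR, one_mul, ee, map_mul, mul_inv_rev, ← E_symm Px_step,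
        Equiv.Perm.mul_apply, val_E Px_step, val_E Px_step.symm]
      norm_num [PL]
  | succ n ih =>
    obtain ⟨g, hg, y, hy⟩ := ih
    obtain ⟨d, hd, h⟩ := der_key n g hg
    have hgD : IsWalk Px (X 1) (X 1) g := der_le _ _ hg
    have hg1 := val_outside hgD
    have hd1 := val_outside (mem_Dsub.1 hd)
    have hy0 : 0 < y := by
      by_contra hcon
      exact hy (hg1.1 y (by linarith))
    have hy1 : y < 1 := by
      by_contra hcon
      have := hg1.2 y (by simpa using hcon)
      apply hy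
      rw [this]; ring
    refine ⟨_, h, val Px (KR 3) (y + 2), ?_⟩
    have e : th2 g * th1 d = KR 3 * (W Px (X 2) (X 1) g * W Px (X 1) (X 2) d) * (KR 3)⁻¹ := by
      rw [th1_apply, th2_apply]; group
    rw [e]
    have einv : (val Px (KR 3))⁻¹ (val Px (KR 3) (y + 2)) = y + 2 := by
      rw [Equiv.Perm.inv_eq_iff_eq]
    simp only [map_mul, map_inv, Equiv.Perm.mul_apply]
    rw [einv]
    intro hcon
    have h3 := (val Px (KR 3)).injective hcon
    rw [val_W, val_W] at h3
    have h4 : val Px d (y + 2 - (X 1).length) = y + 1 := by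
      have := hd1.2 (y + 1) (by simp; linarith)
      have e5 : y + 2 - ((X 1).length : ℚ) = y + 1 := by simp; ring
      rw [e5, this]; ring
    rw [h4] at h3
    have e6 : y + 1 + ((X 1).length : ℚ) - ((X 2).length : ℚ) = y := by simp; ring
    rw [e6] at h3
    apply hy
    simp at h3
    linarith

theorem Dsub_Px_not_solvable : ¬ Group.IsSolvable (Dsub Px (X 1)) := by
  rw [isSolvable_iff_der]
  rintro ⟨n, hn⟩
  obtain ⟨g, hg, y, hy⟩ := der_moves n
  rw [hn, Subgroup.mem_bot] at hg
  apply hy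
  rw [hg, map_one]
  rfl

/-- Thompson's group `F` is not solvable. -/
theorem thompsonF_not_solvable : ¬ Group.IsSolvable ThompsonF := by
  intro h
  apply Dsub_Px_not_solvable
  have h1 : Group.IsSolvable thom.range := by
    have := isSolvable_map thom ⊤ (by
      rw [isSolvable_iff_der]
      obtain ⟨n, hn⟩ := (Group.isSolvable_def ThompsonF).1 h
      exact ⟨n, by rw [der_top, hn]⟩)
    rwa [← MonoidHom.range_eq_map] at this
  exact Group.isSolvable_of_isSolvable_injective (Subgroup.inclusion_injective Dsub_le_range)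

end Pool.Agent.DiagramGroups
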