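import Pool.Agent.Lib_helper37.Example
import Pool.Agent.Lib_helper37.Thompson

/-!
# The diagram group of the example does not contain Thompson's group `F`
-/

namespace Pool.Agent.DiagramGroups

theorem ex_noF : ¬ HasSubgroupIsoTo (DiagramGroup exP [7, 8]) ThompsonF := by
  rintro ⟨K, ⟨e⟩⟩
  have h1 : Group.IsSolvable (DiagramGroup exP [7, 8]) := ex_diagramGroup_solvable
  apply thompsonF_not_solvable
  exact Group.isSolvable_of_isSolvable_injective
    (f := K.subtype.comp e.symm.toMonoidHom)
    (K.subtype_injective.comp e.symm.injective)

end Pool.Agent.DiagramGroups
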