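import Pool.Agent.Lib_helper37.SquierDefs

/-!
# Group theoretic lemmas: solvability, residual finiteness, linearity
-/

namespace Pool.Agent.DiagramGroups

open Subgroup

open scoped commutatorElement

section Solv

variable {G : Type*} [Group G]

/-- Derived series of a subgroup, inside the ambient group. -/
def der (H : Subgroup G) : ℕ → Subgroup G
  | 0 => H
  | n + 1 => ⁅der H n, der H n⁆

lemma der_succ (H : Subgroup G) (n : ℕ) : der H (n + 1) = ⁅der H n, der H n⁆ := rfl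

lemma der_zero (H : Subgroup G) : der H 0 = H := rfl

lemma der_mono {H K : Subgroup G} (h : H ≤ K) (n : ℕ) : der H n ≤ der K n := by
  induction n with
  | zero => exact h
  | succ n ih => exact commutator_mono ih ih

lemma der_shift (H : Subgroup G) (n : ℕ) : der H (n + 1) = der ⁅H, H⁆ n := by
  induction n with
  | zero => rfl
  | succ n ih =>
    rw [der_succ, ih, der_succ]

lemma der_map {G' : Type*} [Group G'] (f : G →* G') (H : Subgroup G) (n : ℕ) :
    der (H.map f) n = (der H n).map f := by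
  induction n with
  | zero => rfl
  | succ n ih =>
    rw [der_succ, ih, der_succ, map_commutator]

lemma der_top (n : ℕ) : der (⊤ : Subgroup G) n = derivedSeries G n := by
  induction n with
  | zero => rfl
  | succ n ih =>
    rw [der_succ, ih]; rfl

lemma map_derivedSeries_subtype (H : Subgroup G) (n : ℕ) :
    (derivedSeries H n).map H.subtype = der H n := by
  rw [← der_top, ← der_map]
  congr 1
  rw [← MonoidHom.range_eq_map, H.range_subtype]

lemma isSolvable_iff_der (H : Subgroup G) : Group.IsSolvable H ↔ ∃ n, der H n = ⊥ := by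
  rw [Group.isSolvable_def]
  constructor
  · rintro ⟨n, hn⟩
    refine ⟨n, ?_⟩
    rw [← map_derivedSeries_subtype, hn, Subgroup.map_bot]
  · rintro ⟨n, hn⟩
    refine ⟨n, ?_⟩
    rw [← map_derivedSeries_subtype] at hn
    exact (Subgroup.map_eq_bot_iff_of_injective _ H.subtype_injective).1 hn

lemma isSolvable_map {G' : Type*} [Group G'] (f : G →* G') (H : Subgroup G)
    (hH : Group.IsSolvable H) : Group.IsSolvable (H.map f) := by
  obtain ⟨n, hn⟩ := (isSolvable_iff_der H).1 hH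
  rw [isSolvable_iff_der]
  exact ⟨n, by rw [der_map, hn, Subgroup.map_bot]⟩

lemma commutator_iSup_le {ι : Type*} (S : ι → Subgroup G)
    (h : ∀ i j, i ≠ j → ∀ x ∈ S i, ∀ y ∈ S j, x * y = y * x) :
    ⁅⨆ i, S i, ⨆ i, S i⁆ ≤ ⨆ i, ⁅S i, S i⁆ := by
  set M : Subgroup G := ⨆ i, ⁅S i, S i⁆ with hM
  have hSM : ∀ i, ⁅S i, S i⁆ ≤ M := fun i => le_iSup (fun i => ⁅S i, S i⁆) i
  have hle : ∀ i, ⁅S i, S i⁆ ≤ S i := by
    intro i
    rw [commutator_le]
    intro x hx y hy
    exact (S i).mul_mem ((S i).mul_mem ((S i).mul_mem hx hy) ((S i).inv_mem hx))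
      ((S i).inv_mem hy)
  -- `M` is normalised by each `S i`
  have norm1 : ∀ i, ∀ x ∈ S i, ∀ m ∈ M, x * m * x⁻¹ ∈ M := by
    intro i x hx m hm
    rw [hM] at hm
    refine iSup_induction _ (C := fun m => x * m * x⁻¹ ∈ M) hm ?_ ?_ ?_
    · intro j m hm
      by_cases hij : i = j
      · subst hij
        -- conjugation by `x` preserves the commutator subgroup of `S i`
        have h2 : x * m * x⁻¹ = ⁅x, m⁆ * m := by
          rw [commutatorElement_def]; group
        change x * m * x⁻¹ ∈ M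
        rw [h2]
        exact M.mul_mem (hSM i (commutator_mem_commutator hx (hle i hm))) (hSM i hm)
      · have := h i j hij x hx m (hle j hm)
        change x * m * x⁻¹ ∈ M
        rw [this, mul_inv_cancel_right]
        exact hSM j hm
    · simp
    · intro m m' h1 h2
      have : x * (m * m') * x⁻¹ = (x * m * x⁻¹) * (x * m' * x⁻¹) := by group
      change x * (m * m') * x⁻¹ ∈ M
      rw [this]
      exact M.mul_mem h1 h2
  have norm2 : ∀ x ∈ ⨆ i, S i, ∀ m ∈ M, x * m * x⁻¹ ∈ M := by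
    intro x hx
    refine iSup_induction _ (C := fun x => ∀ m ∈ M, x * m * x⁻¹ ∈ M) hx ?_ ?_ ?_
    · intro i x hx m hm
      exact norm1 i x hx m hm
    · intro m hm; simpa using hm
    · intro x y h1 h2 m hm
      have : x * y * m * (x * y)⁻¹ = x * (y * m * y⁻¹) * x⁻¹ := by group
      rw [this]
      exact h1 _ (h2 _ hm)
  have c1 : ∀ i, ∀ x ∈ S i, ∀ y ∈ ⨆ i, S i, ⁅x, y⁆ ∈ M := by
    intro i x hx y hy
    refine (iSup_induction _ (C := fun y => y ∈ ⨆ i, S i ∧ ⁅x, y⁆ ∈ M) hy ?_ ?_ ?_).2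
    · intro j y hy
      refine ⟨le_iSup S j hy, ?_⟩
      by_cases hij : i = j
      · subst hij
        exact hSM i (commutator_mem_commutator hx hy)
      · have := h i j hij x hx y hy
        rw [commutatorElement_eq_one_iff_mul_comm.2 this]
        exact M.one_mem
    · exact ⟨one_mem _, by simp⟩
    · rintro y y' ⟨hy, h1⟩ ⟨hy', h2⟩
      refine ⟨mul_mem hy hy', ?_⟩
      have : ⁅x, y * y'⁆ = ⁅x, y⁆ * (y * ⁅x, y'⁆ * y⁻¹) := by
        simp only [commutatorElement_def]; group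
      rw [this]
      exact M.mul_mem h1 (norm2 _ hy _ h2)
  rw [commutator_le]
  intro x hx y hy
  refine (iSup_induction _ (C := fun x => x ∈ ⨆ i, S i ∧ ⁅x, y⁆ ∈ M) hx ?_ ?_ ?_).2
  · intro i x hx
    exact ⟨le_iSup S i hx, c1 i x hx y hy⟩
  · exact ⟨one_mem _, by simp⟩
  · rintro x x' ⟨hx, h1⟩ ⟨hx', h2⟩
    refine ⟨mul_mem hx hx', ?_⟩
    have : ⁅x * x', y⁆ = (x * ⁅x', y⁆ * x⁻¹) * ⁅x, y⁆ := by
      simp only [commutatorElement_def]; group
    rw [this]
    exact M.mul_mem (norm2 _ hx _ h2) h1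

lemma der_le (H : Subgroup G) (n : ℕ) : der H n ≤ H := by
  induction n with
  | zero => exact le_rfl
  | succ n ih =>
    rw [der_succ, commutator_le]
    intro x hx y hy
    exact H.mul_mem (H.mul_mem (H.mul_mem (ih hx) (ih hy)) (H.inv_mem (ih hx)))
      (H.inv_mem (ih hy))

lemma der_iSup_le {ι : Type*} (S : ι → Subgroup G)
    (h : ∀ i j, i ≠ j → ∀ x ∈ S i, ∀ y ∈ S j, x * y = y * x) (n : ℕ) :
    der (⨆ i, S i) n ≤ ⨆ i, der (S i) n := by
  induction n with
  | zero => exact le_rfl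
  | succ n ih =>
    rw [der_succ]
    refine (commutator_mono ih ih).trans ?_
    refine (commutator_iSup_le (fun i => der (S i) n) ?_)
    intro i j hij x hx y hy
    exact h i j hij x (der_le _ _ hx) y (der_le _ _ hy)

/-- A subgroup generated by `t` and by a solvable subgroup `A` whose conjugates by the powers of
`t` commute is solvable. -/
theorem solv_step (A : Subgroup G) (t : G) (hA : Group.IsSolvable A)
    (hcomm : ∀ k : ℕ, 1 ≤ k → ∀ a ∈ A, ∀ b ∈ A,
      (t ^ k)⁻¹ * a * t ^ k * b = b * ((t ^ k)⁻¹ * a * t ^ k)) :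
    Group.IsSolvable (closure (insert t (A : Set G))) := by
  obtain ⟨n, hn⟩ := (isSolvable_iff_der A).1 hA
  set H := closure (insert t (A : Set G)) with hH
  let S : ℤ → Subgroup G := fun i => A.map (MulAut.conj (t ^ i)).toMonoidHom
  have memS : ∀ i x, x ∈ S i ↔ ∃ a ∈ A, t ^ i * a * (t ^ i)⁻¹ = x := by
    intro i x
    rw [Subgroup.mem_map]
    rfl
  have hlt : ∀ i j, i < j → ∀ x ∈ S i, ∀ y ∈ S j, x * y = y * x := by
    intro i j hij x hx y hy
    obtain ⟨a, ha, rfl⟩ := (memS _ _).1 hx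
    obtain ⟨b, hb, rfl⟩ := (memS _ _).1 hy
    obtain ⟨k, hk⟩ := Int.eq_ofNat_of_zero_le (a := j - i) (by omega)
    have hk1 : 1 ≤ k := by omega
    have hj : j = i + k := by omega
    subst hj
    have := hcomm k hk1 a ha b hb
    have e1 : t ^ i * a * (t ^ i)⁻¹ =
      t ^ (i + (k : ℤ)) * ((t ^ k)⁻¹ * a * t ^ k) * (t ^ (i + (k : ℤ)))⁻¹ := by
      rw [zpow_add, zpow_natCast]; group
    rw [e1]
    have e2 : ∀ z w : G, (t ^ (i + (k : ℤ)) * z * (t ^ (i + (k : ℤ)))⁻¹) *
      (t ^ (i + (k : ℤ)) * w * (t ^ (i + (k : ℤ)))⁻¹) =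
      t ^ (i + (k : ℤ)) * (z * w) * (t ^ (i + (k : ℤ)))⁻¹ := by
      intro z w
      simp [mul_assoc]
    rw [e2, e2, this]
  have hS : ∀ i j, i ≠ j → ∀ x ∈ S i, ∀ y ∈ S j, x * y = y * x := by
    intro i j hij x hx y hy
    rcases lt_or_gt_of_ne hij with h | h
    · exact hlt i j h x hx y hy
    · exact (hlt j i h y hy x hx).symm
  set N : Subgroup G := ⨆ i, S i with hN
  have hnorm : ∀ k : ℤ, ∀ x ∈ N, t ^ k * x * (t ^ k)⁻¹ ∈ N := by
    intro k x hx
    refine iSup_induction _ (C := fun x => t ^ k * x * (t ^ k)⁻¹ ∈ N) hx ?_ ?_ ?_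
    · intro i x hx
      obtain ⟨a, ha, rfl⟩ := (memS _ _).1 hx
      apply le_iSup S (k + i)
      rw [memS]
      refine ⟨a, ha, ?_⟩
      rw [zpow_add]; group
    · simp
    · intro x y h1 h2
      have : t ^ k * (x * y) * (t ^ k)⁻¹ = (t ^ k * x * (t ^ k)⁻¹) * (t ^ k * y * (t ^ k)⁻¹) := by
        simp [mul_assoc]
      rw [this]
      exact N.mul_mem h1 h2
  have hform : ∀ h ∈ H, ∃ (k : ℤ) (m : G), m ∈ N ∧ h = t ^ k * m := by
    intro h hh
    rw [hH] at hh
    refine closure_induction (p := fun h _ => ∃ (k : ℤ) (m : G), m ∈ N ∧ h = t ^ k * m)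
      ?_ ?_ ?_ ?_ hh
    · rintro x (rfl | hx)
      · exact ⟨1, 1, N.one_mem, by simp⟩
      · refine ⟨0, x, ?_, by simp⟩
        apply le_iSup S 0
        rw [memS]
        exact ⟨x, hx, by simp⟩
    · exact ⟨0, 1, N.one_mem, by simp⟩
    · rintro x y _ _ ⟨k, m, hm, rfl⟩ ⟨l, m', hm', rfl⟩
      refine ⟨k + l, (t ^ (-l) * m * (t ^ (-l))⁻¹) * m', N.mul_mem (hnorm _ _ hm) hm', ?_⟩
      rw [zpow_add, zpow_neg]; group
    · rintro x _ ⟨k, m, hm, rfl⟩
      refine ⟨-k, t ^ k * m⁻¹ * (t ^ k)⁻¹, hnorm _ _ (N.inv_mem hm), ?_⟩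
      rw [zpow_neg]; group
  have hcommN : ⁅H, H⁆ ≤ N := by
    rw [commutator_le]
    intro g1 hg1 g2 hg2
    obtain ⟨k, m, hm, rfl⟩ := hform g1 hg1
    obtain ⟨l, m', hm', rfl⟩ := hform g2 hg2
    have : ⁅t ^ k * m, t ^ l * m'⁆ = (t ^ k * m * (t ^ k)⁻¹) *
      (t ^ (k + l) * (m' * m⁻¹) * (t ^ (k + l))⁻¹) * (t ^ l * m'⁻¹ * (t ^ l)⁻¹) := by
      rw [commutatorElement_def, zpow_add]
      simp only [mul_inv_rev, mul_assoc, inv_mul_cancel_left]
      have hc : ∀ z : G, (t ^ l)⁻¹ * ((t ^ k)⁻¹ * (t ^ l * z)) = (t ^ k)⁻¹ * z := by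
        intro z
        have : (t ^ l)⁻¹ * (t ^ k)⁻¹ * t ^ l = (t ^ k)⁻¹ := by
          rw [← zpow_neg, ← zpow_neg, ← zpow_add, ← zpow_add]
          congr 1; ring
        rw [← mul_assoc, ← mul_assoc, this]
      rw [hc]
    rw [this]
    exact N.mul_mem (N.mul_mem (hnorm _ _ hm)
      (hnorm _ _ (N.mul_mem hm' (N.inv_mem hm)))) (hnorm _ _ (N.inv_mem hm'))
  rw [isSolvable_iff_der]
  refine ⟨n + 1, ?_⟩
  rw [eq_bot_iff, der_shift]
  refine (der_mono hcommN n).trans ?_
  rw [hN]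
  refine (der_iSup_le S hS n).trans ?_
  rw [iSup_le_iff]
  intro i
  change der (A.map _) n ≤ ⊥
  rw [der_map, hn, Subgroup.map_bot]

end Solv

section RF

variable {G : Type*} [Group G]

/-- A group with non commuting elements `a, b` and an element `t` such that all the proper
`t`-conjugates of `a` commute with `b` is not residually finite. -/
theorem not_residuallyFinite_of (a b t : G) (hab : a * b ≠ b * a)
    (hc : ∀ k : ℕ, 1 ≤ k → (t ^ k)⁻¹ * a * t ^ k * b = b * ((t ^ k)⁻¹ * a * t ^ k)) :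
    ¬ Group.ResiduallyFinite G := by
  intro hG
  rw [Group.residuallyFinite_iff_forall_finiteIndexNormalSubgroup] at hG
  apply hab
  rw [← commutatorElement_eq_one_iff_mul_comm]
  apply hG
  intro N
  have hfin : Finite (G ⧸ N.toSubgroup) := by
    have := N.isFiniteIndex'
    exact finite_quotient_of_finiteIndex
  obtain ⟨k, hk, hk1⟩ := (isOfFinOrder_iff_pow_eq_one).1
    (isOfFinOrder_of_finite (t : G ⧸ N.toSubgroup))
  have h1 := hc k hk
  have h2 := congrArg (fun x : G => (x : G ⧸ N.toSubgroup)) h1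
  simp only [QuotientGroup.mk_mul, QuotientGroup.mk_inv, QuotientGroup.mk_pow, hk1, inv_one,
    one_mul, mul_one] at h2
  have h3 : ((⁅a, b⁆ : G) : G ⧸ N.toSubgroup) = 1 := by
    rw [commutatorElement_def]
    simp only [QuotientGroup.mk_mul, QuotientGroup.mk_inv]
    rw [h2]; group
  exact (QuotientGroup.eq_one_iff _).1 h3

/-- A group with non commuting elements `a, b` and an element `t` such that all the proper
`t`-conjugates of `a` commute with `b`, and all the proper `t`-conjugates of `b` commute with `a`,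
is not linear. -/
theorem not_linear_of.{u} {G : Type} [Group G] (a b t : G) (hab : a * b ≠ b * a)
    (hc : ∀ k : ℕ, 1 ≤ k → (t ^ k)⁻¹ * a * t ^ k * b = b * ((t ^ k)⁻¹ * a * t ^ k))
    (hc' : ∀ k : ℕ, 1 ≤ k → (t ^ k)⁻¹ * b * t ^ k * a = a * ((t ^ k)⁻¹ * b * t ^ k)) :
    ¬ IsLinearGroup.{u} G := by
  rintro ⟨n, -, K, hK, f, hf⟩
  have key : ∀ x y : G, (∀ k : ℕ, 1 ≤ k →
      (t ^ k)⁻¹ * x * t ^ k * y = y * ((t ^ k)⁻¹ * x * t ^ k)) →
      ∀ i k : ℕ, 1 ≤ k → ((t ^ (i + k))⁻¹ * x * t ^ (i + k)) * ((t ^ i)⁻¹ * y * t ^ i) =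
        ((t ^ i)⁻¹ * y * t ^ i) * ((t ^ (i + k))⁻¹ * x * t ^ (i + k)) := by
    intro x y h i k hk
    have h1 := h k hk
    have e1 : (t ^ (i + k))⁻¹ * x * t ^ (i + k) =
        (t ^ i)⁻¹ * ((t ^ k)⁻¹ * x * t ^ k) * t ^ i := by
      rw [add_comm i k, pow_add]; group
    have e2 : ∀ z w : G, ((t ^ i)⁻¹ * z * t ^ i) * ((t ^ i)⁻¹ * w * t ^ i) =
      (t ^ i)⁻¹ * (z * w) * t ^ i := by
      intro z w
      simp [mul_assoc]
    rw [e1, e2, e2, h1]
  let a' : ℕ → G := fun i => (t ^ i)⁻¹ * a * t ^ i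
  let b' : ℕ → G := fun i => (t ^ i)⁻¹ * b * t ^ i
  have hcomm : ∀ i j, i ≠ j → a' i * b' j = b' j * a' i := by
    intro i j hij
    rcases lt_or_gt_of_ne hij with h | h
    · obtain ⟨k, rfl⟩ := Nat.exists_eq_add_of_lt h
      have := key b a hc' i (k + 1) (by omega)
      exact this.symm
    · obtain ⟨k, rfl⟩ := Nat.exists_eq_add_of_lt h
      exact key a b hc j (k + 1) (by omega)
  have hnc : ∀ i, a' i * b' i ≠ b' i * a' i := by
    intro i h
    apply hab
    have e2 : ∀ z w : G, ((t ^ i)⁻¹ * z * t ^ i) * ((t ^ i)⁻¹ * w * t ^ i) =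
      (t ^ i)⁻¹ * (z * w) * t ^ i := by
      intro z w
      simp [mul_assoc]
    simp only [a', b'] at h
    rw [e2, e2] at h
    exact mul_left_cancel (mul_right_cancel h)
  -- the descending chain of centralisers
  let C : ℕ → Submodule K (Matrix (Fin n) (Fin n) K) := fun m =>
    { carrier := {M | ∀ i < m, M * (f (b' i) : Matrix (Fin n) (Fin n) K) =
        (f (b' i) : Matrix (Fin n) (Fin n) K) * M}
      add_mem' := by
        intro M N hM hN i hi
        rw [add_mul, mul_add, hM i hi, hN i hi]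
      zero_mem' := by
        intro i _
        simp
      smul_mem' := by
        intro c M hM i hi
        rw [smul_mul_assoc, mul_smul_comm, hM i hi] }
  have hanti : Antitone C := by
    intro m m' hmm M hM i hi
    exact hM i (lt_of_lt_of_le hi hmm)
  obtain ⟨m, hm⟩ := IsArtinian.monotone_stabilizes
    (⟨fun m => OrderDual.toDual (C m), fun m m' h => hanti h⟩ :
      ℕ →o (Submodule K (Matrix (Fin n) (Fin n) K))ᵒᵈ)
  have h1 : C m = C (m + 1) := hm (m + 1) (by omega)
  have h2 : (f (a' m) : Matrix (Fin n) (Fin n) K) ∈ C m := by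
    intro i hi
    have := congrArg (fun x => (f x : Matrix (Fin n) (Fin n) K)) (hcomm m i (by omega))
    simpa using this
  rw [h1] at h2
  have h3 := h2 m (by omega)
  apply hnc m
  apply hf
  rw [map_mul f (a' m) (b' m), map_mul f (b' m) (a' m)]
  apply Units.ext
  exact h3

end RF

end Pool.Agent.DiagramGroups
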