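import Mathlib

/-!
Extension of a densely defined homomorphism given by a subgroup of a product with a compact
group.
-/

open Filter Topology

set_option linter.unusedSectionVars false

namespace Pool.Agent.Helper37.KO

variable {G : Type*} [Group G] [TopologicalSpace G] [IsTopologicalGroup G]
variable {U : Type*} [Group U] [TopologicalSpace U] [IsTopologicalGroup U] [CompactSpace U]
variable {U' : Type*} [Group U'] [TopologicalSpace U'] [T2Space U']

/-- Let `Γ` be a closed subgroup of `G × U`, `U` compact, with dense projection to `G`, and let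
`π : U → U'` be a continuous homomorphism killing the fibre of `Γ` over `1`.  Then `π` composed
with the correspondence `Γ` is a continuous homomorphism `G → U'`. -/
theorem ext_hom (Γ : Subgroup (G × U)) (hΓ : IsClosed (Γ : Set (G × U)))
    (hd : Dense {g : G | ∃ u, (g, u) ∈ Γ}) (π : U →* U') (hπ : Continuous π)
    (hf : ∀ u, ((1 : G), u) ∈ Γ → π u = 1) :
    ∃ ρ : G →* U', Continuous ρ ∧ ∀ g u, (g, u) ∈ Γ → ρ g = π u := by
  have hcl : ∀ C : Set (G × U), IsClosed C → IsClosed (Prod.fst '' C) :=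
    fun C hC => isClosedMap_fst_of_compactSpace C hC
  have hsurj : ∀ g : G, ∃ u, (g, u) ∈ Γ := by
    intro g
    have h1 : IsClosed {g : G | ∃ u, (g, u) ∈ Γ} := by
      have h2 := hcl _ hΓ
      have h3 : Prod.fst '' (Γ : Set (G × U)) = {g : G | ∃ u, (g, u) ∈ Γ} := by
        ext x
        constructor
        · rintro ⟨⟨a, b⟩, hab, rfl⟩
          exact ⟨b, hab⟩
        · rintro ⟨u, hu⟩
          exact ⟨(x, u), hu, rfl⟩
      rwa [h3] at h2
    have h4 := h1.closure_eq
    rw [hd.closure_eq] at h4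
    have : g ∈ (Set.univ : Set G) := Set.mem_univ g
    rw [h4] at this
    exact this
  have huniq : ∀ g u v, (g, u) ∈ Γ → (g, v) ∈ Γ → π u = π v := by
    intro g u v hu hv
    have h1 : ((1 : G), u⁻¹ * v) ∈ Γ := by
      have := Γ.mul_mem (Γ.inv_mem hu) hv
      simpa using this
    have h2 := hf _ h1
    rw [map_mul, map_inv] at h2
    exact (inv_mul_eq_one.mp h2)
  choose s hs using hsurj
  let ρ : G →* U' :=
    { toFun := fun g => π (s g)
      map_one' := hf _ (hs 1)
      map_mul' := by
        intro x y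
        rw [← map_mul]
        exact huniq (x * y) _ _ (hs _) (Γ.mul_mem (hs x) (hs y)) }
  have hρ : ∀ g u, (g, u) ∈ Γ → ρ g = π u := fun g u hu => huniq g _ _ (hs g) hu
  refine ⟨ρ, ?_, hρ⟩
  rw [continuous_iff_isClosed]
  intro C hC
  have h1 : IsClosed ((Γ : Set (G × U)) ∩ (fun p : G × U => π p.2) ⁻¹' C) :=
    hΓ.inter (hC.preimage (hπ.comp continuous_snd))
  have h2 := hcl _ h1
  have h3 : Prod.fst '' ((Γ : Set (G × U)) ∩ (fun p : G × U => π p.2) ⁻¹' C) = ρ ⁻¹' C := by
    ext x
    constructor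
    · rintro ⟨⟨a, b⟩, ⟨hab, hC'⟩, rfl⟩
      show ρ a ∈ C
      rw [hρ a b hab]
      exact hC'
    · intro hx
      exact ⟨(x, s x), ⟨hs x, by simpa [hρ x (s x) (hs x)] using hx⟩, rfl⟩
  rwa [h3] at h2

end Pool.Agent.Helper37.KO
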