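import Mathlib

/-!
Unitary groups of matrices: compactness and the homomorphism `(u, v) ↦ u ⊗ conj v`.
-/

open Filter Topology
open scoped Matrix.Norms.L2Operator Kronecker

set_option linter.unusedSectionVars false

namespace Pool.Agent.Helper37.KO

/-- Unitary matrices. -/
abbrev Un (d : ℕ) := Matrix.unitaryGroup (Fin d) ℂ

/-- Matrices. -/
abbrev Ma (d : ℕ) := Matrix (Fin d) (Fin d) ℂ

/-- The commutant is trivial. -/
def Irr {N : Type*} [Group N] {d : ℕ} (χ : N →* Un d) : Prop :=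
  ∀ X : Ma d, (∀ n, X * (χ n : Ma d) = (χ n : Ma d) * X) → ∃ c : ℂ, X = c • 1

instance instProperMa (d : ℕ) : ProperSpace (Ma d) := FiniteDimensional.proper ℂ _

lemma norm_un_le {d : ℕ} (u : Un d) : ‖(u : Ma d)‖ ≤ 1 := by
  rcases isEmpty_or_nonempty (Fin d) with h | h
  · have : (u : Ma d) = 0 := Subsingleton.elim _ _
    rw [this, norm_zero]
    exact zero_le_one
  · exact (CStarRing.norm_coe_unitary u).le

instance instCompactUn (d : ℕ) : CompactSpace (Un d) := by
  refine (isCompact_iff_compactSpace (s := ((Un d : Submonoid (Ma d)) : Set (Ma d)))).mp ?_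
  refine Metric.isCompact_of_isClosed_isBounded ?_ ?_
  · have h1 : Continuous (fun A : Ma d => star A * A) := by fun_prop
    have h2 : Continuous (fun A : Ma d => A * star A) := by fun_prop
    have h3 : ((Un d : Submonoid (Ma d)) : Set (Ma d))
        = {A | star A * A = 1} ∩ {A | A * star A = 1} := by
      ext A
      exact Unitary.mem_iff
    rw [h3]
    exact (isClosed_eq h1 continuous_const).inter (isClosed_eq h2 continuous_const)
  · rw [isBounded_iff_forall_norm_le]
    exact ⟨1, fun A hA => norm_un_le ⟨A, hA⟩⟩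

/-- `u ⊗ conj v` as a homomorphism to matrices. -/
noncomputable def kapM (d e : ℕ) : Un d × Un e →* Ma (d * e) where
  toFun p := Matrix.reindexAlgEquiv ℂ ℂ finProdFinEquiv
    ((p.1 : Ma d) ⊗ₖ ((p.2 : Ma e).map (starRingEnd ℂ)))
  map_one' := by
    have : ((1 : Ma e).map (starRingEnd ℂ)) = 1 := by simp
    simp [this]
  map_mul' p q := by
    rw [← map_mul, ← Matrix.mul_kronecker_mul]
    simp [Matrix.map_mul]

/-- `u ⊗ conj v` as a homomorphism to the general linear group. -/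
noncomputable def kap (d e : ℕ) : Un d × Un e →* GL (Fin (d * e)) ℂ := (kapM d e).toHomUnits

lemma continuous_kapM (d e : ℕ) : Continuous (kapM d e) := by
  unfold kapM
  simp only [MonoidHom.coe_mk, OneHom.coe_mk]
  refine continuous_matrix (fun i j => ?_)
  simp only [Matrix.coe_reindexAlgEquiv, Matrix.reindex_apply, Matrix.submatrix_apply,
    Matrix.kroneckerMap_apply, Matrix.map_apply]
  refine Continuous.mul ?_ ?_
  · exact ((continuous_subtype_val.comp continuous_fst).matrix_elem _ _)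
  · exact Complex.continuous_conj.comp
      ((continuous_subtype_val.comp continuous_snd).matrix_elem _ _)

lemma continuous_kap (d e : ℕ) : Continuous (kap d e) := by
  rw [Units.continuous_iff]
  refine ⟨continuous_kapM d e, ?_⟩
  have h : ∀ p, ((kap d e p)⁻¹ : GL (Fin (d * e)) ℂ) = kap d e p⁻¹ := fun p => (map_inv _ p).symm
  have : (fun p => (((kap d e p)⁻¹ : GL (Fin (d * e)) ℂ) : Ma (d * e)))
      = fun p => kapM d e p⁻¹ := by
    funext p
    rw [h]
    rfl
  rw [this]
  exact (continuous_kapM d e).comp continuous_inv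

lemma kap_eq_one_iff {d e : ℕ} (u : Un d) (v : Un e) :
    kap d e (u, v) = 1 ↔ ∀ i j k l, (u : Ma d) i j * starRingEnd ℂ ((v : Ma e) k l)
      = (1 : Ma d) i j * (1 : Ma e) k l := by
  have h1 : kap d e (u, v) = 1 ↔ kapM d e (u, v) = 1 := by
    rw [← Units.val_inj]
    rfl
  rw [h1]
  have h2 : kapM d e (u, v) = 1 ↔ (u : Ma d) ⊗ₖ ((v : Ma e).map (starRingEnd ℂ)) = 1 := by
    show Matrix.reindexAlgEquiv ℂ ℂ finProdFinEquiv
      ((u : Ma d) ⊗ₖ ((v : Ma e).map (starRingEnd ℂ))) = 1 ↔ _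
    constructor
    · intro h
      rw [← map_one (Matrix.reindexAlgEquiv ℂ ℂ finProdFinEquiv)] at h
      exact (Matrix.reindexAlgEquiv ℂ ℂ finProdFinEquiv).injective h
    · intro h
      rw [h, map_one]
  rw [h2, ← Matrix.one_kronecker_one, ← Matrix.ext_iff]
  constructor
  · intro h i j k l
    have := h (i, k) (j, l)
    simpa [Matrix.kroneckerMap_apply, Matrix.map_apply] using this
  · rintro h ⟨i, k⟩ ⟨j, l⟩
    simpa [Matrix.kroneckerMap_apply, Matrix.map_apply] using h i j k l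

lemma norm_entry_le {d : ℕ} (A : Ma d) (i j : Fin d) : ‖A i j‖ ≤ ‖A‖ := by
  have h := Matrix.l2_opNorm_mulVec A (EuclideanSpace.single j (1 : ℂ))
  rw [PiLp.norm_single, norm_one, mul_one] at h
  refine le_trans ?_ h
  have h2 := PiLp.norm_apply_le ((EuclideanSpace.equiv (Fin d) ℂ).symm
    (A.mulVec (EuclideanSpace.single j (1 : ℂ)))) i
  refine le_trans (le_of_eq ?_) h2
  simp [Matrix.mulVec_single]

lemma kap_eq_one_of_close {d e : ℕ} (v : Un d) (v' : Un e)
    (h : ∀ ε : ℝ, 0 < ε → ∃ t : ℂ, ‖t‖ = 1 ∧ ‖(v : Ma d) - t • 1‖ ≤ ε ∧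
      ‖(v' : Ma e) - t • 1‖ ≤ ε) : kap d e (v, v') = 1 := by
  rw [kap_eq_one_iff]
  intro i j k l
  rw [← sub_eq_zero, ← norm_le_zero_iff]
  refine le_of_forall_pos_le_add (fun ε hε => ?_)
  obtain ⟨t, ht, h1, h2⟩ := h (ε / 2) (by positivity)
  have e1 := (norm_entry_le ((v : Ma d) - t • 1) i j).trans h1
  have e2 := (norm_entry_le ((v' : Ma e) - t • 1) k l).trans h2
  simp only [Matrix.sub_apply, Matrix.smul_apply, smul_eq_mul] at e1 e2
  have hv' : ‖(v' : Ma e) k l‖ ≤ 1 := (norm_entry_le _ _ _).trans (norm_un_le v')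
  have h1d : ‖(1 : Ma d) i j‖ ≤ 1 := by
    rw [Matrix.one_apply]
    split_ifs <;> simp
  have hone : starRingEnd ℂ ((1 : Ma e) k l) = (1 : Ma e) k l := by
    rw [Matrix.one_apply]
    split_ifs <;> simp
  have htt : t * starRingEnd ℂ t = 1 := by
    rw [Complex.mul_conj, Complex.normSq_eq_norm_sq, ht]
    simp
  have e3 : (v : Ma d) i j * starRingEnd ℂ ((v' : Ma e) k l) - (1 : Ma d) i j * (1 : Ma e) k l
      = ((v : Ma d) i j - t * (1 : Ma d) i j) * starRingEnd ℂ ((v' : Ma e) k l)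
        + (t * (1 : Ma d) i j) * starRingEnd ℂ ((v' : Ma e) k l - t * (1 : Ma e) k l) := by
    rw [map_sub, map_mul, hone]
    linear_combination ((1 : Ma d) i j * (1 : Ma e) k l) * htt
  rw [e3]
  calc _ ≤ ‖((v : Ma d) i j - t * (1 : Ma d) i j) * starRingEnd ℂ ((v' : Ma e) k l)‖
        + ‖(t * (1 : Ma d) i j) * starRingEnd ℂ ((v' : Ma e) k l - t * (1 : Ma e) k l)‖ :=
        norm_add_le _ _
    _ ≤ ε / 2 * 1 + (1 * 1) * (ε / 2) := by
        rw [norm_mul, norm_mul, norm_mul, RCLike.norm_conj, RCLike.norm_conj, ht]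
        gcongr
    _ = 0 + ε := by ring

lemma scalar_of_kap_self {d : ℕ} (u : Un d) (h : kap d d (u, u) = 1) :
    ∃ c : ℂ, (u : Ma d) = c • 1 := by
  rw [kap_eq_one_iff] at h
  rcases isEmpty_or_nonempty (Fin d) with hd | ⟨⟨i0⟩⟩
  · exact ⟨1, Subsingleton.elim _ _⟩
  · refine ⟨(u : Ma d) i0 i0, ?_⟩
    ext i j
    rw [Matrix.smul_apply, smul_eq_mul, Matrix.one_apply]
    by_cases hij : i = j
    · subst hij
      rw [if_pos rfl, mul_one]
      have h1 := h i i i0 i0
      have h2 := h i0 i0 i0 i0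
      simp only [Matrix.one_apply_eq, mul_one] at h1 h2
      have h3 : starRingEnd ℂ ((u : Ma d) i0 i0) ≠ 0 := by
        intro h0
        rw [h0, mul_zero] at h2
        exact zero_ne_one h2
      exact mul_right_cancel₀ h3 (h1.trans h2.symm)
    · rw [if_neg hij, mul_zero]
      have h1 := h i j i j
      rw [Matrix.one_apply_ne hij, mul_zero, Complex.mul_conj] at h1
      exact_mod_cast Complex.normSq_eq_zero.mp (by exact_mod_cast h1)

lemma eq_of_kap_scalar {d e : ℕ} (hd : 0 < d) (he : 0 < e) (u : Un d) (v : Un e)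
    (h : kap d e (u, v) = 1) {c c' : ℂ} (hu : (u : Ma d) = c • 1) (hv : (v : Ma e) = c' • 1) :
    c = c' := by
  rw [kap_eq_one_iff] at h
  have h1 := h ⟨0, hd⟩ ⟨0, hd⟩ ⟨0, he⟩ ⟨0, he⟩
  rw [hu, hv] at h1
  simp only [Matrix.smul_apply, Matrix.one_apply_eq, smul_eq_mul, mul_one] at h1
  have hmem := Matrix.mem_unitaryGroup_iff.mp v.2
  rw [hv] at hmem
  have h2 := congrFun (congrFun hmem ⟨0, he⟩) ⟨0, he⟩
  rw [star_smul, star_one, Matrix.smul_mul, Matrix.mul_smul, Matrix.mul_one] at h2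
  simp only [Matrix.smul_apply, Matrix.one_apply_eq, smul_eq_mul, mul_one] at h2
  have h3 : starRingEnd ℂ c' ≠ 0 := by
    intro h0
    rw [h0, mul_zero] at h1
    exact zero_ne_one h1
  exact mul_right_cancel₀ h3 (h1.trans h2.symm)

end Pool.Agent.Helper37.KO
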