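import Mathlib
import Pool.Agent.Lib_helper37.KoUnit
import Pool.Agent.Lib_helper37.KoExt

/-!
Irreducible unitary representations of a compact normal subgroup of a connected group are stable
under conjugation.
-/

open Filter Topology MeasureTheory
open scoped Matrix.Norms.L2Operator

set_option linter.unusedSectionVars false

namespace Pool.Agent.Helper37.KO

variable {G : Type*} [Group G] [TopologicalSpace G] [IsTopologicalGroup G] [T2Space G]
variable {N : Subgroup G} [N.Normal]
variable {d : ℕ}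

/-- `u` implements conjugation by `g`. -/
def Impl (χ : N →* Un d) (g : G) (u : Un d) : Prop :=
  ∀ n : N, u * χ n = χ (MulAut.conjNormal g n) * u

lemma impl_one (χ : N →* Un d) : Impl χ 1 1 := by
  intro n
  simp

lemma Impl.mul {χ : N →* Un d} {g h : G} {u v : Un d} (h1 : Impl χ g u) (h2 : Impl χ h v) :
    Impl χ (g * h) (u * v) := by
  intro n
  rw [mul_assoc, h2 n, ← mul_assoc, h1, map_mul, MulAut.mul_apply, mul_assoc]

lemma Impl.inv {χ : N →* Un d} {g : G} {u : Un d} (h1 : Impl χ g u) : Impl χ g⁻¹ u⁻¹ := by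
  intro n
  have h2 := h1 (MulAut.conjNormal g⁻¹ n)
  have h3 : MulAut.conjNormal g (MulAut.conjNormal g⁻¹ n) = n := by
    rw [← MulAut.mul_apply, ← map_mul]
    simp
  rw [h3] at h2
  rw [inv_mul_eq_iff_eq_mul, ← mul_assoc, h2, mul_inv_cancel_right]

lemma impl_self (χ : N →* Un d) (k : N) : Impl χ (k : G) (χ k) := by
  intro n
  have h3 : MulAut.conjNormal (k : G) n = k * n * k⁻¹ := by
    apply Subtype.ext
    simp [MulAut.conjNormal_apply]
  rw [h3, ← map_mul, ← map_mul]
  congr 1
  group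

/-- The group of pairs `(g, u)` with `u` implementing `g`. -/
def implSub (χ : N →* Un d) : Subgroup (G × Un d) where
  carrier := {p | Impl χ p.1 p.2}
  mul_mem' := fun h1 h2 => h1.mul h2
  one_mem' := impl_one χ
  inv_mem' := fun h => h.inv

lemma continuous_conjN' : Continuous (fun p : G × N => MulAut.conjNormal p.1 p.2) := by
  rw [continuous_induced_rng]
  have : ((Subtype.val : N → G) ∘ fun p : G × N => MulAut.conjNormal p.1 p.2)
      = fun p : G × N => p.1 * (p.2 : G) * p.1⁻¹ := by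
    funext p
    exact MulAut.conjNormal_apply _ _
  rw [this]
  fun_prop

lemma continuous_conjN (n : N) : Continuous (fun g : G => MulAut.conjNormal g n) := by
  have h1 : Continuous (fun g : G => ((g, n) : G × N)) := by fun_prop
  exact continuous_conjN'.comp h1

lemma isClosed_implSub (χ : N →* Un d) (hχ : Continuous χ) :
    IsClosed (implSub χ : Set (G × Un d)) := by
  have : (implSub χ : Set (G × Un d))
      = ⋂ n : N, {p : G × Un d | p.2 * χ n = χ (MulAut.conjNormal p.1 n) * p.2} := by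
    ext p
    simp only [Set.mem_iInter]
    rfl
  rw [this]
  refine isClosed_iInter (fun n => isClosed_eq ?_ ?_)
  · exact continuous_snd.mul continuous_const
  · exact (hχ.comp ((continuous_conjN n).comp continuous_fst)).mul continuous_snd

/-- Unitary scalars. -/
lemma norm_eq_one_of_scalar (hd : 0 < d) (u : Un d) {c : ℂ} (hu : (u : Ma d) = c • 1) :
    ‖c‖ = 1 := by
  have : Nonempty (Fin d) := ⟨⟨0, hd⟩⟩
  have h1 := CStarRing.norm_coe_unitary u
  rw [hu, norm_smul, CStarRing.norm_one, mul_one] at h1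
  exact h1

lemma impl_one_scalar {χ : N →* Un d} (hirr : Irr χ) {u : Un d} (h : Impl χ (1 : G) u) :
    ∃ c : ℂ, (u : Ma d) = c • 1 := by
  refine hirr (u : Ma d) (fun n => ?_)
  have := h n
  rw [map_one] at this
  exact congrArg (fun x : Un d => (x : Ma d)) this

/-- A nonzero intertwiner can be normalised to a unitary one. -/
lemma exists_impl_of_intertwiner (hd : 0 < d) {χ : N →* Un d} (hirr : Irr χ) (g : G) (X : Ma d)
    (hX : X ≠ 0)
    (h : ∀ n : N, X * (χ n : Ma d) = (χ (MulAut.conjNormal g n) : Ma d) * X) :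
    ∃ u : Un d, Impl χ g u := by
  have : Nonempty (Fin d) := ⟨⟨0, hd⟩⟩
  have hun : ∀ u : Un d, star (u : Ma d) * (u : Ma d) = 1 := fun u => Unitary.star_mul_self_of_mem u.2
  have hun' : ∀ u : Un d, (u : Ma d) * star (u : Ma d) = 1 := fun u => Unitary.mul_star_self_of_mem u.2
  have hcomm : ∀ n : N, (star X * X) * (χ n : Ma d) = (χ n : Ma d) * (star X * X) := by
    intro n
    have h1 := congrArg star (h n)
    rw [star_mul, star_mul] at h1
    -- star χ * star X = star X * star χg
    have h2 : star X * (χ (MulAut.conjNormal g n) : Ma d) = (χ n : Ma d) * star X := by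
      calc star X * (χ (MulAut.conjNormal g n) : Ma d)
          = ((χ n : Ma d) * star (χ n : Ma d)) * star X * (χ (MulAut.conjNormal g n) : Ma d) := by
            rw [hun', one_mul]
        _ = (χ n : Ma d) * (star (χ n : Ma d) * star X) * (χ (MulAut.conjNormal g n) : Ma d) := by
            rw [mul_assoc (χ n : Ma d)]
        _ = (χ n : Ma d) * (star X * star (χ (MulAut.conjNormal g n) : Ma d))
              * (χ (MulAut.conjNormal g n) : Ma d) := by rw [h1]
        _ = (χ n : Ma d) * star X := by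
            rw [mul_assoc, mul_assoc, hun, mul_one]
    rw [mul_assoc, h n, ← mul_assoc, h2, mul_assoc]
  obtain ⟨c, hc⟩ := hirr _ hcomm
  set i0 : Fin d := ⟨0, hd⟩
  set r : ℝ := ∑ j, ‖X j i0‖ ^ 2 with hr
  have hcr : c = (r : ℂ) := by
    have h1 := congrFun (congrFun hc i0) i0
    rw [Matrix.smul_apply, Matrix.one_apply_eq, smul_eq_mul, mul_one, Matrix.mul_apply] at h1
    rw [← h1, hr]
    push_cast
    refine Finset.sum_congr rfl (fun j _ => ?_)
    rw [Matrix.star_apply]
    simp only [RCLike.star_def]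
    rw [mul_comm, Complex.mul_conj, Complex.normSq_eq_norm_sq]
    push_cast
    rfl
  have hr0 : 0 ≤ r := Finset.sum_nonneg (fun j _ => by positivity)
  have hrpos : 0 < r := by
    rcases hr0.eq_or_lt with h0 | h0
    · exfalso
      apply hX
      have h1 : star X * X = 0 := by rw [hc, hcr, ← h0]; simp
      have h2 := CStarRing.norm_star_mul_self (x := X)
      rw [h1, norm_zero] at h2
      exact norm_eq_zero.mp (mul_self_eq_zero.mp h2.symm)
    · exact h0
  have hsq : ((Real.sqrt r : ℝ) : ℂ) * ((Real.sqrt r : ℝ) : ℂ) = (r : ℂ) := by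
    rw [← Complex.ofReal_mul, Real.mul_self_sqrt hr0]
  have hsq0 : ((Real.sqrt r : ℝ) : ℂ) ≠ 0 := by
    exact_mod_cast (Real.sqrt_pos.mpr hrpos).ne'
  set s : ℂ := ((Real.sqrt r : ℝ) : ℂ)⁻¹ with hs
  have hstar : star s = s := by
    rw [hs]
    simp [star_inv₀]
  have hu : s • X ∈ Matrix.unitaryGroup (Fin d) ℂ := by
    rw [Matrix.mem_unitaryGroup_iff', star_smul, hstar, Matrix.smul_mul, Matrix.mul_smul, hc, hcr,
      smul_smul, smul_smul]
    have : s * s * (r : ℂ) = 1 := by
      rw [← hsq, hs]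
      field_simp
    rw [this, one_smul]
  refine ⟨⟨s • X, hu⟩, fun n => ?_⟩
  apply Subtype.ext
  show (s • X) * (χ n : Ma d) = (χ (MulAut.conjNormal g n) : Ma d) * (s • X)
  rw [Matrix.smul_mul, h n, Matrix.mul_smul]

section Compact

variable [CompactSpace N]

/-- Near the identity there is a nonzero intertwiner. -/
lemma eventually_intertwiner (hd : 0 < d) {χ : N →* Un d} (hχ : Continuous χ) :
    ∀ᶠ g in 𝓝 (1 : G), ∃ X : Ma d, X ≠ 0 ∧
      ∀ n : N, X * (χ n : Ma d) = (χ (MulAut.conjNormal g n) : Ma d) * X := by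
  have : Nonempty (Fin d) := ⟨⟨0, hd⟩⟩
  let _ : MeasurableSpace N := borel N
  have : BorelSpace N := ⟨rfl⟩
  let μ : Measure N := Measure.haarMeasure ⊤
  have hμ : IsProbabilityMeasure μ := ⟨by
    have := Measure.haarMeasure_self (K₀ := (⊤ : TopologicalSpace.PositiveCompacts N))
    simpa using this⟩
  have hχM : ∀ i j, Continuous (fun n : N => (χ n : Ma d) i j) := fun i j =>
    (continuous_subtype_val.comp hχ).matrix_elem i j
  have hχI : ∀ i j, Continuous (fun n : N => ((χ n)⁻¹ : Un d).1 i j) := fun i j =>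
    (continuous_subtype_val.comp (continuous_inv.comp hχ)).matrix_elem i j
  obtain ⟨F, hF⟩ : ∃ F : G → N → Ma d, ∀ g n, F g n
      = ((χ (MulAut.conjNormal g n) * (χ n)⁻¹ : Un d) : Ma d) := ⟨_, fun _ _ => rfl⟩
  have hΦ : ∀ i j, Continuous (fun p : G × N => F p.1 p.2 i j) := by
    intro i j
    have h1 : ∀ p : G × N, F p.1 p.2 i j
        = ∑ k, (χ (MulAut.conjNormal p.1 p.2) : Ma d) i k * ((χ p.2)⁻¹ : Un d).1 k j := by
      intro p
      rw [hF]
      exact Matrix.mul_apply
    simp only [h1]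
    refine continuous_finsetSum _ (fun k _ => ?_)
    exact ((hχM i k).comp continuous_conjN').mul ((hχI k j).comp continuous_snd)
  have hFb : ∀ g n i j, ‖F g n i j‖ ≤ 1 := by
    intro g n i j
    have h1 := norm_entry_le (F g n) i j
    rw [hF] at h1 ⊢
    exact h1.trans (norm_un_le _)
  set i0 : Fin d := ⟨0, hd⟩
  have hev : ∀ᶠ g in 𝓝 (1 : G), ∀ n ∈ (Set.univ : Set N), ‖F g n i0 i0 - 1‖ < 1 / 2 := by
    refine isCompact_univ.eventually_forall_of_forall_eventually (fun n _ => ?_)
    have h1 : Tendsto (fun p : G × N => ‖F p.1 p.2 i0 i0 - 1‖) (𝓝 ((1 : G), n))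
        (𝓝 ‖F (1 : G) n i0 i0 - 1‖) :=
      (((hΦ i0 i0).sub continuous_const).norm).tendsto _
    have h2 : ‖F (1 : G) n i0 i0 - 1‖ = 0 := by
      have h3 : F (1 : G) n = 1 := by
        have h5 : MulAut.conjNormal (1 : G) n = n := by simp
        rw [hF, h5, mul_inv_cancel]
        rfl
      rw [h3]
      simp
    rw [h2] at h1
    exact h1.eventually (gt_mem_nhds (by norm_num : (0 : ℝ) < 1 / 2))
  filter_upwards [hev] with g hg
  have hFc : ∀ i j, Continuous (fun n : N => F g n i j) := by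
    intro i j
    have h1 : Continuous (fun n : N => ((g, n) : G × N)) := by fun_prop
    exact (hΦ i j).comp h1
  have hFi : ∀ i j, Integrable (fun n : N => F g n i j) μ := fun i j =>
    Integrable.of_bound (hFc i j).aestronglyMeasurable 1
      (Eventually.of_forall (fun n => hFb g n i j))
  refine ⟨Matrix.of (fun i j => ∫ n, F g n i j ∂μ), ?_, ?_⟩
  · intro h0
    have h00 : ∫ n, F g n i0 i0 ∂μ = 0 := congrFun (congrFun h0 i0) i0
    have h1 : ‖(∫ n, F g n i0 i0 ∂μ) - 1‖ ≤ 1 / 2 := by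
      have h2 : (∫ n, F g n i0 i0 ∂μ) - 1 = ∫ n, (F g n i0 i0 - 1) ∂μ := by
        rw [integral_sub (hFi i0 i0) (integrable_const _)]
        simp
      rw [h2]
      have := norm_integral_le_of_norm_le_const (μ := μ) (f := fun n => F g n i0 i0 - 1)
        (C := 1 / 2) (Eventually.of_forall (fun n => (hg n (Set.mem_univ n)).le))
      simpa using this
    rw [h00, zero_sub, norm_neg, norm_one] at h1
    norm_num at h1
  · intro n0
    ext i j
    rw [Matrix.mul_apply, Matrix.mul_apply]
    simp only [Matrix.of_apply]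
    have h1 : ∑ k, (∫ n, F g n i k ∂μ) * (χ n0 : Ma d) k j
        = ∫ n, (F g n * (χ n0 : Ma d)) i j ∂μ := by
      simp only [Matrix.mul_apply]
      rw [integral_finsetSum _ (fun k _ => (hFi i k).mul_const _)]
      refine Finset.sum_congr rfl (fun k _ => ?_)
      rw [integral_mul_const]
    have h2 : ∑ k, (χ (MulAut.conjNormal g n0) : Ma d) i k * (∫ n, F g n k j ∂μ)
        = ∫ n, ((χ (MulAut.conjNormal g n0) : Ma d) * F g n) i j ∂μ := by
      simp only [Matrix.mul_apply]
      rw [integral_finsetSum _ (fun k _ => (hFi k j).const_mul _)]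
      refine Finset.sum_congr rfl (fun k _ => ?_)
      rw [integral_const_mul]
    rw [h1, h2]
    rw [← integral_mul_left_eq_self (μ := μ)
      (fun n => ((χ (MulAut.conjNormal g n0) : Ma d) * F g n) i j) n0⁻¹]
    congr 1
    funext n
    have h3 : χ (MulAut.conjNormal g n) * (χ n)⁻¹ * χ n0
        = χ (MulAut.conjNormal g n0) * (χ (MulAut.conjNormal g (n0⁻¹ * n)) * (χ (n0⁻¹ * n))⁻¹) := by
      simp only [map_mul, map_inv, mul_inv_rev, inv_inv]
      group
    have h4 : F g n * (χ n0 : Ma d)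
        = (χ (MulAut.conjNormal g n0) : Ma d) * F g (n0⁻¹ * n) := by
      rw [hF, hF]
      exact congrArg (fun x : Un d => (x : Ma d)) h3
    rw [h4]

variable [ConnectedSpace G]

/-- Every conjugation is implemented. -/
theorem exists_impl (hd : 0 < d) {χ : N →* Un d} (hχ : Continuous χ) (hirr : Irr χ) (g : G) :
    ∃ u : Un d, Impl χ g u := by
  let S : Subgroup G :=
    { carrier := {g | ∃ u : Un d, Impl χ g u}
      mul_mem' := by
        rintro a b ⟨u, hu⟩ ⟨v, hv⟩
        exact ⟨u * v, hu.mul hv⟩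
      one_mem' := ⟨1, impl_one χ⟩
      inv_mem' := by
        rintro a ⟨u, hu⟩
        exact ⟨u⁻¹, hu.inv⟩ }
  have hS : (S : Set G) ∈ 𝓝 (1 : G) := by
    filter_upwards [eventually_intertwiner hd hχ] with g hg
    obtain ⟨X, hX0, hX⟩ := hg
    exact exists_impl_of_intertwiner hd hirr g X hX0 hX
  have hSo : IsOpen (S : Set G) := S.isOpen_of_mem_nhds hS
  have hSc : IsClopen (S : Set G) := ⟨S.isClosed_of_isOpen hSo, hSo⟩
  have h1 := hSc.eq_univ ⟨1, S.one_mem⟩
  have h2 : g ∈ (S : Set G) := by rw [h1]; exact Set.mem_univ g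
  exact h2

/-- Near the identity implementing unitaries are nearly scalar. -/
theorem exists_nhds_scalar (hd : 0 < d) {χ : N →* Un d} (hχ : Continuous χ) (hirr : Irr χ)
    {ε : ℝ} (hε : 0 < ε) : ∃ V ∈ 𝓝 (1 : G), ∀ g ∈ V, ∀ u : Un d, Impl χ g u →
      ∃ t : ℂ, ‖t‖ = 1 ∧ ‖(u : Ma d) - t • 1‖ < ε := by
  let O : Set (Un d) := {u | ∃ t : ℂ, ‖t‖ = 1 ∧ ‖(u : Ma d) - t • 1‖ < ε}
  have hO : IsOpen O := by
    have : O = ⋃ t ∈ {t : ℂ | ‖t‖ = 1}, {u : Un d | ‖(u : Ma d) - t • 1‖ < ε} := by
      ext u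
      simp [O]
    rw [this]
    refine isOpen_biUnion (fun t _ => isOpen_lt ?_ continuous_const)
    exact (continuous_subtype_val.sub continuous_const).norm
  have hC : IsClosed ((implSub χ : Set (G × Un d)) ∩ (Prod.snd ⁻¹' Oᶜ)) :=
    (isClosed_implSub χ hχ).inter (hO.isClosed_compl.preimage continuous_snd)
  have h1 : IsClosed (Prod.fst '' ((implSub χ : Set (G × Un d)) ∩ (Prod.snd ⁻¹' Oᶜ))) :=
    isClosedMap_fst_of_compactSpace _ hC
  refine ⟨(Prod.fst '' ((implSub χ : Set (G × Un d)) ∩ (Prod.snd ⁻¹' Oᶜ)))ᶜ, ?_, ?_⟩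
  · refine h1.isOpen_compl.mem_nhds ?_
    rintro ⟨⟨g, u⟩, ⟨hgu, hu⟩, hg⟩
    have hg' : g = 1 := hg
    subst hg'
    obtain ⟨c, hc⟩ := impl_one_scalar hirr (hgu : Impl χ (1 : G) u)
    apply hu
    refine ⟨c, norm_eq_one_of_scalar hd u hc, ?_⟩
    rw [hc, sub_self, norm_zero]
    exact hε
  · intro g hg u hu
    by_contra h
    exact hg ⟨(g, u), ⟨hu, h⟩, rfl⟩

end Compact

end Pool.Agent.Helper37.KO
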