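import Mathlib
import Pool.Agent.Lib_helper37.KoImpl

/-!
Countable data attached to an irreducible representation of a compact normal subgroup, and the
comparison of two representations with the same data.
-/

open Filter Topology
open scoped Matrix.Norms.L2Operator

set_option linter.unusedSectionVars false

namespace Pool.Agent.Helper37.KO

/-- The common kernel of all ordinary representations. -/
def koSub (G : Type*) [Group G] [TopologicalSpace G] : Subgroup G where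
  carrier := {g | ∀ (n : ℕ) (ρ : G →* GL (Fin n) ℂ), Continuous ρ → ρ g = 1}
  mul_mem' := fun ha hb n ρ hρ => by rw [map_mul, ha n ρ hρ, hb n ρ hρ, one_mul]
  one_mem' := fun n ρ _ => map_one ρ
  inv_mem' := fun ha n ρ hρ => by rw [map_inv, ha n ρ hρ, inv_one]

variable {G : Type*} [Group G] [TopologicalSpace G] [IsTopologicalGroup G] [T2Space G]
  [ConnectedSpace G]
variable {N : Subgroup G} [N.Normal] [CompactSpace N]

lemma kap_self_of_scalar {d : ℕ} (hd : 0 < d) (u : Un d) {c : ℂ} (hu : (u : Ma d) = c • 1) :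
    kap d d (u, u) = 1 := by
  refine kap_eq_one_of_close u u (fun ε hε => ⟨c, norm_eq_one_of_scalar hd u hu, ?_, ?_⟩)
  · rw [hu, sub_self, norm_zero]; exact hε.le
  · rw [hu, sub_self, norm_zero]; exact hε.le

/-- Elements of `koSub` are implemented by scalars. -/
theorem scalar_of_ko {d : ℕ} (hd : 0 < d) {χ : N →* Un d} (hχ : Continuous χ) (hirr : Irr χ)
    {a : G} (ha : a ∈ koSub G) {u : Un d} (hu : Impl χ a u) : ∃ c : ℂ, (u : Ma d) = c • 1 := by
  let δ : Un d →* Un d × Un d := (MonoidHom.id _).prod (MonoidHom.id _)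
  have hδ : Continuous δ := continuous_id.prodMk continuous_id
  obtain ⟨ρ, hρc, hρ⟩ := ext_hom (implSub χ) (isClosed_implSub χ hχ)
    (by
      have : {g : G | ∃ u, (g, u) ∈ implSub χ} = Set.univ := by
        ext g
        simp only [Set.mem_univ, iff_true]
        exact exists_impl hd hχ hirr g
      rw [this]
      exact dense_univ)
    ((kap d d).comp δ) ((continuous_kap d d).comp hδ) (fun v hv => by
      obtain ⟨c, hc⟩ := impl_one_scalar hirr (hv : Impl χ (1 : G) v)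
      exact kap_self_of_scalar hd v hc)
  have h1 := hρ a u hu
  rw [ha _ ρ hρc] at h1
  exact scalar_of_kap_self u h1.symm

/-- The data package. -/
theorem exists_package {d : ℕ} (hd : 0 < d) {χ : N →* Un d} (hχ : Continuous χ) (hirr : Irr χ)
    (θ : FreeGroup ℕ →* G) :
    ∃ (u : FreeGroup ℕ →* Un d) (V : ℕ → Set G) (a : FreeGroup ℕ → ℕ → ℂ),
      (∀ w, Impl χ (θ w) (u w)) ∧ (∀ j, V j ∈ 𝓝 (1 : G)) ∧
      ∀ w j (n : N), θ w * n ∈ V j → ‖a w j‖ = 1 ∧
        ‖((u w * χ n : Un d) : Ma d) - a w j • 1‖ ≤ 2 / ((j : ℝ) + 1) := by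
  choose U hU using fun i : ℕ => exists_impl hd hχ hirr (θ (FreeGroup.of i))
  let u : FreeGroup ℕ →* Un d := FreeGroup.lift U
  have hu : ∀ w, Impl χ (θ w) (u w) := by
    intro w
    induction w using FreeGroup.induction_on with
    | C1 => rw [map_one, map_one]; exact impl_one χ
    | of i => rw [show u (FreeGroup.of i) = U i from FreeGroup.lift_apply_of]; exact hU i
    | inv_of i h => rw [map_inv, map_inv]; exact h.inv
    | mul x y hx hy => rw [map_mul, map_mul]; exact hx.mul hy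
  have hV : ∀ j : ℕ, ∃ V ∈ 𝓝 (1 : G),
      (∀ g ∈ V, ∀ u : Un d, Impl χ g u → ∃ t : ℂ, ‖t‖ = 1 ∧
        ‖(u : Ma d) - t • 1‖ < 1 / ((j : ℝ) + 1)) ∧
      (∀ x ∈ V, ∀ y ∈ V, ∀ n : N, (n : G) = x⁻¹ * y → ‖(χ n : Ma d) - 1‖ < 1 / ((j : ℝ) + 1)) := by
    intro j
    have hj : (0 : ℝ) < 1 / ((j : ℝ) + 1) := by positivity
    obtain ⟨V1, hV1, h1⟩ := exists_nhds_scalar hd hχ hirr hj
    have hO : {n : N | ‖(χ n : Ma d) - 1‖ < 1 / ((j : ℝ) + 1)} ∈ 𝓝 (1 : N) := by
      have hc : Continuous (fun n : N => ‖(χ n : Ma d) - 1‖) :=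
        ((continuous_subtype_val.comp hχ).sub continuous_const).norm
      refine (isOpen_lt hc continuous_const).mem_nhds ?_
      simp only [Set.mem_ofPred_eq, map_one]
      have : ((1 : Un d) : Ma d) = 1 := rfl
      rw [this, sub_self, norm_zero]
      exact hj
    rw [mem_nhds_subtype] at hO
    obtain ⟨O, hO1, hO2⟩ := hO
    have hO1' : O ∈ 𝓝 (1 : G) := hO1
    have hdiv : Tendsto (fun p : G × G => p.1⁻¹ * p.2) (𝓝 ((1 : G), (1 : G))) (𝓝 (1 : G)) := by
      have : Continuous (fun p : G × G => p.1⁻¹ * p.2) := by fun_prop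
      have h := this.tendsto ((1 : G), (1 : G))
      simpa using h
    have h2 := hdiv hO1'
    rw [nhds_prod_eq, mem_map, mem_prod_self_iff] at h2
    obtain ⟨V2, hV2, h3⟩ := h2
    refine ⟨V1 ∩ V2, inter_mem hV1 hV2, fun g hg => h1 g hg.1, fun x hx y hy n hn => ?_⟩
    have h4 : (x, y) ∈ V2 ×ˢ V2 := ⟨hx.2, hy.2⟩
    have h5 := h3 h4
    have h6 : (n : G) ∈ O := by rw [hn]; exact h5
    exact hO2 h6
  choose V hVn hV1 hV2 using hV
  have ha : ∀ w j, ∃ t : ℂ, ∀ n : N, θ w * n ∈ V j → ‖t‖ = 1 ∧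
        ‖((u w * χ n : Un d) : Ma d) - t • 1‖ ≤ 2 / ((j : ℝ) + 1) := by
    intro w j
    by_cases hex : ∃ n0 : N, θ w * n0 ∈ V j
    · obtain ⟨n0, hn0⟩ := hex
      obtain ⟨t, ht1, ht2⟩ := hV1 j _ hn0 (u w * χ n0) ((hu w).mul (impl_self χ n0))
      refine ⟨t, fun n hn => ⟨ht1, ?_⟩⟩
      have h1 : ((n0⁻¹ * n : N) : G) = (θ w * n0)⁻¹ * (θ w * n) := by
        push_cast
        group
      have h2 := hV2 j _ hn0 _ hn (n0⁻¹ * n) h1
      have h3 : ((u w * χ n : Un d) : Ma d) - ((u w * χ n0 : Un d) : Ma d)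
          = ((u w * χ n0 : Un d) : Ma d) * ((χ (n0⁻¹ * n) : Ma d) - 1) := by
        rw [mul_sub, mul_one]
        congr 1
        have : u w * χ n = (u w * χ n0) * χ (n0⁻¹ * n) := by
          rw [map_mul, map_inv]
          group
        rw [this]
        rfl
      have h4 : ‖((u w * χ n : Un d) : Ma d) - ((u w * χ n0 : Un d) : Ma d)‖
          ≤ 1 / ((j : ℝ) + 1) := by
        rw [h3]
        refine (norm_mul_le _ _).trans ?_
        have h5 := norm_un_le (u w * χ n0)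
        calc ‖((u w * χ n0 : Un d) : Ma d)‖ * ‖(χ (n0⁻¹ * n) : Ma d) - 1‖
            ≤ 1 * ‖(χ (n0⁻¹ * n) : Ma d) - 1‖ := mul_le_mul_of_nonneg_right h5 (norm_nonneg _)
          _ ≤ 1 / ((j : ℝ) + 1) := by rw [one_mul]; exact h2.le
      calc ‖((u w * χ n : Un d) : Ma d) - t • 1‖
          = ‖(((u w * χ n : Un d) : Ma d) - ((u w * χ n0 : Un d) : Ma d))
            + (((u w * χ n0 : Un d) : Ma d) - t • 1)‖ := by congr 1; abel
        _ ≤ 1 / ((j : ℝ) + 1) + 1 / ((j : ℝ) + 1) := (norm_add_le _ _).trans (add_le_add h4 ht2.le)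
        _ = 2 / ((j : ℝ) + 1) := by ring
    · push Not at hex
      exact ⟨0, fun n hn => absurd hn (hex n)⟩
  choose a ha using ha
  exact ⟨u, V, a, hu, hVn, ha⟩

/-- Same data implies equality of the scalars on `koSub`. -/
theorem kap_eq_one_of_same_data {d e : ℕ} {χ : N →* Un d} {χ' : N →* Un e}
    (θ : FreeGroup ℕ →* G) (hθ : Dense {x : G | ∃ w, ∃ n : N, x = θ w * n})
    (u : FreeGroup ℕ →* Un d) (u' : FreeGroup ℕ →* Un e) (V V' : ℕ → Set G)
    (a : FreeGroup ℕ → ℕ → ℂ)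
    (hu : ∀ w, Impl χ (θ w) (u w)) (hu' : ∀ w, Impl χ' (θ w) (u' w))
    (hV : ∀ j, V j ∈ 𝓝 (1 : G)) (hV' : ∀ j, V' j ∈ 𝓝 (1 : G))
    (ha : ∀ w j (n : N), θ w * n ∈ V j → ‖a w j‖ = 1 ∧
        ‖((u w * χ n : Un d) : Ma d) - a w j • 1‖ ≤ 2 / ((j : ℝ) + 1))
    (ha' : ∀ w j (n : N), θ w * n ∈ V' j → ‖a w j‖ = 1 ∧
        ‖((u' w * χ' n : Un e) : Ma e) - a w j • 1‖ ≤ 2 / ((j : ℝ) + 1))
    (k : N) (hk : (k : G) ∈ koSub G) : kap d e (χ k, χ' k) = 1 := by
  have hconj : ∀ {d : ℕ} {χ : N →* Un d} {u : FreeGroup ℕ →* Un d}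
      (_ : ∀ w, Impl χ (θ w) (u w)) (w v : FreeGroup ℕ) (n m : N),
      u (w * v) * χ (MulAut.conjNormal (θ v)⁻¹ n * m) = (u w * χ n) * (u v * χ m) := by
    intro d χ u hu w v n m
    have h1 := (hu v).inv n
    rw [map_mul, map_mul]
    have h2 : χ (MulAut.conjNormal (θ v)⁻¹ n) = (u v)⁻¹ * χ n * u v := by
      rw [h1, inv_mul_cancel_right]
    rw [h2]
    group
  have hconjG : ∀ (w v : FreeGroup ℕ) (n m : N),
      θ (w * v) * ((MulAut.conjNormal (θ v)⁻¹ n * m : N) : G) = (θ w * n) * (θ v * m) := by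
    intro w v n m
    rw [Subgroup.coe_mul, MulAut.conjNormal_apply, map_mul]
    group
  let Γ : Subgroup (G × (Un d × Un e)) :=
    { carrier := {p | ∃ w, ∃ n : N, p = (θ w * n, (u w * χ n, u' w * χ' n))}
      mul_mem' := by
        rintro _ _ ⟨w, n, rfl⟩ ⟨v, m, rfl⟩
        refine ⟨w * v, MulAut.conjNormal (θ v)⁻¹ n * m, ?_⟩
        rw [hconj hu, hconj hu', hconjG]
        rfl
      one_mem' := ⟨1, 1, by simp only [map_one, Subgroup.coe_one, mul_one]; rfl⟩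
      inv_mem' := by
        rintro _ ⟨w, n, rfl⟩
        refine ⟨w⁻¹, MulAut.conjNormal (θ w⁻¹)⁻¹ n⁻¹, ?_⟩
        have e1 := hconjG w w⁻¹ n (MulAut.conjNormal (θ w⁻¹)⁻¹ n)⁻¹
        have e2 := hconj hu w w⁻¹ n (MulAut.conjNormal (θ w⁻¹)⁻¹ n)⁻¹
        have e3 := hconj hu' w w⁻¹ n (MulAut.conjNormal (θ w⁻¹)⁻¹ n)⁻¹
        simp only [mul_inv_cancel, map_one, Subgroup.coe_one, mul_one] at e1 e2 e3
        have f1 : (θ w * (n : G))⁻¹ = θ w⁻¹ * ((MulAut.conjNormal (θ w⁻¹)⁻¹ n⁻¹ : N) : G) := by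
          rw [inv_eq_iff_mul_eq_one, map_inv (MulAut.conjNormal (θ w⁻¹)⁻¹)]
          exact e1.symm
        have f2 : (u w * χ n)⁻¹ = u w⁻¹ * χ (MulAut.conjNormal (θ w⁻¹)⁻¹ n⁻¹) := by
          rw [inv_eq_iff_mul_eq_one, map_inv (MulAut.conjNormal (θ w⁻¹)⁻¹)]
          exact e2.symm
        have f3 : (u' w * χ' n)⁻¹ = u' w⁻¹ * χ' (MulAut.conjNormal (θ w⁻¹)⁻¹ n⁻¹) := by
          rw [inv_eq_iff_mul_eq_one, map_inv (MulAut.conjNormal (θ w⁻¹)⁻¹)]
          exact e3.symm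
        rw [← f1, ← f2, ← f3]
        rfl }
  have hΓd : Dense {g : G | ∃ p, (g, p) ∈ Γ.topologicalClosure} := by
    refine hθ.mono ?_
    rintro x ⟨w, n, rfl⟩
    exact ⟨(u w * χ n, u' w * χ' n), Γ.le_topologicalClosure ⟨w, n, rfl⟩⟩
  have hfib : ∀ p : Un d × Un e, ((1 : G), p) ∈ Γ.topologicalClosure → kap d e p = 1 := by
    rintro ⟨v, v'⟩ hp
    refine kap_eq_one_of_close v v' (fun ε hε => ?_)
    obtain ⟨j, hj⟩ := exists_nat_one_div_lt (show (0 : ℝ) < ε / 3 by positivity)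
    have hj0 : (0 : ℝ) < 1 / ((j : ℝ) + 1) := by positivity
    have hB : {x : Un d | ‖(x : Ma d) - v‖ < 1 / ((j : ℝ) + 1)} ∈ 𝓝 v := by
      refine (isOpen_lt ((continuous_subtype_val.sub continuous_const).norm)
        continuous_const).mem_nhds ?_
      show ‖((v : Un d) : Ma d) - v‖ < _
      rw [sub_self, norm_zero]
      exact hj0
    have hB' : {x : Un e | ‖(x : Ma e) - v'‖ < 1 / ((j : ℝ) + 1)} ∈ 𝓝 v' := by
      refine (isOpen_lt ((continuous_subtype_val.sub continuous_const).norm)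
        continuous_const).mem_nhds ?_
      show ‖((v' : Un e) : Ma e) - v'‖ < _
      rw [sub_self, norm_zero]
      exact hj0
    have hcl : ((1 : G), (v, v')) ∈ closure (Γ : Set (G × (Un d × Un e))) := hp
    rw [mem_closure_iff_nhds] at hcl
    obtain ⟨_, ⟨⟨hg1, hg2⟩, hx, hx'⟩, w, n, rfl⟩ := hcl _
      (prod_mem_nhds (inter_mem (hV j) (hV' j)) (prod_mem_nhds hB hB'))
    obtain ⟨ht, h1⟩ := ha w j n hg1
    obtain ⟨-, h2⟩ := ha' w j n hg2
    have h3 : 3 / ((j : ℝ) + 1) < ε := by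
      have : 3 / ((j : ℝ) + 1) = 3 * (1 / ((j : ℝ) + 1)) := by ring
      rw [this]
      linarith
    refine ⟨a w j, ht, ?_, ?_⟩
    · calc ‖(v : Ma d) - a w j • 1‖
          = ‖(((u w * χ n : Un d) : Ma d) - a w j • 1)
            - (((u w * χ n : Un d) : Ma d) - v)‖ := by congr 1; abel
        _ ≤ 2 / ((j : ℝ) + 1) + 1 / ((j : ℝ) + 1) :=
            (norm_sub_le _ _).trans (add_le_add h1 (le_of_lt hx))
        _ = 3 / ((j : ℝ) + 1) := by ring
        _ ≤ ε := h3.le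
    · calc ‖(v' : Ma e) - a w j • 1‖
          = ‖(((u' w * χ' n : Un e) : Ma e) - a w j • 1)
            - (((u' w * χ' n : Un e) : Ma e) - v')‖ := by congr 1; abel
        _ ≤ 2 / ((j : ℝ) + 1) + 1 / ((j : ℝ) + 1) :=
            (norm_sub_le _ _).trans (add_le_add h2 (le_of_lt hx'))
        _ = 3 / ((j : ℝ) + 1) := by ring
        _ ≤ ε := h3.le
  obtain ⟨ρ, hρc, hρ⟩ := ext_hom Γ.topologicalClosure Γ.isClosed_topologicalClosure hΓd
    (kap d e) (continuous_kap d e) hfib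
  have h1 := hρ (k : G) (χ k, χ' k) (Γ.le_topologicalClosure ⟨1, k, by simp⟩)
  rw [hk _ ρ hρc] at h1
  exact h1.symm

end Pool.Agent.Helper37.KO
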