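import Mathlib
import Pool.Agent.Lib_helper37.KoUnit

/-!
A finite dimensional unitary representation in which `k` acts non-trivially has an irreducible
piece (in matrix form) in which `k` acts non-trivially.
-/

open Filter Topology
open scoped InnerProductSpace

set_option linter.unusedSectionVars false

namespace Pool.Agent.Helper37.KO

universe u v

variable {N : Type u} [Group N] [TopologicalSpace N]

/-- A continuous isometric representation. -/
structure URep (N : Type u) [Group N] [TopologicalSpace N] (V : Type v) [NormedAddCommGroup V]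
    [InnerProductSpace ℂ V] where
  π : N → V →ₗ[ℂ] V
  one : π 1 = LinearMap.id
  mul : ∀ a b, π (a * b) = (π a).comp (π b)
  norm : ∀ a v, ‖π a v‖ = ‖v‖
  cont : ∀ v, Continuous (fun a => π a v)

namespace URep

variable {V : Type v} [NormedAddCommGroup V] [InnerProductSpace ℂ V]

lemma inner_map (R : URep N V) (a : N) (v w : V) : ⟪R.π a v, R.π a w⟫_ℂ = ⟪v, w⟫_ℂ :=
  LinearIsometry.inner_map_map (⟨R.π a, R.norm a⟩ : V →ₗᵢ[ℂ] V) v w

lemma inv_apply (R : URep N V) (a : N) (v : V) : R.π a (R.π a⁻¹ v) = v := by
  rw [← LinearMap.comp_apply, ← R.mul, mul_inv_cancel, R.one]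
  rfl

lemma inner_inv (R : URep N V) (a : N) (v w : V) : ⟪R.π a⁻¹ v, w⟫_ℂ = ⟪v, R.π a w⟫_ℂ := by
  rw [← R.inner_map a (R.π a⁻¹ v) w, R.inv_apply]

/-- Restriction to an invariant subspace. -/
def restr (R : URep N V) (W : Submodule ℂ V) (hW : ∀ a, ∀ v ∈ W, R.π a v ∈ W) : URep N W where
  π a := (R.π a).restrict (hW a)
  one := by
    ext v
    simp [R.one]
  mul a b := by
    ext v
    simp [R.mul]
  norm a v := by
    have := R.norm a (v : V)
    simpa using this
  cont v := by
    rw [continuous_induced_rng]
    exact R.cont (v : V)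

lemma restr_apply (R : URep N V) (W : Submodule ℂ V) (hW : ∀ a, ∀ v ∈ W, R.π a v ∈ W) (a : N)
    (v : W) : (((R.restr W hW).π a v : W) : V) = R.π a v := rfl

lemma orth_invariant (R : URep N V) (W : Submodule ℂ V) (hW : ∀ a, ∀ v ∈ W, R.π a v ∈ W) :
    ∀ a, ∀ v ∈ Wᗮ, R.π a v ∈ Wᗮ := by
  intro a v hv
  rw [Submodule.mem_orthogonal]
  intro w hw
  rw [← R.inner_inv]
  exact (Submodule.mem_orthogonal W v).mp hv _ (hW a⁻¹ w hw)

variable [FiniteDimensional ℂ V]

/-- If the commutant is trivial we get an irreducible matrix representation. -/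
lemma exists_matrix (R : URep N V) (k : N) (hk : R.π k ≠ LinearMap.id)
    (hirr : ∀ X : V →ₗ[ℂ] V, (∀ a, X.comp (R.π a) = (R.π a).comp X) →
      ∃ c : ℂ, X = c • LinearMap.id) :
    ∃ d, 0 < d ∧ ∃ χ : N →* Un d, Continuous χ ∧ Irr χ ∧ χ k ≠ 1 := by
  set d := Module.finrank ℂ V with hd
  have hd0 : 0 < d := by
    rw [hd, Module.finrank_pos_iff_exists_ne_zero]
    by_contra h
    push Not at h
    apply hk
    ext v
    rw [h v, map_zero, map_zero]
  let b := stdOrthonormalBasis ℂ V
  let M : (V →ₗ[ℂ] V) ≃⋆ₐ[ℂ] Ma d := LinearMap.toMatrixOrthonormal b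
  have hMone : M (LinearMap.id) = 1 := map_one M
  have hMcomp : ∀ f g : V →ₗ[ℂ] V, M (f.comp g) = M f * M g := fun f g => map_mul M f g
  have hun : ∀ a, M (R.π a) ∈ Matrix.unitaryGroup (Fin d) ℂ := by
    intro a
    rw [Matrix.mem_unitaryGroup_iff']
    have h1 : star (M (R.π a)) = M (star (R.π a)) := (map_star M _).symm
    have h2 : star (R.π a) * R.π a = 1 := by
      ext v
      refine ext_inner_left ℂ (fun w => ?_)
      rw [Module.End.mul_apply, LinearMap.star_eq_adjoint, LinearMap.adjoint_inner_right,
        R.inner_map]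
      rfl
    rw [h1, ← map_mul, h2, map_one]
  let χ : N →* Un d :=
    { toFun := fun a => ⟨M (R.π a), hun a⟩
      map_one' := by
        apply Subtype.ext
        show M (R.π 1) = 1
        rw [R.one, hMone]
      map_mul' := by
        intro x y
        apply Subtype.ext
        show M (R.π (x * y)) = M (R.π x) * M (R.π y)
        rw [R.mul, hMcomp] }
  refine ⟨d, hd0, χ, ?_, ?_, ?_⟩
  · rw [continuous_induced_rng]
    refine continuous_matrix (fun i j => ?_)
    show Continuous (fun a => M (R.π a) i j)
    have : (fun a => M (R.π a) i j) = fun a => ⟪b i, R.π a (b j)⟫_ℂ := by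
      funext a
      exact LinearMap.toMatrixOrthonormal_apply_apply b (R.π a) i j
    rw [this]
    exact continuous_const.inner (R.cont (b j))
  · intro X hX
    have hMinj : Function.Injective M := M.injective
    obtain ⟨c, hc⟩ := hirr (M.symm X) (fun a => by
      refine hMinj ?_
      rw [hMcomp, hMcomp, M.apply_symm_apply]
      exact hX a)
    refine ⟨c, ?_⟩
    rw [← M.apply_symm_apply X, hc, map_smul, hMone]
  · intro h
    apply hk
    have hMinj : Function.Injective M := M.injective
    refine hMinj ?_
    rw [hMone]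
    exact congrArg (fun x : Un d => (x : Ma d)) h

/-- The reduction to irreducible representations. -/
theorem exists_irr (k : N) (m : ℕ) : ∀ (V : Type v) [NormedAddCommGroup V]
    [InnerProductSpace ℂ V] [FiniteDimensional ℂ V] (R : URep N V),
    Module.finrank ℂ V ≤ m → R.π k ≠ LinearMap.id →
    ∃ d, 0 < d ∧ ∃ χ : N →* Un d, Continuous χ ∧ Irr χ ∧ χ k ≠ 1 := by
  induction m with
  | zero =>
    intro V _ _ _ R hV hk
    exfalso
    apply hk
    have : Subsingleton V := Module.finrank_zero_iff.mp (Nat.le_zero.mp hV)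
    ext v
    exact Subsingleton.elim _ _
  | succ m ih =>
    intro V _ _ _ R hV hk
    by_cases hirr : ∀ X : V →ₗ[ℂ] V, (∀ a, X.comp (R.π a) = (R.π a).comp X) →
      ∃ c : ℂ, X = c • LinearMap.id
    · exact R.exists_matrix k hk hirr
    · push Not at hirr
      obtain ⟨X, hX, hXs⟩ := hirr
      have hnt : Nontrivial V := by
        rw [← not_subsingleton_iff_nontrivial]
        intro h
        apply hk
        ext v
        exact Subsingleton.elim _ _
      obtain ⟨c, hc⟩ := Module.End.exists_eigenvalue X
      set W := Module.End.eigenspace X c with hW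
      have hWinv : ∀ a, ∀ v ∈ W, R.π a v ∈ W := by
        intro a v hv
        rw [hW, Module.End.mem_eigenspace_iff] at hv ⊢
        have h1 := congrArg (fun f : V →ₗ[ℂ] V => f v) (hX a)
        simp only [LinearMap.comp_apply] at h1
        rw [h1, hv, map_smul]
      have hWbot : W ≠ ⊥ := hc
      have hWtop : W ≠ ⊤ := by
        intro h
        apply hXs c
        ext v
        have : v ∈ W := by rw [h]; exact Submodule.mem_top
        rw [hW, Module.End.mem_eigenspace_iff] at this
        simpa using this
      have hWo := R.orth_invariant W hWinv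
      have hlt1 : Module.finrank ℂ W ≤ m := by
        have := Submodule.finrank_lt hWtop
        omega
      have hlt2 : Module.finrank ℂ (Wᗮ : Submodule ℂ V) ≤ m := by
        have h1 : (Wᗮ : Submodule ℂ V) ≠ ⊤ := by
          intro h
          apply hWbot
          rw [← Submodule.orthogonal_orthogonal W, h, Submodule.top_orthogonal_eq_bot]
        have := Submodule.finrank_lt h1
        omega
      by_cases h1 : (R.restr W hWinv).π k = LinearMap.id
      · refine ih _ (R.restr Wᗮ hWo) hlt2 ?_
        intro h2
        apply hk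
        ext v
        obtain ⟨x, hx, y, hy, rfl⟩ := W.exists_add_mem_mem_orthogonal v
        have e1 : R.π k x = x := by
          have := congrArg (fun f : W →ₗ[ℂ] W => ((f ⟨x, hx⟩ : W) : V)) h1
          simpa [restr_apply] using this
        have e2 : R.π k y = y := by
          have := congrArg (fun f : (Wᗮ : Submodule ℂ V) →ₗ[ℂ] (Wᗮ : Submodule ℂ V) =>
            ((f ⟨y, hy⟩ : (Wᗮ : Submodule ℂ V)) : V)) h2
          simpa [restr_apply] using this
        rw [map_add, e1, e2]
        rfl
      · exact ih _ (R.restr W hWinv) hlt1 h1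

end URep

end Pool.Agent.Helper37.KO
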