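import Mathlib

/-!
A Kakutani-Kodaira type theorem for connected locally compact groups.
-/

open Filter Topology
open scoped Pointwise

set_option linter.unusedSectionVars false

namespace Pool.Agent.Helper37.KO

variable {G : Type*} [Group G] [TopologicalSpace G] [IsTopologicalGroup G] [T2Space G]
  [LocallyCompactSpace G]

/-- Connected locally compact groups are sigma-compact. -/
theorem sigmaCompact_of_connected [ConnectedSpace G] : SigmaCompactSpace G := by
  obtain ⟨C, hC, hC1⟩ := exists_compact_mem_nhds (1 : G)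
  set S : Set G := C ∪ C⁻¹ with hS
  have hSc : IsCompact S := hC.union hC.inv
  have hSinv : S⁻¹ = S := by
    rw [hS, Set.union_inv, inv_inv, Set.union_comm]
  let P : Subgroup G :=
    { carrier := ⋃ n : ℕ, S ^ n
      mul_mem' := by
        intro a b ha hb
        obtain ⟨m, hm⟩ := Set.mem_iUnion.mp ha
        obtain ⟨n, hn⟩ := Set.mem_iUnion.mp hb
        refine Set.mem_iUnion.mpr ⟨m + n, ?_⟩
        rw [pow_add]
        exact Set.mul_mem_mul hm hn
      one_mem' := Set.mem_iUnion.mpr ⟨0, by simp⟩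
      inv_mem' := by
        intro a ha
        obtain ⟨m, hm⟩ := Set.mem_iUnion.mp ha
        refine Set.mem_iUnion.mpr ⟨m, ?_⟩
        have : (S ^ m)⁻¹ = S ^ m := by rw [← inv_pow, hSinv]
        rw [← this]
        simpa using hm }
  have hP : (P : Set G) ∈ 𝓝 (1 : G) := by
    refine mem_of_superset hC1 (fun x hx => ?_)
    exact Set.mem_iUnion.mpr ⟨1, by rw [pow_one]; exact Or.inl hx⟩
  have hPo : IsOpen (P : Set G) := P.isOpen_of_mem_nhds hP
  have hPc : IsClopen (P : Set G) := ⟨P.isClosed_of_isOpen hPo, hPo⟩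
  have h1 := hPc.eq_univ ⟨1, P.one_mem⟩
  have h2 : ∀ n : ℕ, IsCompact (S ^ n) := by
    intro n
    induction n with
    | zero => rw [pow_zero]; exact isCompact_singleton
    | succ n ih => rw [pow_succ]; exact ih.mul hSc
  exact ⟨⟨fun n => S ^ n, h2, h1⟩⟩

/-- Small symmetric neighbourhoods. -/
lemma exists_step {U : Set G} (hU : U ∈ 𝓝 (1 : G)) {K : Set G} (hK : IsCompact K) :
    ∃ W : Set G, IsOpen W ∧ (1 : G) ∈ W ∧ W⁻¹ = W ∧ W * W ⊆ U ∧
      ∀ g ∈ K, ∀ v ∈ W, g * v * g⁻¹ ∈ U := by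
  obtain ⟨A, hA, hAo⟩ := exists_open_nhds_one_mul_subset hU
  have hev : ∀ᶠ v in 𝓝 (1 : G), ∀ g ∈ K, g * v * g⁻¹ ∈ U := by
    refine hK.eventually_forall_of_forall_eventually (fun g _ => ?_)
    have h1 : Tendsto (fun p : G × G => p.2 * p.1 * p.2⁻¹) (𝓝 ((1 : G), g)) (𝓝 (g * 1 * g⁻¹)) := by
      have : Continuous (fun p : G × G => p.2 * p.1 * p.2⁻¹) := by fun_prop
      exact this.tendsto ((1 : G), g)
    rw [mul_one, mul_inv_cancel] at h1
    exact h1 hU
  obtain ⟨B, hB, hBo, hB1⟩ := mem_nhds_iff.mp hev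
  refine ⟨(A ∩ B) ∩ (A ∩ B)⁻¹, ?_, ?_, ?_, ?_, ?_⟩
  · exact (hA.inter hBo).inter (hA.inter hBo).inv
  · exact ⟨⟨hAo.1, hB1⟩, by simpa using ⟨hAo.1, hB1⟩⟩
  · rw [Set.inter_inv, inv_inv, Set.inter_comm]
  · rintro _ ⟨x, hx, y, hy, rfl⟩
    exact hAo.2 (Set.mul_mem_mul hx.1.1 hy.1.1)
  · intro g hg v hv
    exact hB hv.1.2 g hg

/-- Kakutani-Kodaira. -/
theorem kakutani_kodaira [ConnectedSpace G] :
    ∃ N : Subgroup G, N.Normal ∧ IsCompact (N : Set G) ∧
      (∃ O : ℕ → Set G, (∀ n, IsOpen (O n)) ∧ (N : Set G) = ⋂ n, O n) ∧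
      ∃ D : ℕ → G, Dense {x : G | ∃ i, ∃ n ∈ N, x = D i * n} := by
  have hsig : SigmaCompactSpace G := sigmaCompact_of_connected
  let E := CompactExhaustion.choice G
  obtain ⟨C, hC, hC1⟩ := exists_compact_mem_nhds (1 : G)
  have hstep : ∀ (U : {U : Set G // U ∈ 𝓝 (1 : G)}) (n : ℕ), ∃ W : Set G, IsOpen W ∧ (1 : G) ∈ W ∧
      W⁻¹ = W ∧ W * W ⊆ U.1 ∧ ∀ g ∈ E n, ∀ v ∈ W, g * v * g⁻¹ ∈ U.1 :=
    fun U n => exists_step U.2 (E.isCompact n)
  choose step hso hs1 hsi hsm hsc using hstep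
  let V : ℕ → {U : Set G // U ∈ 𝓝 (1 : G)} := fun n =>
    Nat.rec ⟨C, hC1⟩ (fun k U => ⟨step U k, (hso U k).mem_nhds (hs1 U k)⟩) n
  let W : ℕ → Set G := fun n => (V n).1
  have hW0 : W 0 = C := rfl
  have hWs : ∀ n, W (n + 1) = step (V n) n := fun n => rfl
  have hWo : ∀ n, IsOpen (W (n + 1)) := fun n => hso (V n) n
  have hWn : ∀ n, W n ∈ 𝓝 (1 : G) := fun n => (V n).2
  have hW1 : ∀ n, (1 : G) ∈ W n := fun n => mem_of_mem_nhds (hWn n)
  have hWi : ∀ n, (W (n + 1))⁻¹ = W (n + 1) := fun n => hsi (V n) n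
  have hWm : ∀ n, W (n + 1) * W (n + 1) ⊆ W n := fun n => hsm (V n) n
  have hWc : ∀ n, ∀ g ∈ E n, ∀ v ∈ W (n + 1), g * v * g⁻¹ ∈ W n := fun n => hsc (V n) n
  have hWsub : ∀ n, W (n + 1) ⊆ W n := fun n x hx => by
    have := hWm n (Set.mul_mem_mul hx (hW1 (n + 1)))
    simpa using this
  have hWanti : Antitone W := antitone_nat_of_succ_le hWsub
  have hWcl : ∀ n, closure (W (n + 1)) ⊆ W n := by
    intro n x hx
    have h1 : (fun v => x * v) '' W (n + 1) ∈ 𝓝 x := by
      have h2 := (Homeomorph.mulLeft x).isOpenMap.image_mem_nhds (hWn (n + 1))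
      simpa using h2
    obtain ⟨y, ⟨v, hv, hvy⟩, hy⟩ := mem_closure_iff_nhds.mp hx _ h1
    have hv' : v⁻¹ ∈ W (n + 1) := by
      rw [← hWi n]
      simpa using hv
    have h3 := hWm n (Set.mul_mem_mul hy hv')
    have h4 : y * v⁻¹ = x := by
      rw [← hvy]
      simp
    rwa [h4] at h3
  let N : Subgroup G :=
    { carrier := ⋂ n, W n
      mul_mem' := by
        intro a b ha hb
        refine Set.mem_iInter.mpr (fun n => hWm n ?_)
        exact Set.mul_mem_mul (Set.mem_iInter.mp ha (n + 1)) (Set.mem_iInter.mp hb (n + 1))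
      one_mem' := Set.mem_iInter.mpr hW1
      inv_mem' := by
        intro a ha
        refine Set.mem_iInter.mpr (fun n => hWsub n ?_)
        rw [← hWi n]
        simpa using Set.mem_iInter.mp ha (n + 1) }
  have hNmem : ∀ x, x ∈ N ↔ ∀ n, x ∈ W n := fun x => Set.mem_iInter
  have hNnorm : N.Normal := by
    refine ⟨fun v hv g => ?_⟩
    rw [hNmem] at hv ⊢
    obtain ⟨m, hm⟩ := E.exists_mem g
    intro n
    have h1 : g ∈ E (max m n) := E.subset (le_max_left m n) hm
    exact hWanti (le_max_right m n) (hWc (max m n) g h1 v (hv (max m n + 1)))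
  have hNcl : (N : Set G) = ⋂ n, closure (W (n + 1)) := by
    apply Set.Subset.antisymm
    · intro x hx
      exact Set.mem_iInter.mpr (fun n => subset_closure ((hNmem x).mp hx (n + 1)))
    · intro x hx
      exact (hNmem x).mpr (fun n => hWcl n (Set.mem_iInter.mp hx n))
  have hcc : ∀ n, IsCompact (closure (W (n + 1))) := by
    intro n
    refine hC.of_isClosed_subset isClosed_closure ?_
    exact (hWcl n).trans (hWanti (Nat.zero_le n))
  have hNcomp : IsCompact (N : Set G) := by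
    refine (hcc 0).of_isClosed_subset ?_ ?_
    · rw [hNcl]
      exact isClosed_iInter (fun n => isClosed_closure)
    · rw [hNcl]
      exact Set.iInter_subset _ 0
  refine ⟨N, hNnorm, hNcomp, ⟨fun n => W (n + 1), hWo, ?_⟩, ?_⟩
  · apply Set.Subset.antisymm
    · intro x hx
      exact Set.mem_iInter.mpr (fun n => (hNmem x).mp hx (n + 1))
    · intro x hx
      exact (hNmem x).mpr (fun n => hWsub n (Set.mem_iInter.mp hx n))
  · have hcov : ∀ n, ∃ s : Set G, s.Countable ∧ ⋃ x ∈ s, (fun v => x * v) '' W n = Set.univ := by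
      intro n
      refine countable_cover_nhds_of_sigmaCompact (fun x => ?_)
      have h2 := (Homeomorph.mulLeft x).isOpenMap.image_mem_nhds (hWn n)
      simpa using h2
    choose s hsc' hscov using hcov
    have hcount : (⋃ n, s n).Countable := Set.countable_iUnion hsc'
    have hne : (⋃ n, s n).Nonempty := by
      have h1 : (1 : G) ∈ ⋃ x ∈ s 0, (fun v => x * v) '' W 0 := by
        rw [hscov 0]; exact Set.mem_univ _
      simp only [Set.mem_iUnion] at h1
      obtain ⟨x, hx, -⟩ := h1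
      exact ⟨x, Set.mem_iUnion.mpr ⟨0, hx⟩⟩
    obtain ⟨D, hD⟩ := hcount.exists_eq_range hne
    refine ⟨D, ?_⟩
    intro x
    rw [mem_closure_iff]
    intro O hO hxO
    let A : Set G := (fun v => x * v) ⁻¹' O
    have hAo : IsOpen A := hO.preimage (continuous_const.mul continuous_id)
    have hA1 : (1 : G) ∈ A := by simpa [A] using hxO
    have hANo : IsOpen (A * (N : Set G)) := hAo.mul_right
    obtain ⟨n, hn⟩ := exists_subset_nhds_of_isCompact' (V := fun n => closure (W (n + 1)))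
      (directed_of_isDirected_le (fun m n hmn => closure_mono (hWanti (Nat.succ_le_succ hmn))))
      hcc (fun n => isClosed_closure) (U := A * (N : Set G)) (fun y hy => by
        refine hANo.mem_nhds ?_
        rw [← hNcl] at hy
        exact ⟨1, hA1, y, hy, one_mul y⟩)
    have hx : x ∈ ⋃ y ∈ s (n + 1), (fun v => y * v) '' W (n + 1) := by
      rw [hscov]; exact Set.mem_univ _
    simp only [Set.mem_iUnion] at hx
    obtain ⟨y, hy, v, hv, hyv⟩ := hx
    have hv' : v⁻¹ ∈ W (n + 1) := by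
      rw [← hWi n]
      simpa using hv
    obtain ⟨a, ha, m, hm, ham⟩ := hn (subset_closure hv')
    have hyD : y ∈ Set.range D := by
      rw [← hD]
      exact Set.mem_iUnion.mpr ⟨n + 1, hy⟩
    obtain ⟨i, hi⟩ := hyD
    refine ⟨x * a, ha, i, m⁻¹, N.inv_mem hm, ?_⟩
    have h5 : y = x * v⁻¹ := by
      rw [← hyv]
      simp
    have h6 : a * m = v⁻¹ := ham
    rw [hi, h5, ← h6]
    group

end Pool.Agent.Helper37.KO
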