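import Mathlib
import Pool.Agent.Lib_helper37.KoFd

/-!
Peter-Weyl: irreducible continuous unitary matrix representations of a compact group separate
points.
-/

open Filter Topology MeasureTheory
open scoped InnerProductSpace BoundedContinuousFunction ENNReal

set_option linter.unusedSectionVars false

namespace Pool.Agent.Helper37.KO

variable {N : Type*} [Group N] [TopologicalSpace N] [IsTopologicalGroup N] [CompactSpace N]
  [T2Space N] [MeasurableSpace N] [BorelSpace N]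
  (μ : Measure N) [IsProbabilityMeasure μ] [μ.IsMulLeftInvariant] [μ.Regular]
  [μ.IsOpenPosMeasure]

/-- The Hilbert space. -/
noncomputable abbrev HL := ↥(Lp ℂ 2 μ)

/-- Left translation. -/
noncomputable def Lt (n : N) : HL μ →ₗᵢ[ℂ] HL μ :=
  Lp.compMeasurePreservingₗᵢ ℂ (fun z => n⁻¹ * z) (measurePreserving_mul_left μ n⁻¹)

lemma Lt_toLp (n : N) (g : N →ᵇ ℂ) (g' : N →ᵇ ℂ) (h : ∀ z, g' z = g (n⁻¹ * z)) :
    Lt μ n (BoundedContinuousFunction.toLp 2 μ ℂ g) = BoundedContinuousFunction.toLp 2 μ ℂ g' := by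
  apply Lp.ext
  have h1 : (Lt μ n (BoundedContinuousFunction.toLp 2 μ ℂ g) : N → ℂ)
      =ᵐ[μ] (BoundedContinuousFunction.toLp 2 μ ℂ g : N → ℂ) ∘ (fun z => n⁻¹ * z) :=
    Lp.coeFn_compMeasurePreserving _ (measurePreserving_mul_left μ n⁻¹)
  have h2 := (measurePreserving_mul_left μ n⁻¹).quasiMeasurePreserving.ae_eq_comp
    (BoundedContinuousFunction.coeFn_toLp (p := 2) (μ := μ) (𝕜 := ℂ) g)
  have h3 := BoundedContinuousFunction.coeFn_toLp (p := 2) (μ := μ) (𝕜 := ℂ) g'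
  filter_upwards [h1, h2, h3] with z e1 e2 e3
  rw [e1, e2, e3, h]
  rfl

lemma Lt_mul (a b : N) (h : HL μ) : Lt μ (a * b) h = Lt μ a (Lt μ b h) := by
  apply Lp.ext
  have h1 : (Lt μ (a * b) h : N → ℂ) =ᵐ[μ] (h : N → ℂ) ∘ (fun z => (a * b)⁻¹ * z) :=
    Lp.coeFn_compMeasurePreserving _ (measurePreserving_mul_left μ (a * b)⁻¹)
  have h2 : (Lt μ a (Lt μ b h) : N → ℂ) =ᵐ[μ] (Lt μ b h : N → ℂ) ∘ (fun z => a⁻¹ * z) :=
    Lp.coeFn_compMeasurePreserving _ (measurePreserving_mul_left μ a⁻¹)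
  have h3 : (Lt μ b h : N → ℂ) =ᵐ[μ] (h : N → ℂ) ∘ (fun z => b⁻¹ * z) :=
    Lp.coeFn_compMeasurePreserving _ (measurePreserving_mul_left μ b⁻¹)
  have h4 := (measurePreserving_mul_left μ a⁻¹).quasiMeasurePreserving.ae_eq_comp h3
  filter_upwards [h1, h2, h4] with z e1 e2 e4
  rw [e1, e2, e4]
  simp [mul_assoc]

lemma Lt_one (h : HL μ) : Lt μ 1 h = h := by
  apply Lp.ext
  have h1 : (Lt μ 1 h : N → ℂ) =ᵐ[μ] (h : N → ℂ) ∘ (fun z => (1 : N)⁻¹ * z) :=
    Lp.coeFn_compMeasurePreserving _ (measurePreserving_mul_left μ (1 : N)⁻¹)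
  filter_upwards [h1] with z e1
  rw [e1]
  simp

lemma Lt_inv_inner (n : N) (a b : HL μ) : ⟪Lt μ n⁻¹ a, b⟫_ℂ = ⟪a, Lt μ n b⟫_ℂ := by
  rw [← (Lt μ n).inner_map_map (Lt μ n⁻¹ a) b, ← Lt_mul, mul_inv_cancel, Lt_one]

lemma Lt_continuous (h : HL μ) : Continuous (fun n : N => Lt μ n h) := by
  have hfact : Fact ((2 : ℝ≥0∞) ≠ ∞) := ⟨ENNReal.ofNat_ne_top⟩
  have h1 : Continuous (fun y : N => DomMulAct.mk y⁻¹ • h) := by
    have h1 : Continuous (fun y : N => (DomMulAct.mk y⁻¹ : Nᵈᵐᵃ)) :=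
      DomMulAct.continuous_mk.comp continuous_inv
    exact h1.smul continuous_const
  exact h1

section Kernel

variable (f : C(N, ℂ))

/-- The kernel functions `z ↦ f (x⁻¹ z)`. -/
noncomputable def kerF : C(N, C(N, ℂ)) :=
  (ContinuousMap.mk (fun p : N × N => f (p.1⁻¹ * p.2)) (by fun_prop)).curry

lemma kerF_apply (x z : N) : kerF f x z = f (x⁻¹ * z) := rfl

/-- The kernel as a continuous map to `L²`. -/
noncomputable def phi (x : N) : HL μ := ContinuousMap.toLp 2 μ ℂ (kerF f x)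

lemma continuous_phi : Continuous (phi μ f) :=
  (ContinuousMap.toLp 2 μ ℂ).continuous.comp (kerF f).continuous

lemma exists_phi_bound : ∃ C : ℝ, 0 ≤ C ∧ ∀ x, ‖phi μ f x‖ ≤ C := by
  obtain ⟨C, hC⟩ := isCompact_univ.exists_bound_of_continuousOn (continuous_phi μ f).continuousOn
  exact ⟨max C 0, le_max_right _ _, fun x => (hC x (Set.mem_univ x)).trans (le_max_left _ _)⟩

/-- The operator into continuous functions. -/
lemma exists_S0 : ∃ S : HL μ →L[ℂ] (N →ᵇ ℂ), ∀ h x, S h x = ⟪phi μ f x, h⟫_ℂ := by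
  obtain ⟨C, hC0, hC⟩ := exists_phi_bound μ f
  let L : HL μ →ₗ[ℂ] (N →ᵇ ℂ) :=
    { toFun := fun h => BoundedContinuousFunction.mkOfCompact
        ⟨fun x => ⟪phi μ f x, h⟫_ℂ, (continuous_phi μ f).inner continuous_const⟩
      map_add' := by
        intro a b
        ext x
        simp [inner_add_right]
      map_smul' := by
        intro c a
        ext x
        simp [inner_smul_right] }
  refine ⟨L.mkContinuous C (fun h => ?_), fun h x => rfl⟩
  rw [BoundedContinuousFunction.norm_le (by positivity)]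
  intro x
  exact (norm_inner_le_norm _ _).trans (mul_le_mul_of_nonneg_right (hC x) (norm_nonneg _))

lemma compact_S0 {S : HL μ →L[ℂ] (N →ᵇ ℂ)} (hS : ∀ h x, S h x = ⟪phi μ f x, h⟫_ℂ) :
    IsCompactOperator S := by
  obtain ⟨C, hC0, hC⟩ := exists_phi_bound μ f
  refine (isCompactOperator_iff_isCompact_closure_image_ball (S : HL μ →ₗ[ℂ] (N →ᵇ ℂ))
    zero_lt_one).mpr ?_
  refine BoundedContinuousFunction.arzela_ascoli (Metric.closedBall (0 : ℂ) C)
    (isCompact_closedBall _ _) _ ?_ ?_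
  · rintro _ x ⟨h, hh, rfl⟩
    rw [mem_closedBall_zero_iff]
    show ‖S h x‖ ≤ C
    rw [hS]
    rw [mem_ball_zero_iff] at hh
    refine (norm_inner_le_norm _ _).trans ?_
    calc ‖phi μ f x‖ * ‖h‖ ≤ C * 1 := mul_le_mul (hC x) hh.le (norm_nonneg _) hC0
      _ = C := mul_one C
  · intro x₀
    rw [Metric.equicontinuousAt_iff_right]
    intro ε hε
    have h1 := (continuous_phi μ f).tendsto x₀
    rw [Metric.tendsto_nhds] at h1
    filter_upwards [h1 ε hε] with x hx
    rintro ⟨_, h, hh, rfl⟩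
    rw [mem_ball_zero_iff] at hh
    show dist (S h x₀) (S h x) < ε
    rw [hS, hS, dist_eq_norm, ← inner_sub_left]
    rw [dist_comm, dist_eq_norm] at hx
    refine (norm_inner_le_norm _ _).trans_lt ?_
    calc ‖phi μ f x₀ - phi μ f x‖ * ‖h‖ ≤ ‖phi μ f x₀ - phi μ f x‖ * 1 :=
          mul_le_mul_of_nonneg_left hh.le (norm_nonneg _)
      _ < ε := by rw [mul_one]; exact hx

lemma Lt_phi (n x : N) : Lt μ n (phi μ f x) = phi μ f (n * x) := by
  refine Lt_toLp μ n _ _ (fun z => ?_)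
  show kerF f (n * x) z = kerF f x (n⁻¹ * z)
  rw [kerF_apply, kerF_apply]
  congr 1
  simp [mul_assoc]

lemma S0_Lt {S : HL μ →L[ℂ] (N →ᵇ ℂ)} (hS : ∀ h x, S h x = ⟪phi μ f x, h⟫_ℂ) (n : N)
    (h : HL μ) (x : N) : S (Lt μ n h) x = S h (n⁻¹ * x) := by
  rw [hS, hS, ← Lt_inv_inner, Lt_phi]

end Kernel

/-- The operator `T = S* S` and its properties. -/
theorem exists_eigen (k : N) (hk : k ≠ 1) :
    ∃ (T : HL μ →L[ℂ] HL μ) (c : ℂ), IsCompactOperator T ∧ c ≠ 0 ∧
      (∀ n h, T (Lt μ n h) = Lt μ n (T h)) ∧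
      ∃ h ∈ Module.End.eigenspace (T : Module.End ℂ (HL μ)) c, Lt μ k h ≠ h := by
  -- a continuous function separating `k` and `1`
  obtain ⟨f₀, hf0, hf1, -⟩ := exists_continuous_zero_one_of_isClosed
    (isClosed_singleton (x := (1 : N))) (isClosed_singleton (x := k))
    (Set.disjoint_singleton.mpr (Ne.symm hk))
  let f : C(N, ℂ) := ⟨fun z => (f₀ z : ℂ), Complex.continuous_ofReal.comp f₀.continuous⟩
  have hfk : f k ≠ f 1 := by
    have h1 : f₀ k = 1 := hf1 rfl
    have h0 : f₀ 1 = 0 := hf0 rfl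
    show ((f₀ k : ℝ) : ℂ) ≠ ((f₀ 1 : ℝ) : ℂ)
    rw [h1, h0]
    simp
  obtain ⟨S0, hS0⟩ := exists_S0 μ f
  let J : (N →ᵇ ℂ) →L[ℂ] HL μ := BoundedContinuousFunction.toLp 2 μ ℂ
  let S : HL μ →L[ℂ] HL μ := J.comp S0
  have hSL : ∀ n h, S (Lt μ n h) = Lt μ n (S h) := by
    intro n h
    exact (Lt_toLp μ n (S0 h) (S0 (Lt μ n h)) (fun z => S0_Lt μ f hS0 n h z)).symm
  have hScomp : IsCompactOperator S := (compact_S0 μ f hS0).clm_comp J
  let T : HL μ →L[ℂ] HL μ := (ContinuousLinearMap.adjoint S).comp S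
  have hT : ∀ a b, ⟪a, T b⟫_ℂ = ⟪S a, S b⟫_ℂ := by
    intro a b
    exact ContinuousLinearMap.adjoint_inner_right S a (S b)
  have hTcomp : IsCompactOperator T := hScomp.clm_comp (ContinuousLinearMap.adjoint S)
  have hTsym : T.IsSymmetric := by
    intro a b
    show ⟪T a, b⟫_ℂ = ⟪a, T b⟫_ℂ
    rw [hT, ← inner_conj_symm, hT, inner_conj_symm]
  have hTL : ∀ n h, T (Lt μ n h) = Lt μ n (T h) := by
    intro n h
    refine ext_inner_left ℂ (fun a => ?_)
    rw [hT, hSL, ← Lt_inv_inner, ← hSL, ← hT, Lt_inv_inner]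
  by_contra hcon
  push Not at hcon
  have hfix : ∀ c : ℂ, ∀ h ∈ Module.End.eigenspace (T : Module.End ℂ (HL μ)) c,
      S (Lt μ k h - h) = 0 := by
    intro c h hh
    by_cases hc : c = 0
    · subst hc
      have hTh : T h = 0 := by
        have := (Module.End.mem_eigenspace_iff).mp hh
        simpa using this
      have hSh : S h = 0 := by
        have h1 := hT h h
        rw [hTh, inner_zero_right] at h1
        exact inner_self_eq_zero.mp h1.symm
      rw [map_sub, hSL, hSh, map_zero, sub_zero]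
    · rw [hcon T c hTcomp hc hTL h hh, sub_self, map_zero]
  have horth := ContinuousLinearMap.orthogonalComplement_iSup_eigenspaces_eq_bot hTcomp hTsym
  have hdense : (⨆ c, Module.End.eigenspace (T : Module.End ℂ (HL μ)) c).topologicalClosure = ⊤ :=
    (Submodule.topologicalClosure_eq_top_iff).mpr horth
  have hall : ∀ h, S (Lt μ k h - h) = 0 := by
    intro h
    let D : HL μ →L[ℂ] HL μ := S.comp ((Lt μ k).toContinuousLinearMap - ContinuousLinearMap.id ℂ _)
    have hD : ∀ h, D h = S (Lt μ k h - h) := fun h => rfl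
    have hker : (⨆ c, Module.End.eigenspace (T : Module.End ℂ (HL μ)) c)
        ≤ LinearMap.ker (D : HL μ →ₗ[ℂ] HL μ) := by
      refine iSup_le (fun c h hh => ?_)
      exact hfix c h hh
    have hcl : (⨆ c, Module.End.eigenspace (T : Module.End ℂ (HL μ)) c).topologicalClosure
        ≤ LinearMap.ker (D : HL μ →ₗ[ℂ] HL μ) :=
      Submodule.topologicalClosure_minimal _ hker (D.isClosed_ker)
    rw [hdense] at hcl
    have : h ∈ LinearMap.ker (D : HL μ →ₗ[ℂ] HL μ) := hcl Submodule.mem_top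
    exact this
  have hS0eq : ∀ h, S0 (Lt μ k h) = S0 h := by
    intro h
    have h1 := hall h
    rw [map_sub, sub_eq_zero] at h1
    exact BoundedContinuousFunction.toLp_injective (p := 2) (𝕜 := ℂ) μ h1
  have hphi : phi μ f k⁻¹ = phi μ f 1 := by
    refine ext_inner_right ℂ (fun h => ?_)
    rw [← hS0, ← hS0]
    have h2 := S0_Lt μ f hS0 k h 1
    rw [hS0eq, mul_one] at h2
    exact h2.symm
  have hker : kerF f k⁻¹ = kerF f 1 :=
    ContinuousMap.toLp_injective (p := 2) (𝕜 := ℂ) μ hphi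
  apply hfk
  have := congrArg (fun g : C(N, ℂ) => g 1) hker
  simpa [kerF_apply] using this

omit [MeasurableSpace N] [BorelSpace N] in
/-- Irreducible representations separate points of a compact group. -/
theorem exists_irr_ne (k : N) (hk : k ≠ 1) :
    ∃ d, 0 < d ∧ ∃ χ : N →* Un d, Continuous χ ∧ Irr χ ∧ χ k ≠ 1 := by
  let _ : MeasurableSpace N := borel N
  have : BorelSpace N := ⟨rfl⟩
  let μ : Measure N := Measure.haarMeasure ⊤
  have hμ : IsProbabilityMeasure μ := ⟨by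
    have := Measure.haarMeasure_self (K₀ := (⊤ : TopologicalSpace.PositiveCompacts N))
    simpa using this⟩
  obtain ⟨T, c, hT, hc, hTL, h, hh, hkh⟩ := exists_eigen μ k hk
  have hfd := ContinuousLinearMap.finite_dimensional_eigenspace hT c hc
  let V : Submodule ℂ (HL μ) := Module.End.eigenspace (T : Module.End ℂ (HL μ)) c
  have hfd' : FiniteDimensional ℂ V := hfd
  let R : URep N (HL μ) :=
    { π := fun n => (Lt μ n).toLinearMap
      one := by
        ext1 v
        exact Lt_one μ v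
      mul := fun a b => by
        ext1 v
        exact Lt_mul μ a b v
      norm := fun a v => (Lt μ a).norm_map v
      cont := fun v => Lt_continuous μ v }
  have hV : ∀ a, ∀ v ∈ V, R.π a v ∈ V := by
    intro a v hv
    rw [Module.End.mem_eigenspace_iff] at hv ⊢
    show T (Lt μ a v) = c • Lt μ a v
    have hv' : T v = c • v := hv
    rw [hTL, hv', map_smul]
  refine URep.exists_irr k _ V (R.restr V hV) le_rfl ?_
  intro h1
  apply hkh
  have := congrArg (fun g : V →ₗ[ℂ] V => ((g ⟨h, hh⟩ : V) : HL μ)) h1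
  exact this

end Pool.Agent.Helper37.KO
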