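import Mathlib
import Pool.Agent.Lib_helper37.KoData
import Pool.Agent.Lib_helper37.KoPW
import Pool.Agent.Lib_helper37.KoKK

/-!
The weight of the common kernel of all ordinary representations.
-/

open Filter Topology TopologicalSpace
open scoped Pointwise Cardinal Matrix.Norms.L2Operator

set_option linter.unusedSectionVars false

namespace Pool.Agent.Helper37.KO

universe u

/-- Pseudocharacter bounds weight in sigma-compact locally compact groups. -/
theorem exists_basis_of_pseudo {A : Type u} [Group A] [TopologicalSpace A] [IsTopologicalGroup A]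
    [T2Space A] [LocallyCompactSpace A] [SigmaCompactSpace A] {J : Type u} (O : J → Set A)
    (hO : ∀ j, IsOpen (O j)) (h1 : ∀ j, (1 : A) ∈ O j) (h : ⋂ j, O j = {1}) (hJ : #J ≤ 𝔠) :
    ∃ B : Set (Set A), IsTopologicalBasis B ∧ #B ≤ 𝔠 := by
  classical
  obtain ⟨C, hC, hC1⟩ := exists_compact_mem_nhds (1 : A)
  have hF : ∀ j, ∃ F ∈ 𝓝 (1 : A), IsClosed F ∧ F ⊆ O j := fun j =>
    exists_mem_nhds_isClosed_subset ((hO j).mem_nhds (h1 j))
  choose F hFn hFc hFO using hF
  let P : Finset J → Set A := fun s => C ∩ ⋂ j ∈ s, F j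
  have hPn : ∀ s, P s ∈ 𝓝 (1 : A) := fun s =>
    inter_mem hC1 ((Filter.biInter_finset_mem s).mpr (fun j _ => hFn j))
  have hPc : ∀ s, IsClosed (P s) := fun s =>
    hC.isClosed.inter (isClosed_biInter (fun j _ => hFc j))
  have hPk : ∀ s, IsCompact (P s) := fun s => hC.of_isClosed_subset (hPc s) Set.inter_subset_left
  have hPmem : ∀ s x, x ∈ P s ↔ x ∈ C ∧ ∀ j ∈ s, x ∈ F j := by
    intro s x
    simp [P]
  have hPanti : ∀ s t : Finset J, s ⊆ t → P t ⊆ P s := by
    intro s t hst x hx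
    rw [hPmem] at hx ⊢
    exact ⟨hx.1, fun j hj => hx.2 j (hst hj)⟩
  have hbase : ∀ U ∈ 𝓝 (1 : A), ∃ s, P s ⊆ U := by
    intro U hU
    refine exists_subset_nhds_of_isCompact' (V := P) (fun s t => ⟨s ∪ t,
      hPanti _ _ Finset.subset_union_left, hPanti _ _ Finset.subset_union_right⟩)
      hPk hPc (fun x hx => ?_)
    have hx1 : x ∈ ⋂ j, O j := by
      refine Set.mem_iInter.mpr (fun j => hFO j ?_)
      have h2 := Set.mem_iInter.mp hx {j}
      rw [hPmem] at h2
      exact h2.2 j (Finset.mem_singleton_self j)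
    rw [h] at hx1
    rw [Set.mem_singleton_iff.mp hx1]
    exact hU
  have hcov : ∀ s, ∃ δ : ℕ → A, ∀ x, ∃ i, ∃ q ∈ interior (P s), x = δ i * q := by
    intro s
    have hQ : interior (P s) ∈ 𝓝 (1 : A) := interior_mem_nhds.mpr (hPn s)
    obtain ⟨D, hD, hDc⟩ := countable_cover_nhds_of_sigmaCompact
      (f := fun x : A => (fun v => x * v) '' interior (P s)) (fun x => by
        have h2 := (Homeomorph.mulLeft x).isOpenMap.image_mem_nhds hQ
        simpa using h2)
    have hne : D.Nonempty := by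
      have h2 : (1 : A) ∈ ⋃ x ∈ D, (fun v => x * v) '' interior (P s) := by
        rw [hDc]; exact Set.mem_univ _
      simp only [Set.mem_iUnion] at h2
      obtain ⟨x, hx, -⟩ := h2
      exact ⟨x, hx⟩
    obtain ⟨δ, hδ⟩ := hD.exists_eq_range hne
    refine ⟨δ, fun x => ?_⟩
    have h2 : x ∈ ⋃ y ∈ D, (fun v => y * v) '' interior (P s) := by
      rw [hDc]; exact Set.mem_univ _
    simp only [Set.mem_iUnion] at h2
    obtain ⟨y, hy, q, hq, hyq⟩ := h2
    rw [hδ] at hy
    obtain ⟨i, hi⟩ := hy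
    exact ⟨i, q, hq, by rw [hi]; exact hyq.symm⟩
  choose δ hδ using hcov
  let b : Finset J × ℕ → Set A := fun p => (fun v => δ p.1 p.2 * v) '' interior (P p.1)
  refine ⟨Set.range b, ?_, ?_⟩
  · refine isTopologicalBasis_of_isOpen_of_nhds ?_ ?_
    · rintro _ ⟨p, rfl⟩
      exact (Homeomorph.mulLeft (δ p.1 p.2)).isOpenMap _ isOpen_interior
    · intro x W hx hW
      have hdiv : Tendsto (fun p : A × A => x * p.1⁻¹ * p.2) (𝓝 ((1 : A), (1 : A))) (𝓝 x) := by
        have : Continuous (fun p : A × A => x * p.1⁻¹ * p.2) := by fun_prop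
        have h := this.tendsto ((1 : A), (1 : A))
        simpa using h
      have h2 := hdiv (hW.mem_nhds hx)
      rw [nhds_prod_eq, mem_map, mem_prod_self_iff] at h2
      obtain ⟨U, hU, hUW⟩ := h2
      obtain ⟨s, hs⟩ := hbase U hU
      obtain ⟨i, q, hq, hxq⟩ := hδ s x
      refine ⟨b (s, i), ⟨(s, i), rfl⟩, ⟨q, hq, hxq.symm⟩, ?_⟩
      rintro _ ⟨q', hq', rfl⟩
      have h3 : (q, q') ∈ U ×ˢ U := ⟨hs (interior_subset hq), hs (interior_subset hq')⟩
      have h4 : x * q⁻¹ * q' ∈ W := hUW h3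
      have h5 : δ s i = x * q⁻¹ := by rw [hxq]; group
      show δ s i * q' ∈ W
      rw [h5]
      exact h4
  · refine Cardinal.mk_range_le.trans ?_
    rw [Cardinal.mk_prod]
    have h2 : #(Finset J) ≤ 𝔠 := by
      rcases finite_or_infinite J with hfin | hinf
      · have : Finite (Finset J) := by
          have := Fintype.ofFinite J
          infer_instance
        exact (Cardinal.lt_aleph0_of_finite _).le.trans Cardinal.aleph0_le_continuum
      · rw [Cardinal.mk_finset_of_infinite]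
        exact hJ
    simp only [Cardinal.lift_uzero, Cardinal.mk_eq_aleph0 ℕ, Cardinal.lift_aleph0]
    calc #(Finset J) * ℵ₀ ≤ 𝔠 * ℵ₀ := mul_le_mul_left h2 ℵ₀
      _ ≤ 𝔠 := by simp

variable (G : Type u) [Group G] [TopologicalSpace G] [IsTopologicalGroup G] [T2Space G]
  [LocallyCompactSpace G] [ConnectedSpace G]

lemma isClosed_koSub (G : Type u) [Group G] [TopologicalSpace G] : IsClosed (koSub G : Set G) := by
  have : (koSub G : Set G) = ⋂ (n : ℕ), ⋂ (ρ : {ρ : G →* GL (Fin n) ℂ // Continuous ρ}),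
      {g | ρ.1 g = 1} := by
    ext g
    simp only [Set.mem_iInter, Subtype.forall]
    rfl
  rw [this]
  exact isClosed_iInter (fun n => isClosed_iInter (fun ρ => isClosed_eq ρ.2 continuous_const))

theorem exists_basis_koSub : ∃ B : Set (Set (koSub G)), IsTopologicalBasis B ∧ #B ≤ 𝔠 := by
  obtain ⟨N, hN, hNc, ⟨O, hO, hNO⟩, D, hD⟩ := kakutani_kodaira (G := G)
  have hcomp : CompactSpace N := isCompact_iff_compactSpace.mp hNc
  have hsig : SigmaCompactSpace G := sigmaCompact_of_connected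
  have hclosed := isClosed_koSub G
  have hlc : LocallyCompactSpace (koSub G) := hclosed.isClosedEmbedding_subtypeVal.locallyCompactSpace
  have hsc : SigmaCompactSpace (koSub G) := hclosed.isClosedEmbedding_subtypeVal.sigmaCompactSpace
  let θ : FreeGroup ℕ →* G := FreeGroup.lift D
  have hθ : Dense {x : G | ∃ w, ∃ n : N, x = θ w * n} := by
    refine hD.mono ?_
    rintro x ⟨i, n, hn, rfl⟩
    exact ⟨FreeGroup.of i, ⟨n, hn⟩, by
      rw [show θ (FreeGroup.of i) = D i from FreeGroup.lift_apply_of]⟩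
  let Psi : Set ({k : N // (k : G) ∈ koSub G} → ℂ) :=
    {ψ | ∃ d, 0 < d ∧ ∃ χ : N →* Un d, Continuous χ ∧ Irr χ ∧
      ∀ k, (χ k.1 : Ma d) = ψ k • 1}
  choose d hd χ hχ hirr hψ using (fun ψ : Psi => ψ.2)
  choose v V a hv hV ha using fun ψ : Psi => exists_package (hd ψ) (hχ ψ) (hirr ψ) θ
  have hinj : Function.Injective a := by
    intro ψ ψ' hab
    apply Subtype.ext
    funext k
    have ha' := ha ψ'
    rw [← hab] at ha'
    have hk := kap_eq_one_of_same_data θ hθ (v ψ) (v ψ') (V ψ) (V ψ') (a ψ) (hv ψ) (hv ψ')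
      (hV ψ) (hV ψ') (ha ψ) ha' k.1 k.2
    exact eq_of_kap_scalar (hd ψ) (hd ψ') _ _ hk (hψ ψ k) (hψ ψ' k)
  have hcard : #Psi ≤ 𝔠 := by
    have h1 := Cardinal.lift_mk_le_lift_mk_of_injective hinj
    have h2 : #(FreeGroup ℕ → ℕ → ℂ) ≤ 𝔠 := by
      rw [← Cardinal.mk_congr (Equiv.curry (FreeGroup ℕ) ℕ ℂ)]
      have h3 : #(FreeGroup ℕ × ℕ) ≤ ℵ₀ := Cardinal.mk_le_aleph0
      calc #(FreeGroup ℕ × ℕ → ℂ) = #ℂ ^ #(FreeGroup ℕ × ℕ) := (Cardinal.power_def _ _).symm
        _ ≤ #ℂ ^ ℵ₀ := Cardinal.power_le_power_left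
            (by rw [Cardinal.mk_complex]; exact Cardinal.continuum_ne_zero) h3
        _ = 𝔠 := by rw [Cardinal.mk_complex]; simp
    have h4 : Cardinal.lift.{u} #(FreeGroup ℕ → ℕ → ℂ) ≤ 𝔠 := by
      rw [← Cardinal.lift_continuum.{u, 0}]
      exact Cardinal.lift_le.mpr h2
    simpa using h1.trans h4
  let J : Type u := (Psi × ℕ) ⊕ (ULift.{u} ℕ)
  have hJ : #J ≤ 𝔠 := by
    have h1 : #J = #(Psi × ℕ) + #(ULift.{u} ℕ) := by simp [J]
    rw [h1, Cardinal.mk_prod]
    have h2 : #(ULift.{u} ℕ) = ℵ₀ := by simp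
    rw [h2]
    simp only [Cardinal.lift_uzero, Cardinal.mk_eq_aleph0 ℕ, Cardinal.lift_aleph0]
    calc #Psi * ℵ₀ + ℵ₀ ≤ 𝔠 * ℵ₀ + ℵ₀ := by gcongr
      _ ≤ 𝔠 := by simp
  let bad : Psi → ℕ → Set N := fun ψ j => {k : N | 1 / ((j : ℝ) + 1) ≤ ‖(χ ψ k : Ma (d ψ)) - 1‖}
  have hbad : ∀ ψ j, IsClosed ((↑) '' bad ψ j : Set G) := by
    intro ψ j
    have h1 : IsClosed (bad ψ j) :=
      isClosed_le continuous_const
        ((continuous_subtype_val.comp (hχ ψ)).sub continuous_const).norm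
    have h2 : IsCompact (bad ψ j) := h1.isCompact
    exact (h2.image continuous_subtype_val).isClosed
  let Q : J → Set (koSub G) := fun j => match j with
    | Sum.inl p => {x | (x : G) ∉ ((↑) '' bad p.1 p.2 : Set G)}
    | Sum.inr n => {x | (x : G) ∈ O n.down}
  refine exists_basis_of_pseudo Q ?_ ?_ ?_ hJ
  · rintro (p | n)
    · exact (hbad p.1 p.2).isOpen_compl.preimage continuous_subtype_val
    · exact (hO n.down).preimage continuous_subtype_val
  · rintro (⟨ψ, j⟩ | n)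
    · show ¬ ((1 : koSub G) : G) ∈ ((↑) '' bad ψ j : Set G)
      rintro ⟨k, hk, hk1⟩
      have hk2 : k = 1 := Subtype.ext hk1
      subst hk2
      have h3 : 1 / ((j : ℝ) + 1) ≤ ‖(χ ψ 1 : Ma (d ψ)) - 1‖ := hk
      rw [map_one] at h3
      have h4 : ((1 : Un (d ψ)) : Ma (d ψ)) - 1 = 0 := sub_self _
      rw [h4, norm_zero] at h3
      have h5 : (0 : ℝ) < 1 / ((j : ℝ) + 1) := by positivity
      linarith
    · show ((1 : koSub G) : G) ∈ O n.down
      have : (1 : G) ∈ (N : Set G) := N.one_mem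
      rw [hNO] at this
      exact Set.mem_iInter.mp this n.down
  · apply Set.Subset.antisymm
    · intro x hx
      rw [Set.mem_singleton_iff]
      by_contra hx1
      have hxN : (x : G) ∈ N := by
        have : (x : G) ∈ (N : Set G) := by
          rw [hNO]
          exact Set.mem_iInter.mpr (fun n => Set.mem_iInter.mp hx (Sum.inr ⟨n⟩))
        exact this
      have hk1 : (⟨(x : G), hxN⟩ : N) ≠ 1 := by
        intro h
        apply hx1
        apply Subtype.ext
        exact congrArg (fun z : N => (z : G)) h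
      obtain ⟨e, he, χ', hχ', hirr', hne⟩ := exists_irr_ne (⟨(x : G), hxN⟩ : N) hk1
      have hsc' : ∀ k : {k : N // (k : G) ∈ koSub G}, ∃ c : ℂ, (χ' k.1 : Ma e) = c • 1 :=
        fun k => scalar_of_ko he hχ' hirr' k.2 (impl_self χ' k.1)
      choose ψ hψ' using hsc'
      let ψ' : Psi := ⟨ψ, e, he, χ', hχ', hirr', hψ'⟩
      let k0 : {k : N // (k : G) ∈ koSub G} := ⟨⟨(x : G), hxN⟩, x.2⟩
      have h2 : (χ ψ' k0.1 : Ma (d ψ')) = ψ k0 • 1 := hψ ψ' k0
      have h3 : (χ ψ' k0.1 : Ma (d ψ')) = 1 := by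
        by_contra h4
        have h5 : 0 < ‖(χ ψ' k0.1 : Ma (d ψ')) - 1‖ := norm_pos_iff.mpr (sub_ne_zero.mpr h4)
        obtain ⟨j, hj⟩ := exists_nat_one_div_lt h5
        have h6 := Set.mem_iInter.mp hx (Sum.inl (ψ', j))
        exact h6 ⟨k0.1, hj.le, rfl⟩
      have h4 : ψ k0 = 1 := by
        have h5 := congrFun (congrFun (h2.symm.trans h3) ⟨0, hd ψ'⟩) ⟨0, hd ψ'⟩
        simpa using h5
      apply hne
      apply Subtype.ext
      have h6 := hψ' k0
      rw [h4, one_smul] at h6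
      exact h6
    · rw [Set.singleton_subset_iff, Set.mem_iInter]
      rintro (⟨ψ, j⟩ | n)
      · show ¬ ((1 : koSub G) : G) ∈ ((↑) '' bad ψ j : Set G)
        rintro ⟨k, hk, hk1⟩
        have hk2 : k = 1 := Subtype.ext hk1
        subst hk2
        have h3 : 1 / ((j : ℝ) + 1) ≤ ‖(χ ψ 1 : Ma (d ψ)) - 1‖ := hk
        rw [map_one] at h3
        have h4 : ((1 : Un (d ψ)) : Ma (d ψ)) - 1 = 0 := sub_self _
        rw [h4, norm_zero] at h3
        have h5 : (0 : ℝ) < 1 / ((j : ℝ) + 1) := by positivity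
        linarith
      · show ((1 : koSub G) : G) ∈ O n.down
        have : (1 : G) ∈ (N : Set G) := N.one_mem
        rw [hNO] at this
        exact Set.mem_iInter.mp this n.down

end Pool.Agent.Helper37.KO
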