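import Mathlib

/-!
# Diagram groups as fundamental groups of Squier complexes, and Thompson's group `F`
-/

namespace Pool.Agent.DiagramGroups

/-- A semigroup presentation `⟨α ∣ R⟩`: a set `R` of relations `u = v`, that is of pairs `(u, v)`
of nonempty words in the alphabet `α`. -/
structure SemigroupPresentation (α : Type) where
  /-- the relations `u = v`, as pairs `(u, v)` -/
  rel : Set (List α × List α)
  fst_ne_nil : ∀ r ∈ rel, r.1 ≠ []
  snd_ne_nil : ∀ r ∈ rel, r.2 ≠ []

variable {α : Type}

/-- `P.Step u v` says that `u = v` or `v = u` is one of the relations of `P`. -/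
def SemigroupPresentation.Step (P : SemigroupPresentation α) (u v : List α) : Prop :=
  (u, v) ∈ P.rel ∨ (v, u) ∈ P.rel

/-- An oriented edge `(a, u → v, b)` of the Squier complex of `P`, going from the word `x = aub` to
the word `y = avb`, where `u = v` or `v = u` is a relation of `P`. -/
structure Edge (P : SemigroupPresentation α) (x y : List α) where
  a : List α
  u : List α
  v : List α
  b : List α
  step : P.Step u v
  src : a ++ u ++ b = x
  tgt : a ++ v ++ b = y

/-- The same edge with the reverse orientation. -/
def Edge.inv {P : SemigroupPresentation α} {x y : List α} (e : Edge P x y) : Edge P y x where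
  a := e.a
  u := e.v
  v := e.u
  b := e.b
  step := e.step.symm
  src := e.tgt
  tgt := e.src

/-- Edge paths in the Squier complex of `P`, from the word `x` to the word `y`. -/
inductive Walk (P : SemigroupPresentation α) : List α → List α → Type
  | nil (x : List α) : Walk P x x
  | cons {x y z : List α} (e : Edge P x y) (p : Walk P y z) : Walk P x z

/-- Concatenation of edge paths (defined by recursion on the first one):
`nil · q = q` and `(e p) · q = e (p · q)`. -/
noncomputable def Walk.append {P : SemigroupPresentation α} {x y z : List α}
    (p : Walk P x y) : Walk P y z → Walk P x z :=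
  Walk.rec (motive := fun x y _ => Walk P y z → Walk P x z)
    (fun _ q => q) (fun e _ ih q => .cons e (ih q)) p

/-- The edge path consisting of the single edge `e`. -/
def Edge.toWalk {P : SemigroupPresentation α} {x y : List α} (e : Edge P x y) : Walk P x y :=
  .cons e (.nil y)

/-- The reverse of an edge path (defined by recursion): the reverse of `e p` is the reverse of `p`
followed by the inverse of the edge `e`. -/
noncomputable def Walk.reverse {P : SemigroupPresentation α} {x y : List α}
    (p : Walk P x y) : Walk P y x :=
  Walk.rec (motive := fun x y _ => Walk P y x)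
    (fun x => .nil x) (fun e _ ih => ih.append e.inv.toWalk) p

/-- Homotopy of edge paths with the same end points: the smallest equivalence relation, compatible
with concatenation, such that every edge followed by its reverse is trivial, and such that, for
all words `a, b, c` and relations `u = v`, `p = q` (read in either direction), the two edge paths
`aubpc → avbpc → avbqc` and `aubpc → aubqc → avbqc` along the boundary of the square
`(a, u → v, b, p → q, c)` are homotopic. -/
inductive Homotopic (P : SemigroupPresentation α) :
    {x y : List α} → Walk P x y → Walk P x y → Prop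
  | refl {x y : List α} (p : Walk P x y) : Homotopic P p p
  | symm {x y : List α} {p q : Walk P x y} : Homotopic P p q → Homotopic P q p
  | trans {x y : List α} {p q r : Walk P x y} :
      Homotopic P p q → Homotopic P q r → Homotopic P p r
  | append {x y z : List α} {p p' : Walk P x y} {q q' : Walk P y z} :
      Homotopic P p p' → Homotopic P q q' → Homotopic P (p.append q) (p'.append q')
  | cancel {x y : List α} (e : Edge P x y) :
      Homotopic P (e.toWalk.append e.inv.toWalk) (.nil x)
  | square (a u v b p q c : List α) (h : P.Step u v) (h' : P.Step p q) :
      Homotopic P (x := a ++ u ++ b ++ p ++ c) (y := a ++ v ++ b ++ q ++ c)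
        (.cons (y := a ++ v ++ b ++ p ++ c)
            ⟨a, u, v, b ++ p ++ c, h, by simp, by simp⟩
          (.cons ⟨a ++ v ++ b, p, q, c, h', by simp, by simp⟩ (.nil _)))
        (.cons (y := a ++ u ++ b ++ q ++ c)
            ⟨a ++ u ++ b, p, q, c, h', by simp, by simp⟩
          (.cons ⟨a, u, v, b ++ q ++ c, h, by simp, by simp⟩ (.nil _)))

/-- The diagram group `D(P, w)`, that is the fundamental group, based at `w`, of the Squier
complex of `P`: closed edge paths at `w` up to homotopy. -/
def DiagramGroup (P : SemigroupPresentation α) (w : List α) : Type :=
  Quot (fun p q : Walk P w w => Homotopic P p q)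

section Group

variable {P : SemigroupPresentation α}

lemma Walk.nil_append {x y : List α} (q : Walk P x y) : (Walk.nil x).append q = q := rfl

lemma Walk.cons_append {x y z t : List α} (e : Edge P x y) (p : Walk P y z) (q : Walk P z t) :
    (Walk.cons e p).append q = .cons e (p.append q) := rfl

lemma Walk.reverse_nil (x : List α) : (Walk.nil x : Walk P x x).reverse = .nil x := rfl

lemma Walk.reverse_cons {x y z : List α} (e : Edge P x y) (p : Walk P y z) :
    (Walk.cons e p).reverse = p.reverse.append e.inv.toWalk := rfl

lemma Walk.append_nil {x y : List α} (p : Walk P x y) : p.append (.nil y) = p := by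
  induction p with
  | nil => rfl
  | cons e p ih => rw [Walk.cons_append, ih]

lemma Walk.append_assoc {x y z t : List α} (p : Walk P x y) (q : Walk P y z) (r : Walk P z t) :
    (p.append q).append r = p.append (q.append r) := by
  induction p with
  | nil => rfl
  | cons e p ih => rw [Walk.cons_append, Walk.cons_append, ih, Walk.cons_append]

lemma Walk.cons_eq {x y z : List α} (e : Edge P x y) (p : Walk P y z) :
    Walk.cons e p = e.toWalk.append p := rfl

lemma Walk.reverse_append {x y z : List α} (p : Walk P x y) (q : Walk P y z) :
    (p.append q).reverse = q.reverse.append p.reverse := by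
  induction p with
  | nil => rw [Walk.nil_append, Walk.reverse_nil, Walk.append_nil]
  | cons e p ih =>
    rw [Walk.cons_append, Walk.reverse_cons, ih, Walk.reverse_cons, Walk.append_assoc]

lemma Edge.inv_inv {x y : List α} (e : Edge P x y) : e.inv.inv = e := rfl

lemma Edge.reverse_toWalk {x y : List α} (e : Edge P x y) :
    e.toWalk.reverse = e.inv.toWalk := rfl

lemma Homotopic.append_reverse {x y : List α} (p : Walk P x y) :
    Homotopic P (p.append p.reverse) (.nil x) := by
  induction p with
  | nil => exact .refl _
  | cons e p ih =>
    rw [Walk.cons_eq, Walk.reverse_append, Edge.reverse_toWalk, Walk.append_assoc,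
      ← Walk.append_assoc p]
    exact ((Homotopic.refl _).append (ih.append (.refl _))).trans (.cancel e)

lemma Walk.reverse_reverse {x y : List α} (p : Walk P x y) : p.reverse.reverse = p := by
  induction p with
  | nil => rfl
  | cons e p ih =>
    rw [Walk.reverse_cons, Walk.reverse_append, ih, Edge.reverse_toWalk, Edge.inv_inv]
    rfl

lemma Homotopic.reverse_append {x y : List α} (p : Walk P x y) :
    Homotopic P (p.reverse.append p) (.nil y) := by
  have := Homotopic.append_reverse p.reverse
  rwa [Walk.reverse_reverse] at this

lemma Homotopic.reverse {x y : List α} {p q : Walk P x y} (h : Homotopic P p q) :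
    Homotopic P p.reverse q.reverse := by
  have h1 : Homotopic P (p.reverse.append (q.append q.reverse)) p.reverse := by
    have := (Homotopic.refl p.reverse).append (Homotopic.append_reverse q)
    rwa [Walk.append_nil] at this
  have h2 : Homotopic P (p.reverse.append (q.append q.reverse)) q.reverse := by
    rw [← Walk.append_assoc]
    have := (((Homotopic.refl p.reverse).append h.symm).trans
      (Homotopic.reverse_append p)).append (Homotopic.refl q.reverse)
    exact this
  exact h1.symm.trans h2

end Group

/-- The group structure of `D(P, w)`: the product is the concatenation of edge paths, the inverse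
is the reversal. -/
noncomputable instance (P : SemigroupPresentation α) (w : List α) :
    Group (DiagramGroup P w) where
  mul := Quot.map₂ Walk.append (fun _ _ _ h => (Homotopic.refl _).append h)
    (fun _ _ _ h => h.append (Homotopic.refl _))
  one := Quot.mk _ (Walk.nil w)
  inv := Quot.map Walk.reverse (fun _ _ h => h.reverse)
  mul_assoc := by
    rintro ⟨p⟩ ⟨q⟩ ⟨r⟩
    exact congrArg (Quot.mk _) (Walk.append_assoc p q r)
  one_mul := by
    rintro ⟨p⟩
    rfl
  mul_one := by
    rintro ⟨p⟩
    exact congrArg (Quot.mk _) (Walk.append_nil p)
  inv_mul_cancel := by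
    rintro ⟨p⟩
    exact Quot.sound (Homotopic.reverse_append p)

/-- Thompson's group `F`, given by its standard infinite presentation
`⟨x₀, x₁, x₂, … ∣ xₖ⁻¹ xₙ xₖ = xₙ₊₁ for all k < n⟩`. -/
abbrev ThompsonF : Type :=
  PresentedGroup {r : FreeGroup ℕ | ∃ k n : ℕ, k < n ∧
    r = (FreeGroup.of k)⁻¹ * FreeGroup.of n * FreeGroup.of k * (FreeGroup.of (n + 1))⁻¹}

/-- `G` has a subgroup isomorphic to `H`. -/
def HasSubgroupIsoTo (G H : Type) [Group G] [Group H] : Prop :=
  ∃ K : Subgroup G, Nonempty (K ≃* H)

/-- `G` is linear: it embeds in `GL_n(K)` for some `n ≥ 1` and some field `K` (in the universe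
`u`). -/
def IsLinearGroup.{u} (G : Type) [Group G] : Prop :=
  ∃ (n : ℕ) (_ : 1 ≤ n) (K : Type u) (_ : Field K) (f : G →* GL (Fin n) K), Function.Injective f

end Pool.Agent.DiagramGroups
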