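import Pool.Agent.Lib_helper37.SquierDefs

/-!
# The universal group of the Squier complex of a semigroup presentation
-/

namespace Pool.Agent.DiagramGroups

variable {α : Type}

/-- Relators of the universal group. -/
def URels (P : SemigroupPresentation α) :
    Set (FreeGroup (List α × List α × List α × List α)) :=
  {r | (∃ a u v b, P.Step u v ∧
        r = FreeGroup.of (a, u, v, b) * FreeGroup.of (a, v, u, b)) ∨
    (∃ a u v b p q c, P.Step u v ∧ P.Step p q ∧
        r = (FreeGroup.of (a, u, v, b ++ p ++ c) * FreeGroup.of (a ++ v ++ b, p, q, c)) *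
          (FreeGroup.of (a ++ u ++ b, p, q, c) * FreeGroup.of (a, u, v, b ++ q ++ c))⁻¹)}

/-- The universal group of the Squier complex: generated by all the edges. -/
abbrev U (P : SemigroupPresentation α) : Type := PresentedGroup (URels P)

variable {P : SemigroupPresentation α}

/-- Generators. -/
def E (P : SemigroupPresentation α) (a u v b : List α) : U P := PresentedGroup.of (a, u, v, b)

lemma E_mul_E {a u v b : List α} (h : P.Step u v) : E P a u v b * E P a v u b = 1 := by
  have : FreeGroup.of (a, u, v, b) * FreeGroup.of (a, v, u, b) ∈ URels P :=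
    Or.inl ⟨a, u, v, b, h, rfl⟩
  exact PresentedGroup.one_of_mem this

lemma E_symm {a u v b : List α} (h : P.Step u v) : E P a v u b = (E P a u v b)⁻¹ :=
  (inv_eq_of_mul_eq_one_right (E_mul_E h)).symm

lemma E_square {a u v b p q c : List α} (h : P.Step u v) (h' : P.Step p q) :
    E P a u v (b ++ p ++ c) * E P (a ++ v ++ b) p q c =
      E P (a ++ u ++ b) p q c * E P a u v (b ++ q ++ c) := by
  have : (FreeGroup.of (a, u, v, b ++ p ++ c) * FreeGroup.of (a ++ v ++ b, p, q, c)) *
          (FreeGroup.of (a ++ u ++ b, p, q, c) * FreeGroup.of (a, u, v, b ++ q ++ c))⁻¹ ∈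
          URels P :=
    Or.inr ⟨a, u, v, b, p, q, c, h, h', rfl⟩
  have h2 := PresentedGroup.one_of_mem this
  rw [map_mul, map_inv] at h2
  exact mul_inv_eq_one.1 h2

lemma lift_aux {G : Type} [Group G] (f : List α → List α → List α → List α → G)
    (h1 : ∀ a u v b, P.Step u v → f a u v b * f a v u b = 1)
    (h2 : ∀ a u v b p q c, P.Step u v → P.Step p q →
      f a u v (b ++ p ++ c) * f (a ++ v ++ b) p q c =
        f (a ++ u ++ b) p q c * f a u v (b ++ q ++ c)) :
    ∀ r ∈ URels P, FreeGroup.lift (fun x : List α × List α × List α × List α =>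
      f x.1 x.2.1 x.2.2.1 x.2.2.2) r = 1 := by
  rintro r (⟨a, u, v, b, h, rfl⟩ | ⟨a, u, v, b, p, q, c, h, h', rfl⟩)
  · simpa using h1 a u v b h
  · have := h2 a u v b p q c h h'
    simp only [map_mul, map_inv, FreeGroup.lift_apply_of]
    rw [this, mul_inv_cancel]

/-- Homomorphisms from `U P`. -/
def liftU {G : Type} [Group G] (f : List α → List α → List α → List α → G)
    (h1 : ∀ a u v b, P.Step u v → f a u v b * f a v u b = 1)
    (h2 : ∀ a u v b p q c, P.Step u v → P.Step p q →
      f a u v (b ++ p ++ c) * f (a ++ v ++ b) p q c =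
        f (a ++ u ++ b) p q c * f a u v (b ++ q ++ c)) : U P →* G :=
  PresentedGroup.toGroup (lift_aux f h1 h2)

lemma liftU_E {G : Type} [Group G] (f : List α → List α → List α → List α → G)
    (h1 : ∀ a u v b, P.Step u v → f a u v b * f a v u b = 1)
    (h2 : ∀ a u v b p q c, P.Step u v → P.Step p q →
      f a u v (b ++ p ++ c) * f (a ++ v ++ b) p q c =
        f (a ++ u ++ b) p q c * f a u v (b ++ q ++ c)) (a u v b : List α) :
    liftU f h1 h2 (E P a u v b) = f a u v b :=
  PresentedGroup.toGroup.of (lift_aux f h1 h2)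

lemma hom_ext {G : Type} [Group G] {f g : U P →* G}
    (h : ∀ a u v b, f (E P a u v b) = g (E P a u v b)) : f = g :=
  PresentedGroup.ext (fun x => h x.1 x.2.1 x.2.2.1 x.2.2.2)

/-- Whiskering by `l` on the left and `r` on the right. -/
def W (P : SemigroupPresentation α) (l r : List α) : U P →* U P :=
  liftU (fun a u v b => E P (l ++ a) u v (b ++ r))
    (fun a u v b h => E_mul_E h)
    (fun a u v b p q c h h' => by
      have := E_square (P := P) (a := l ++ a) (b := b) (c := c ++ r) h h'
      simpa using this)

lemma W_E (l r a u v b : List α) : W P l r (E P a u v b) = E P (l ++ a) u v (b ++ r) :=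
  liftU_E _ _ _ _ _ _ _

lemma W_W (l r l' r' : List α) (g : U P) :
    W P l r (W P l' r' g) = W P (l ++ l') (r' ++ r) g := by
  have : (W P l r).comp (W P l' r') = W P (l ++ l') (r' ++ r) := by
    apply hom_ext
    intro a u v b
    simp [W_E]
  exact DFunLike.congr_fun this g

lemma W_nil (g : U P) : W P [] [] g = g := by
  have : W P [] [] = MonoidHom.id (U P) := by
    apply hom_ext
    intro a u v b
    simp [W_E]
  rw [this]; rfl

/-- `IsWalk x y g`: the element `g` of the universal group is the class of an edge path from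
`x` to `y`. -/
inductive IsWalk (P : SemigroupPresentation α) : List α → List α → U P → Prop
  | nil (x : List α) : IsWalk P x x 1
  | snoc {x a u v b : List α} {g : U P} (hg : IsWalk P x (a ++ u ++ b) g) (h : P.Step u v) :
      IsWalk P x (a ++ v ++ b) (g * E P a u v b)

lemma IsWalk.edge {a u v b : List α} (h : P.Step u v) :
    IsWalk P (a ++ u ++ b) (a ++ v ++ b) (E P a u v b) := by
  simpa using IsWalk.snoc (IsWalk.nil (a ++ u ++ b)) h

lemma IsWalk.mul {x y z : List α} {g h : U P} (hg : IsWalk P x y g) (hh : IsWalk P y z h) :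
    IsWalk P x z (g * h) := by
  induction hh with
  | nil => simpa using hg
  | snoc _ hs ih => rw [← mul_assoc]; exact IsWalk.snoc ih hs

lemma IsWalk.inv {x y : List α} {g : U P} (hg : IsWalk P x y g) : IsWalk P y x g⁻¹ := by
  induction hg with
  | nil => simpa using IsWalk.nil x
  | snoc _ hs ih =>
    rw [mul_inv_rev, ← E_symm hs]
    exact (IsWalk.edge hs.symm).mul ih

lemma IsWalk.whisker {x y : List α} {g : U P} (hg : IsWalk P x y g) (l r : List α) :
    IsWalk P (l ++ x ++ r) (l ++ y ++ r) (W P l r g) := by
  induction hg with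
  | nil => simpa using IsWalk.nil _
  | @snoc a u v b g _ hs ih =>
    rw [map_mul, W_E]
    have h1 : l ++ (a ++ u ++ b) ++ r = (l ++ a) ++ u ++ (b ++ r) := by simp
    have h2 : l ++ (a ++ v ++ b) ++ r = (l ++ a) ++ v ++ (b ++ r) := by simp
    rw [h1] at ih
    rw [h2]
    exact IsWalk.snoc ih hs

/-- Interchange law, for a walk on the left and an edge on the right. -/
lemma interchange_edge {x y : List α} {g : U P} (hg : IsWalk P x y g) (a b r p q : List α)
    (h : P.Step p q) :
    W P a (b ++ p ++ r) g * E P (a ++ y ++ b) p q r =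
      E P (a ++ x ++ b) p q r * W P a (b ++ q ++ r) g := by
  induction hg with
  | nil => simp
  | @snoc a' u v b' g _ hs ih =>
    rw [map_mul, map_mul, W_E, W_E, mul_assoc]
    have h1 := E_square (P := P) (a := a ++ a') (b := b' ++ b) (c := r) hs h
    have e1 : b' ++ (b ++ p ++ r) = b' ++ b ++ p ++ r := by simp
    have e2 : b' ++ (b ++ q ++ r) = b' ++ b ++ q ++ r := by simp
    have e3 : a ++ (a' ++ v ++ b') ++ b = a ++ a' ++ v ++ (b' ++ b) := by simp
    have e4 : a ++ a' ++ u ++ (b' ++ b) = a ++ (a' ++ u ++ b') ++ b := by simp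
    rw [e1, e2, e3, h1, e4, ← mul_assoc, ih, mul_assoc]

/-- Interchange law. -/
lemma interchange {x y x' y' : List α} {g h : U P} (hg : IsWalk P x y g)
    (hh : IsWalk P x' y' h) (a b r : List α) :
    W P a (b ++ x' ++ r) g * W P (a ++ y ++ b) r h =
      W P (a ++ x ++ b) r h * W P a (b ++ y' ++ r) g := by
  induction hh with
  | nil => simp
  | @snoc a' u v b' h _ hs ih =>
    rw [map_mul, map_mul, W_E, W_E, ← mul_assoc, ih, mul_assoc, mul_assoc]
    congr 1
    have := interchange_edge hg a (b ++ a') (b' ++ r) u v hs
    have e1 : b ++ (a' ++ u ++ b') ++ r = b ++ a' ++ u ++ (b' ++ r) := by simp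
    have e2 : b ++ (a' ++ v ++ b') ++ r = b ++ a' ++ v ++ (b' ++ r) := by simp
    have e3 : a ++ y ++ b ++ a' = a ++ y ++ (b ++ a') := by simp
    have e4 : a ++ x ++ b ++ a' = a ++ x ++ (b ++ a') := by simp
    rw [e1, e2, e3, e4, this]

/-! ### The diagram group inside the universal group -/

/-- The class of an edge path in the universal group. -/
def Walk.cls : {x y : List α} → Walk P x y → U P
  | _, _, .nil _ => 1
  | _, _, .cons e p => E P e.a e.u e.v e.b * p.cls

lemma Walk.cls_append {x y z : List α} (p : Walk P x y) (q : Walk P y z) :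
    (p.append q).cls = p.cls * q.cls := by
  induction p with
  | nil => simp [Walk.nil_append, Walk.cls]
  | cons e p ih => simp [Walk.cons_append, Walk.cls, ih, mul_assoc]

lemma Walk.cls_homotopic {x y : List α} {p q : Walk P x y} (h : Homotopic P p q) :
    p.cls = q.cls := by
  induction h with
  | refl => rfl
  | symm _ ih => exact ih.symm
  | trans _ _ ih1 ih2 => exact ih1.trans ih2
  | append _ _ ih1 ih2 => rw [Walk.cls_append, Walk.cls_append, ih1, ih2]
  | cancel e =>
    rw [Walk.cls_append]
    simp only [Edge.toWalk, Walk.cls, Edge.inv, mul_one]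
    exact E_mul_E e.step
  | square a u v b p q c h h' =>
    simp only [Walk.cls, mul_one]
    exact E_square h h'

lemma Walk.isWalk_cls {x y : List α} (p : Walk P x y) : IsWalk P x y p.cls := by
  induction p with
  | nil => exact IsWalk.nil _
  | cons e p ih =>
    refine IsWalk.mul ?_ ih
    have := IsWalk.edge (a := e.a) (b := e.b) e.step
    rw [e.src, e.tgt] at this
    exact this

lemma IsWalk.exists_walk {x y : List α} {g : U P} (h : IsWalk P x y g) :
    ∃ p : Walk P x y, p.cls = g := by
  induction h with
  | nil => exact ⟨.nil _, rfl⟩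
  | @snoc a u v b g _ hs ih =>
    obtain ⟨p, hp⟩ := ih
    refine ⟨p.append (.cons ⟨a, u, v, b, hs, rfl, rfl⟩ (.nil _)), ?_⟩
    rw [Walk.cls_append, hp]
    simp [Walk.cls]

/-- The class of a loop in the diagram group. -/
def mkD {w : List α} (p : Walk P w w) : DiagramGroup P w := Quot.mk _ p

lemma mkD_append {w : List α} (p q : Walk P w w) : mkD (p.append q) = mkD p * mkD q := rfl

lemma mkD_reverse {w : List α} (p : Walk P w w) : mkD p.reverse = (mkD p)⁻¹ := rfl

lemma mkD_nil {w : List α} : mkD (.nil w : Walk P w w) = 1 := rfl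

lemma mkD_eq {w : List α} {p q : Walk P w w} (h : Homotopic P p q) : mkD p = mkD q :=
  Quot.sound h

lemma exists_mkD {w : List α} (g : DiagramGroup P w) : ∃ p : Walk P w w, mkD p = g := by
  obtain ⟨p⟩ := g
  exact ⟨p, rfl⟩

/-- The canonical homomorphism from the diagram group to the universal group. -/
noncomputable def toU (P : SemigroupPresentation α) (w : List α) :
    DiagramGroup P w →* U P where
  toFun := Quot.lift Walk.cls (fun _ _ h => Walk.cls_homotopic h)
  map_one' := rfl
  map_mul' := by
    rintro ⟨p⟩ ⟨q⟩
    exact Walk.cls_append p q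

lemma toU_mk {w : List α} (p : Walk P w w) : toU P w (mkD p) = p.cls := rfl

lemma isWalk_toU {w : List α} (g : DiagramGroup P w) : IsWalk P w w (toU P w g) := by
  obtain ⟨p, rfl⟩ := exists_mkD g
  exact p.isWalk_cls

lemma exists_toU {w : List α} {g : U P} (h : IsWalk P w w g) :
    ∃ g' : DiagramGroup P w, toU P w g' = g := by
  obtain ⟨p, hp⟩ := h.exists_walk
  exact ⟨mkD p, hp⟩

section Retract

open Classical in
/-- A chosen edge path from `w` to `x`, if there is one. -/
noncomputable def chosen (P : SemigroupPresentation α) (w x : List α) (h : Nonempty (Walk P w x)) :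
    Walk P w x := h.some

open Classical in
/-- The image of a generator under the retraction. -/
noncomputable def retrFun (P : SemigroupPresentation α) (w : List α)
    (a u v b : List α) : DiagramGroup P w :=
  if h : P.Step u v ∧ Nonempty (Walk P w (a ++ u ++ b)) ∧ Nonempty (Walk P w (a ++ v ++ b)) then
    mkD ((chosen P w _ h.2.1).append
      (.cons ⟨a, u, v, b, h.1, rfl, rfl⟩ (chosen P w _ h.2.2).reverse))
  else 1

/-- The loop at `w` obtained from an edge path by means of the chosen paths. -/
noncomputable def retrWalk {w x y : List α} (hx : Nonempty (Walk P w x))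
    (hy : Nonempty (Walk P w y)) (p : Walk P x y) : DiagramGroup P w :=
  mkD ((chosen P w x hx).append (p.append (chosen P w y hy).reverse))

lemma retrWalk_append {w x y z : List α} (hx : Nonempty (Walk P w x))
    (hy : Nonempty (Walk P w y)) (hz : Nonempty (Walk P w z)) (p : Walk P x y)
    (q : Walk P y z) :
    retrWalk hx hz (p.append q) = retrWalk hx hy p * retrWalk hy hz q := by
  apply mkD_eq
  set A := chosen P w x hx
  set B := chosen P w y hy
  set C := chosen P w z hz
  simp only [Walk.append_assoc]
  refine (Homotopic.refl A).append ((Homotopic.refl p).append ?_)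
  have : Homotopic P ((B.reverse.append B).append (q.append C.reverse)) (q.append C.reverse) :=
    (Homotopic.reverse_append B).append (.refl _)
  rw [Walk.append_assoc] at this
  exact this.symm

lemma retrWalk_homotopic {w x y : List α} (hx : Nonempty (Walk P w x))
    (hy : Nonempty (Walk P w y)) {p q : Walk P x y} (h : Homotopic P p q) :
    retrWalk hx hy p = retrWalk hx hy q := by
  apply mkD_eq
  exact (Homotopic.refl _).append (h.append (.refl _))

lemma retrWalk_nil {w x : List α} (hx : Nonempty (Walk P w x)) :
    retrWalk hx hx (.nil x : Walk P x x) = 1 := by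
  apply mkD_eq
  exact Homotopic.append_reverse _

/-- the edge as a walk, with prescribed end points -/
lemma retrFun_eq {w x y a u v b : List α} (h : P.Step u v) (hx : Nonempty (Walk P w x))
    (hy : Nonempty (Walk P w y)) (e1 : a ++ u ++ b = x) (e2 : a ++ v ++ b = y) :
    retrFun P w a u v b = retrWalk hx hy (.cons ⟨a, u, v, b, h, e1, e2⟩ (.nil y)) := by
  subst e1
  subst e2
  unfold retrFun
  rw [dif_pos ⟨h, hx, hy⟩]
  rfl

lemma retrFun_eq_one {w a u v b : List α} (h : ¬ Nonempty (Walk P w (a ++ u ++ b))) :
    retrFun P w a u v b = 1 := by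
  unfold retrFun
  rw [dif_neg]
  exact fun h' => h h'.2.1

lemma reach_iff {w x y : List α} (e : Edge P x y) :
    Nonempty (Walk P w x) ↔ Nonempty (Walk P w y) :=
  ⟨fun ⟨p⟩ => ⟨p.append (.cons e (.nil _))⟩, fun ⟨p⟩ => ⟨p.append (.cons e.inv (.nil _))⟩⟩

lemma reach_iff' {w a u v b : List α} (h : P.Step u v) :
    Nonempty (Walk P w (a ++ u ++ b)) ↔ Nonempty (Walk P w (a ++ v ++ b)) :=
  reach_iff ⟨a, u, v, b, h, rfl, rfl⟩

/-- The retraction from the universal group to the diagram group. -/
noncomputable def retr (P : SemigroupPresentation α) (w : List α) : U P →* DiagramGroup P w :=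
  liftU (retrFun P w)
    (by
      intro a u v b h
      by_cases hx : Nonempty (Walk P w (a ++ u ++ b))
      · have hy := (reach_iff' h).1 hx
        rw [retrFun_eq h hx hy rfl rfl, retrFun_eq h.symm hy hx rfl rfl, ← retrWalk_append,
          ← retrWalk_nil hx]
        apply retrWalk_homotopic
        exact Homotopic.cancel ⟨a, u, v, b, h, rfl, rfl⟩
      · have hy := mt (reach_iff' h).2 hx
        rw [retrFun_eq_one hx, retrFun_eq_one hy, one_mul])
    (by
      intro a u v b p q c h h'
      by_cases hx : Nonempty (Walk P w (a ++ u ++ b ++ p ++ c))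
      · have hy : Nonempty (Walk P w (a ++ v ++ b ++ p ++ c)) := by
          have := (reach_iff' (w := w) (a := a) (b := b ++ p ++ c) h).1 (by simpa using hx)
          simpa using this
        have hz : Nonempty (Walk P w (a ++ v ++ b ++ q ++ c)) := (reach_iff' h').1 hy
        have ht : Nonempty (Walk P w (a ++ u ++ b ++ q ++ c)) := (reach_iff' h').1 hx
        rw [retrFun_eq h hx hy (by simp) (by simp), retrFun_eq h' hy hz (by simp) (by simp),
          retrFun_eq h' hx ht (by simp) (by simp), retrFun_eq h ht hz (by simp) (by simp),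
          ← retrWalk_append, ← retrWalk_append]
        apply retrWalk_homotopic
        exact Homotopic.square a u v b p q c h h'
      · have hy : ¬ Nonempty (Walk P w (a ++ v ++ b ++ p ++ c)) := by
          intro hy
          have := (reach_iff' (w := w) (a := a) (b := b ++ p ++ c) h).2 (by simpa using hy)
          exact hx (by simpa using this)
        have ht : ¬ Nonempty (Walk P w (a ++ u ++ b ++ q ++ c)) :=
          fun ht => hx ((reach_iff' h').2 ht)
        rw [retrFun_eq_one (by simpa using hx), retrFun_eq_one (by simpa using hy),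
          retrFun_eq_one (by simpa using hx), retrFun_eq_one (by simpa using ht)])

lemma retr_cls {w x y : List α} (hx : Nonempty (Walk P w x)) (hy : Nonempty (Walk P w y))
    (p : Walk P x y) : retr P w p.cls = retrWalk hx hy p := by
  induction p with
  | nil =>
    rw [retrWalk_nil hx]
    simp [Walk.cls]
  | @cons x y z e p ih =>
    have hy' : Nonempty (Walk P w y) := (reach_iff e).1 hx
    have h1 : retr P w (E P e.a e.u e.v e.b) = retrWalk hx hy' e.toWalk := by
      unfold retr
      rw [liftU_E, retrFun_eq e.step hx hy' e.src e.tgt]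
      rfl
    simp only [Walk.cls, map_mul]
    rw [ih hy' hy, h1, ← retrWalk_append]
    rfl

end Retract

lemma toU_injective (P : SemigroupPresentation α) (w : List α) :
    Function.Injective (toU P w) := by
  have hw : Nonempty (Walk P w w) := ⟨.nil w⟩
  intro g1 g2 h
  obtain ⟨p, rfl⟩ := exists_mkD g1
  obtain ⟨q, rfl⟩ := exists_mkD g2
  rw [toU_mk, toU_mk] at h
  have h2 := congrArg (retr P w) h
  rw [retr_cls hw hw, retr_cls hw hw] at h2
  have key : ∀ p : Walk P w w, retrWalk hw hw p =
      mkD (chosen P w w hw) * mkD p * (mkD (chosen P w w hw))⁻¹ := by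
    intro p
    rw [← mkD_reverse, ← mkD_append, ← mkD_append, Walk.append_assoc]
    rfl
  rw [key, key] at h2
  exact mul_left_cancel (mul_right_cancel h2)

end Pool.Agent.DiagramGroups
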