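import Pool.Agent.Lib_helper37.WreathStep

/-!
# Solvability is preserved by the wreath product construction
-/

namespace Pool.Agent.DiagramGroups

variable {α : Type}

/-! ### Parsing words -/

lemma append_cons_inj_left {y : α} {l r a b : List α} (hl : y ∉ l) (ha : y ∉ a)
    (h : l ++ y :: r = a ++ y :: b) : l = a ∧ r = b := by
  induction l generalizing a with
  | nil =>
    cases a with
    | nil => simpa using h
    | cons z a =>
      simp only [List.nil_append, List.cons_append, List.cons.injEq] at h
      exact absurd (by rw [h.1]; simp) ha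
  | cons x l ih =>
    cases a with
    | nil =>
      simp only [List.nil_append, List.cons_append, List.cons.injEq] at h
      exact absurd (by rw [← h.1]; simp) hl
    | cons z a =>
      simp only [List.cons_append, List.cons.injEq] at h
      have := ih (a := a) (fun hm => hl (by simp [hm])) (fun hm => ha (by simp [hm])) h.2
      exact ⟨by rw [h.1, this.1], this.2⟩

/-- If `y` occurs only at the end of `l ++ [y]`. -/
lemma append_last_inj {y : α} {l a b : List α} (hl : y ∉ l)
    (h : l ++ [y] = a ++ y :: b) : l = a ∧ b = [] := by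
  by_cases ha : y ∈ a
  · exfalso
    obtain ⟨a1, a2, rfl⟩ := List.append_of_mem ha
    have h2 : l ++ [y] = (a1 ++ y :: a2 ++ y :: b) := h
    have hlen : ∀ (l a1 a2 b : List α), y ∉ l → l ++ [y] = a1 ++ y :: (a2 ++ y :: b) → False := by
      intro l
      induction l with
      | nil =>
        intro a1 a2 b _ h
        cases a1 with
        | nil => simp at h
        | cons z a1 => simp at h
      | cons x l ih =>
        intro a1 a2 b hl h
        cases a1 with
        | nil =>
          simp only [List.cons_append, List.nil_append, List.cons.injEq] at h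
          exact hl (by rw [h.1]; simp)
        | cons z a1 =>
          simp only [List.cons_append, List.cons.injEq] at h
          exact ih a1 a2 b (fun hm => hl (by simp [hm])) h.2
    exact hlen l a1 a2 b hl (by simpa using h2)
  · have := append_cons_inj_left (l := l) (r := []) hl ha h
    exact ⟨this.1, this.2.symm⟩

section Parse

variable {P : SemigroupPresentation α} {c d s : α} {w : List α} {low : α → Prop}

lemma parse_low (hs : ¬ low s) (hd : ¬ low d) {u : List α} (hu : u ≠ [])
    (hulow : ∀ y ∈ u, low y) :
    ∀ (L : List (List α × U P)) (a b : List α), enc s L ++ [d] = a ++ u ++ b →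
      ∃ L₁ p L₂ a0 b0, L = L₁ ++ p :: L₂ ∧ p.1 = a0 ++ u ++ b0 ∧ a = enc s L₁ ++ a0 ∧
        b = b0 ++ s :: (enc s L₂ ++ [d]) := by
  intro L
  induction L with
  | nil =>
    intro a b h
    exfalso
    obtain ⟨y, u', rfl⟩ := List.exists_cons_of_ne_nil hu
    have : y ∈ enc s ([] : List (List α × U P)) ++ [d] := by rw [h]; simp
    simp only [enc, List.nil_append, List.mem_singleton] at this
    exact hd (this ▸ hulow y (by simp))
  | cons p L ih =>
    intro a b h
    simp only [enc, List.append_assoc, List.cons_append] at h
    -- p.1 ++ s :: (enc s L ++ [d]) = a ++ (u ++ b)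
    have h' : (p.1 ++ [s]) ++ (enc s L ++ [d]) = a ++ (u ++ b) := by simpa using h
    rcases List.append_eq_append_iff.1 h' with ⟨z, hz1, hz2⟩ | ⟨z, hz1, hz2⟩
    · -- a = p.1 ++ [s] ++ z
      obtain ⟨L₁, q, L₂, a0, b0, e1, e2, e3, e4⟩ := ih z b (by rw [hz2]; simp)
      refine ⟨p :: L₁, q, L₂, a0, b0, by rw [e1]; rfl, e2, ?_, e4⟩
      rw [hz1, e3]; simp [enc]
    · -- p.1 ++ [s] = a ++ z, u ++ b = z ++ rest
      rcases List.eq_nil_or_concat z with rfl | ⟨z', y, rfl⟩
      · obtain ⟨L₁, q, L₂, a0, b0, e1, e2, e3, e4⟩ := ih [] b (by simpa using hz2.symm)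
        refine ⟨p :: L₁, q, L₂, a0, b0, by rw [e1]; rfl, e2, ?_, e4⟩
        have e5 : a = p.1 ++ [s] := by simpa using hz1.symm
        have e6 : enc s L₁ ++ a0 = [] := e3.symm
        rw [e5]
        simp only [enc, List.append_assoc, List.cons_append, e6]
      · have e1 : p.1 = a ++ z' ∧ s = y := by
          have : p.1 ++ [s] = (a ++ z') ++ [y] := by simpa using hz1
          have h3 := List.append_inj' this rfl
          exact ⟨h3.1, by simpa using h3.2⟩
        obtain ⟨e1, rfl⟩ := e1
        -- u ++ b = z' ++ s :: rest
        have h3 : u ++ b = z' ++ s :: (enc s L ++ [d]) := by simpa using hz2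
        rcases List.append_eq_append_iff.1 h3 with ⟨t, ht1, ht2⟩ | ⟨t, ht1, ht2⟩
        · refine ⟨[], p, L, a, t, rfl, ?_, by simp [enc], ht2⟩
          rw [e1, ht1]; simp
        · -- u = z' ++ t, s :: rest = t ++ b
          cases t with
          | nil =>
            refine ⟨[], p, L, a, [], rfl, ?_, by simp [enc], ?_⟩
            · rw [e1, ht1]; simp
            · simpa using ht2.symm
          | cons y t =>
            exfalso
            simp only [List.cons_append, List.cons.injEq] at ht2
            apply hs
            rw [ht2.1]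
            exact hulow y (by rw [ht1]; simp)

lemma not_mem_enc {y : α} (hy : ¬ low y) (hys : y ≠ s) (L : List (List α × U P))
    (hL : ∀ p ∈ L, ∀ x ∈ p.1, low x) : y ∉ enc s L := by
  induction L with
  | nil => simp [enc]
  | cons p L ih =>
    simp only [enc, List.mem_append, List.mem_cons, not_or]
    exact ⟨fun h => hy (hL p (by simp) y h), hys, ih (fun q hq => hL q (by simp [hq]))⟩

end Parse

/-- `w` is a base word of a controlled level: all the words equal to `w` are made of `low`
letters, `w` is never a proper suffix of such a word, and the diagram group is solvable. -/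
structure Level (P : SemigroupPresentation α) (w : List α) (low : α → Prop) : Prop where
  mem_low : ∀ u γ, IsWalk P w u γ → ∀ y ∈ u, low y
  suffix : ∀ u γ, IsWalk P w u γ → ∀ z, u = z ++ w → z = []
  solv : Group.IsSolvable (Dsub P w)
  fg : (Dsub P w).FG

/-- The classification of the relations of the presentation, at a given level. -/
structure Classif (P : SemigroupPresentation α) (c d s : α) (w : List α) (low : α → Prop) :
    Prop where
  hc : ¬ low c
  hd : ¬ low d
  hs : ¬ low s
  hcd : c ≠ d
  hcs : c ≠ s
  hds : d ≠ s
  hk : P.Step [c] (c :: (w ++ [s]))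
  hl : P.Step [d] (w ++ [s, d])
  cases : ∀ u v, P.Step u v → (u ≠ [] ∧ ∀ y ∈ u, low y) ∨
    (u = [c] ∧ v = c :: (w ++ [s])) ∨ (u = c :: (w ++ [s]) ∧ v = [c]) ∨
    (u = [d] ∧ v = w ++ [s, d]) ∨ (u = w ++ [s, d] ∧ v = [d]) ∨
    (∃ y ∈ u, ¬ low y ∧ y ≠ c ∧ y ≠ d ∧ y ≠ s)

section Gen

variable {P : SemigroupPresentation α} {c d s : α} {w : List α} {low : α → Prop}

/-- The subgroup generated by the stable letter and the copy of the diagram group of `w`. -/
def Hsub (P : SemigroupPresentation α) (c d s : α) (w : List α) : Subgroup (U P) :=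
  Subgroup.closure (insert (tt P c d s w)
    (((Dsub P w).map ((MulAut.conj (KK P c d s w 1)).toMonoidHom.comp (W P [c] [s, d])) :
      Subgroup (U P)) : Set (U P)))

lemma gg_zero (γ : U P) : gg P c d s w 0 γ =
    ((MulAut.conj (KK P c d s w 1)).toMonoidHom.comp (W P [c] [s, d])) γ := rfl

lemma tt_mem : tt P c d s w ∈ Hsub P c d s w := Subgroup.subset_closure (by simp)

lemma gg_mem (hC : Classif P c d s w low) {γ : U P} (hγ : IsWalk P w w γ) (n : ℕ) :
    gg P c d s w n γ ∈ Hsub P c d s w := by
  have h0 : gg P c d s w 0 γ ∈ Hsub P c d s w := by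
    apply Subgroup.subset_closure
    right
    exact ⟨γ, hγ, rfl⟩
  rw [gg_eq_conj hC.hk hC.hl hγ]
  have ht := Subgroup.pow_mem _ (tt_mem (P := P) (c := c) (d := d) (s := s) (w := w)) n
  exact Subgroup.mul_mem _ (Subgroup.mul_mem _ (Subgroup.inv_mem _ ht) h0) ht

/-- Every edge path starting at `cd` has a normal form. -/
theorem generation (hL : Level P w low) (hC : Classif P c d s w low) {X : List α} {g : U P}
    (hX : IsWalk P [c, d] X g) :
    ∃ (L : List (List α × U P)) (h : U P), h ∈ Hsub P c d s w ∧
      (∀ p ∈ L, IsWalk P w p.1 p.2) ∧ X = c :: (enc s L ++ [d]) ∧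
      g = h * KK P c d s w L.length * W P [c] [d] (Gam P s w L) := by
  induction hX with
  | nil =>
    refine ⟨[], 1, Subgroup.one_mem _, by simp, by simp [enc], by simp [KK, Gam]⟩
  | @snoc a u v b g _ hstep ih =>
    obtain ⟨L, h, hh, hLw, hX, hg⟩ := ih
    have hlow : ∀ p ∈ L, ∀ x ∈ p.1, low x := fun p hp => hL.mem_low _ _ (hLw p hp)
    have hcL : c ∉ enc s L ++ [d] := by
      simp only [List.mem_append, List.mem_singleton, not_or]
      exact ⟨not_mem_enc hC.hc hC.hcs L hlow, hC.hcd⟩
    have hdL : d ∉ c :: enc s L := by
      simp only [List.mem_cons, not_or]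
      exact ⟨hC.hcd.symm, not_mem_enc hC.hd hC.hds L hlow⟩
    have hwlow : ∀ y ∈ w, low y := hL.mem_low w 1 (IsWalk.nil w)
    -- words containing `c` start with it
    have parse_c : ∀ a b' : List α, a ++ c :: b' = c :: (enc s L ++ [d]) →
        a = [] ∧ b' = enc s L ++ [d] := by
      intro a b' he
      cases a with
      | nil => simpa using he
      | cons y a =>
        simp only [List.cons_append, List.cons.injEq] at he
        exact absurd (by rw [← he.2]; simp) hcL
    have parse_d : ∀ a b' : List α, a ++ d :: b' = c :: (enc s L ++ [d]) →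
        a = c :: enc s L ∧ b' = [] := by
      intro a b' he
      have := append_last_inj (l := c :: enc s L) (a := a) (b := b') hdL (by simpa using he.symm)
      exact ⟨this.1.symm, this.2⟩
    rcases hC.cases u v hstep with ⟨hu, hulow⟩ | ⟨rfl, rfl⟩ | ⟨rfl, rfl⟩ | ⟨rfl, rfl⟩ |
      ⟨rfl, rfl⟩ | ⟨y, hyu, hy1, hy2, hy3, hy4⟩
    · -- a relation inside a block
      obtain ⟨a', rfl⟩ : ∃ a', a = c :: a' := by
        cases a with
        | nil =>
          exfalso
          obtain ⟨y, u', rfl⟩ := List.exists_cons_of_ne_nil hu
          simp only [List.nil_append, List.cons_append, List.cons.injEq] at hX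
          exact hC.hc (hX.1 ▸ hulow y (by simp))
        | cons y a =>
          simp only [List.cons_append, List.cons.injEq] at hX
          exact ⟨a, by rw [hX.1]⟩
      have hX' : enc s L ++ [d] = a' ++ u ++ b := by
        simp only [List.cons_append, List.cons.injEq, true_and] at hX
        exact hX.symm
      obtain ⟨L₁, ⟨p1, γ⟩, L₂, a0, b0, rfl, hp, rfl, rfl⟩ :=
        parse_low hC.hs hC.hd hu hulow L a' b hX'
      simp only at hp
      subst hp
      have hγ : IsWalk P w (a0 ++ u ++ b0) γ := hLw (a0 ++ u ++ b0, γ) (by simp)
      have hL₂ : ∀ p ∈ L₂, IsWalk P w p.1 p.2 := fun p hp => hLw p (by simp [hp])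
      have hδ : IsWalk P (a0 ++ u ++ b0) (a0 ++ v ++ b0) (E P a0 u v b0) := IsWalk.edge hstep
      refine ⟨L₁ ++ (a0 ++ v ++ b0, γ * E P a0 u v b0) :: L₂, h, hh, ?_, ?_, ?_⟩
      · intro p hp
        simp only [List.mem_append, List.mem_cons] at hp
        rcases hp with hp | rfl | hp
        · exact hLw p (by simp [hp])
        · exact hγ.snoc hstep
        · exact hL₂ p hp
      · simp [enc_append, enc]
      · rw [hg, ← Gam_modify (s := s) L₁ L₂ hL₂ hδ, map_mul, W_W, W_E]
        simp [mul_assoc]
    · -- left expansion
      obtain ⟨rfl, rfl⟩ := parse_c a b (by simpa using hX)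
      refine ⟨(w, 1) :: L, h, hh, ?_, ?_, ?_⟩
      · intro p hp
        simp only [List.mem_cons] at hp
        rcases hp with rfl | hp
        · exact IsWalk.nil w
        · exact hLw p hp
      · simp [enc]
      · rw [hg]
        have h1 := kap_Gam (P := P) (c := c) (d := d) hC.hk L hLw
        change h * KK P c d s w L.length * W P [c] [d] (Gam P s w L) *
          kap P c s w (enc s L ++ [d]) = _
        rw [mul_assoc, h1]
        simp only [Gam, List.length_cons, KK_succ, map_one, one_mul, W_W]
        simp [mul_assoc]
    · -- left contraction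
      obtain ⟨rfl, hb⟩ := parse_c a (w ++ s :: b) (by simpa using hX)
      cases L with
      | nil =>
        exfalso
        have : s ∈ enc s ([] : List (List α × U P)) ++ [d] := by rw [← hb]; simp
        simp only [enc, List.nil_append, List.mem_singleton] at this
        exact hC.hds this.symm
      | cons p L =>
        obtain ⟨p1, γ⟩ := p
        have hp1 : s ∉ p1 := fun hm => hC.hs (hlow (p1, γ) (by simp) s hm)
        have hw1 : s ∉ w := fun hm => hC.hs (hwlow s hm)
        simp only [enc, List.append_assoc, List.cons_append] at hb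
        obtain ⟨rfl, rfl⟩ := append_cons_inj_left hw1 hp1 hb
        have hγ : IsWalk P w w γ := hLw (w, γ) (by simp)
        have hL' : ∀ p ∈ L, IsWalk P w p.1 p.2 := fun p hp => hLw p (by simp [hp])
        refine ⟨L, h * gg P c d s w L.length γ,
          Subgroup.mul_mem _ hh (gg_mem hC hγ _), hL', by simp, ?_⟩
        have h1 := kap_Gam (P := P) (c := c) (d := d) hC.hk L hL'
        have h2 : E P [] (c :: (w ++ [s])) [c] (enc s L ++ [d]) =
          (kap P c s w (enc s L ++ [d]))⁻¹ := E_symm hC.hk
        rw [h2, hg]
        simp only [Gam, List.length_cons, map_mul, W_W]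
        have h3 : W P [c] [d] (Gam P s w L) =
          kap P c s w (pw w s L.length ++ [d]) * W P (c :: (w ++ [s])) [d] (Gam P s w L) *
            (kap P c s w (enc s L ++ [d]))⁻¹ := by rw [← h1]; group
        rw [h3]
        unfold gg
        rw [KK_succ]
        simp only [List.append_nil, List.nil_append, List.cons_append]
        group
    · -- right expansion
      obtain ⟨rfl, rfl⟩ := parse_d a b (by simpa using hX)
      refine ⟨L ++ [(w, 1)], h * tt P c d s w, Subgroup.mul_mem _ hh tt_mem, ?_, ?_, ?_⟩
      · intro p hp
        simp only [List.mem_append, List.mem_singleton] at hp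
        rcases hp with hp | rfl
        · exact hLw p hp
        · exact IsWalk.nil w
      · simp [enc_append, enc]
      · rw [hg]
        have h1 := lam_Gam (P := P) (c := c) (d := d) hC.hl L hLw
        have h2 := KK_lam (P := P) (c := c) (d := d) (s := s) (w := w) hC.hk hC.hl L.length
        change h * KK P c d s w L.length * W P [c] [d] (Gam P s w L) *
          lam P d s w (c :: enc s L) = _
        rw [mul_assoc, h1, Gam_snoc]
        simp only [map_one, mul_one, W_W, List.length_append, List.length_singleton]
        rw [mul_assoc h (tt P c d s w), ← h2]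
        simp [mul_assoc]
    · -- right contraction
      obtain ⟨hb, rfl⟩ := parse_d (a ++ w ++ [s]) b (by simpa using hX)
      rcases List.eq_nil_or_concat L with rfl | ⟨L, ⟨p1, γ⟩, rfl⟩
      · exfalso
        have : s ∈ c :: enc s ([] : List (List α × U P)) := by rw [← hb]; simp
        simp only [enc, List.mem_singleton] at this
        exact hC.hcs this.symm
      · have hγ' : IsWalk P w p1 γ := hLw (p1, γ) (by simp)
        have hL' : ∀ p ∈ L, IsWalk P w p.1 p.2 := fun p hp => hLw p (by simp [hp])
        have hb2 : a ++ w = c :: (enc s L ++ p1) := by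
          have : (a ++ w) ++ [s] = (c :: (enc s L ++ p1)) ++ [s] := by
            simpa [enc_append, enc] using hb
          exact List.append_cancel_right this
        -- `w` is a suffix of `p1`
        have hsuf : ∃ z, p1 = z ++ w := by
          have hb3 : a ++ w = (c :: enc s L) ++ p1 := by simpa using hb2
          rcases List.append_eq_append_iff.1 hb3 with ⟨z, hz1, hz2⟩ | ⟨z, hz1, hz2⟩
          · -- c :: enc s L = a ++ z, w = z ++ p1
            rcases List.eq_nil_or_concat z with rfl | ⟨z', y, rfl⟩
            · exact ⟨[], by simpa using hz2.symm⟩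
            · exfalso
              -- the last letter of `c :: enc s L` is not low
              have hylow : low y := hwlow y (by rw [hz2]; simp)
              have hlast : ∀ L : List (List α × U P), ∀ a' : List α,
                  c :: enc s L = a' ++ [y] → y = c ∨ y = s := by
                intro L
                rcases List.eq_nil_or_concat L with rfl | ⟨L', q, rfl⟩
                · intro a' h
                  left
                  have : [] ++ [c] = a' ++ [y] := by simpa [enc] using h
                  have := (List.append_inj' this rfl).2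
                  simpa using this.symm
                · intro a' h
                  right
                  have : (c :: (enc s L' ++ q.1)) ++ [s] = a' ++ [y] := by
                    simpa [enc_append, enc] using h
                  have := (List.append_inj' this rfl).2
                  simpa using this.symm
              rcases hlast L (a ++ z') (by simpa using hz1) with rfl | rfl
              · exact hC.hc hylow
              · exact hC.hs hylow
          · exact ⟨z, hz2⟩
        obtain ⟨z, hz⟩ := hsuf
        have hz0 : z = [] := hL.suffix p1 γ hγ' z hz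
        subst hz0
        rw [List.nil_append] at hz
        subst hz
        have ha : a = c :: enc s L := by
          have : a ++ p1 = (c :: enc s L) ++ p1 := by simpa using hb2
          exact List.append_cancel_right this
        subst ha
        refine ⟨L, h * gg P c d s p1 0 γ * (tt P c d s p1)⁻¹,
          Subgroup.mul_mem _ (Subgroup.mul_mem _ hh (gg_mem hC hγ' 0))
            (Subgroup.inv_mem _ tt_mem), hL', by simp, ?_⟩
        have h1 := lam_Gam (P := P) (c := c) (d := d) hC.hl L hL'
        have h2 := KK_lam (P := P) (c := c) (d := d) (s := s) (w := p1) hC.hk hC.hl L.length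
        have h3 : E P (c :: enc s L) (p1 ++ [s, d]) [d] [] =
          (lam P d s p1 (c :: enc s L))⁻¹ := E_symm hC.hl
        have h4 := KK_block (P := P) (c := c) (d := d) (s := s) (w := p1) hC.hk hγ' L.length 0
        rw [h3, hg, List.concat_eq_append, Gam_snoc' L hL' hγ' rfl]
        simp only [map_mul, W_W, List.length_append, List.length_singleton]
        have h5 : W P [c] [d] (Gam P s p1 L) = lam P d s p1 (c :: pw p1 s L.length) *
          W P [c] (p1 ++ [s, d]) (Gam P s p1 L) * (lam P d s p1 (c :: enc s L))⁻¹ := by
          rw [← h1]; group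
        rw [h5, ← h4]
        have h6 : (tt P c d s p1)⁻¹ * KK P c d s p1 L.length =
          KK P c d s p1 (L.length + 1) * (lam P d s p1 (c :: pw p1 s L.length))⁻¹ := by
          rw [eq_mul_inv_iff_mul_eq, mul_assoc, h2]; group
        have h7 : h * (KK P c d s p1 (L.length + 0 + 1) *
            W P (c :: pw p1 s L.length) (s :: (pw p1 s 0 ++ [d])) γ *
            (KK P c d s p1 (L.length + 0 + 1))⁻¹) * (tt P c d s p1)⁻¹ *
            KK P c d s p1 L.length = h * KK P c d s p1 (L.length + 1) *
            W P (c :: pw p1 s L.length) (s :: (pw p1 s 0 ++ [d])) γ *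
            (lam P d s p1 (c :: pw p1 s L.length))⁻¹ := by
          rw [mul_assoc _ (tt P c d s p1)⁻¹, h6]; simp [mul_assoc]
        rw [h7]
        simp [mul_assoc, pw_zero]
    · -- relations of a higher level do not apply
      exfalso
      have : y ∈ c :: (enc s L ++ [d]) := by rw [← hX]; simp [hyu]
      simp only [List.mem_cons, List.mem_append, List.not_mem_nil, or_false] at this
      rcases this with h | h | h
      · exact hy2 h
      · exact not_mem_enc hy1 hy4 L hlow h
      · exact hy3 h

lemma gg_walk (hk : P.Step [c] (c :: (w ++ [s]))) {γ : U P} (hγ : IsWalk P w w γ) :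
    IsWalk P [c, d] [c, d] (gg P c d s w 0 γ) := by
  have h1 := KK_walk (P := P) (d := d) hk 1
  have h2 := hγ.whisker [c] (s :: (pw w s 0 ++ [d]))
  have e : [c] ++ w ++ (s :: (pw w s 0 ++ [d])) = c :: (pw w s 1 ++ [d]) := by
    simp [pw]
  rw [e] at h2
  exact (h1.mul h2).mul h1.inv

lemma Dsub_le_Hsub (hL : Level P w low) (hC : Classif P c d s w low) :
    Dsub P [c, d] ≤ Hsub P c d s w := by
  intro g hg
  obtain ⟨L, h, hh, hLw, hX, rfl⟩ := generation hL hC hg
  have hnil : L = [] := by
    cases L with
    | nil => rfl
    | cons p L =>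
      exfalso
      have := congrArg List.length hX
      simp [enc] at this
      omega
  subst hnil
  simpa [KK, Gam] using hh

lemma Hsub_le_Dsub (hC : Classif P c d s w low) : Hsub P c d s w ≤ Dsub P [c, d] := by
  unfold Hsub
  rw [Subgroup.closure_le]
  rintro x (rfl | ⟨γ, hγ, rfl⟩)
  · exact tt_walk hC.hk hC.hl
  · exact gg_walk hC.hk hγ

lemma Hsub_fg (hfg : (Dsub P w).FG) : (Hsub P c d s w).FG := by
  obtain ⟨T, hT⟩ := hfg
  set f := ((MulAut.conj (KK P c d s w 1)).toMonoidHom.comp (W P [c] [s, d])) with hf
  have h1 : Hsub P c d s w = Subgroup.closure (insert (tt P c d s w) (f '' (T : Set (U P)))) := by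
    unfold Hsub
    rw [← hf, ← hT, MonoidHom.map_closure]
    apply le_antisymm
    · rw [Subgroup.closure_le]
      rintro x (rfl | hx)
      · exact Subgroup.subset_closure (by simp)
      · exact Subgroup.closure_mono (Set.subset_insert _ _) hx
    · apply Subgroup.closure_mono
      rintro x (rfl | hx)
      · simp
      · right
        exact Subgroup.subset_closure hx
  rw [h1, Subgroup.fg_iff]
  exact ⟨_, rfl, (T.finite_toSet.image f).insert _⟩

theorem level_step (hL : Level P w low) (hC : Classif P c d s w low) :
    Level P [c, d] (fun y => low y ∨ y = c ∨ y = d ∨ y = s) where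
  mem_low := by
    intro u γ hu y hy
    obtain ⟨L, h, -, hLw, rfl, -⟩ := generation hL hC hu
    have hlow : ∀ p ∈ L, ∀ x ∈ p.1, low x := fun p hp => hL.mem_low _ _ (hLw p hp)
    by_contra hcon
    simp only [not_or] at hcon
    obtain ⟨h1, h2, h3, h4⟩ := hcon
    simp only [List.mem_cons, List.mem_append, List.not_mem_nil, or_false] at hy
    rcases hy with h | h | h
    · exact h2 h
    · exact not_mem_enc h1 h4 L hlow h
    · exact h3 h
  suffix := by
    intro u γ hu z hz
    obtain ⟨L, h, -, hLw, rfl, -⟩ := generation hL hC hu
    have hlow : ∀ p ∈ L, ∀ x ∈ p.1, low x := fun p hp => hL.mem_low _ _ (hLw p hp)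
    cases z with
    | nil => rfl
    | cons y z =>
      exfalso
      simp only [List.cons_append, List.cons.injEq] at hz
      have hcL : c ∉ enc s L ++ [d] := by
        simp only [List.mem_append, List.mem_singleton, not_or]
        exact ⟨not_mem_enc hC.hc hC.hcs L hlow, hC.hcd⟩
      apply hcL
      rw [hz.2]; simp
  solv := by
    have hsolv : Group.IsSolvable (Hsub P c d s w) := by
      apply solv_step
      · exact isSolvable_map _ _ hL.solv
      · intro k hk a ha b hb
        obtain ⟨γ, hγ, rfl⟩ := ha
        obtain ⟨γ', hγ', rfl⟩ := hb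
        rw [← gg_zero, ← gg_zero, ← gg_eq_conj hC.hk hC.hl hγ]
        obtain ⟨k, rfl⟩ := Nat.exists_eq_add_of_lt hk
        rw [show 0 + k + 1 = k + 1 by omega]
        exact gg_comm hC.hk hγ hγ' k
    exact Group.isSolvable_of_isSolvable_injective
      (Subgroup.inclusion_injective (Dsub_le_Hsub hL hC))
  fg := by
    rw [le_antisymm (Dsub_le_Hsub hL hC) (Hsub_le_Dsub hC)]
    exact Hsub_fg hL.fg

end Gen

end Pool.Agent.DiagramGroups
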