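import Pool.Agent.Lib_helper37.SquierU
import Pool.Agent.Lib_helper37.GroupLemmas

/-!
# The wreath product construction for diagram groups

Given a presentation containing the relations `c = c w s` and `d = w s d`, we analyse the diagram
group with base `c d` in terms of the diagram group with base `w`.
-/

namespace Pool.Agent.DiagramGroups

variable {α : Type}

/-- The diagram group as a subgroup of the universal group. -/
def Dsub (P : SemigroupPresentation α) (w : List α) : Subgroup (U P) where
  carrier := {g | IsWalk P w w g}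
  mul_mem' := fun h h' => h.mul h'
  one_mem' := IsWalk.nil w
  inv_mem' := fun h => h.inv

lemma mem_Dsub {P : SemigroupPresentation α} {w : List α} {g : U P} :
    g ∈ Dsub P w ↔ IsWalk P w w g := Iff.rfl

/-- `pw w s n = (w s)^n`. -/
def pw (w : List α) (s : α) : ℕ → List α
  | 0 => []
  | n + 1 => w ++ s :: pw w s n

lemma pw_zero (w : List α) (s : α) : pw w s 0 = [] := rfl

lemma pw_succ (w : List α) (s : α) (n : ℕ) : pw w s (n + 1) = w ++ s :: pw w s n := rfl

lemma pw_succ' (w : List α) (s : α) (n : ℕ) : pw w s (n + 1) = pw w s n ++ (w ++ [s]) := by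
  induction n with
  | zero => simp [pw]
  | succ n ih =>
    rw [pw_succ w s (n + 1), ih, List.append_assoc]
    rw [pw_succ w s n] at ih
    have := congrArg (fun l => l ++ (w ++ [s])) ih
    simpa using this

lemma pw_add (w : List α) (s : α) (m n : ℕ) : pw w s (m + n) = pw w s m ++ pw w s n := by
  induction m with
  | zero => simp [pw]
  | succ m ih =>
    rw [show m + 1 + n = (m + n) + 1 by omega, pw_succ, ih, pw_succ]
    simp

section Step

variable (P : SemigroupPresentation α) (c d s : α) (w : List α)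

/-- Left expansion. -/
def kap (r : List α) : U P := E P [] [c] (c :: (w ++ [s])) r

/-- Right expansion. -/
def lam (l : List α) : U P := E P l [d] (w ++ [s, d]) []

/-- The iterated left expansion, from `cd` to `c (w s)^n d`. -/
def KK : ℕ → U P
  | 0 => 1
  | n + 1 => KK n * kap P c s w (pw w s n ++ [d])

/-- The stable letter. -/
def tt : U P := lam P d s w [c] * (kap P c s w [d])⁻¹

/-- The copy of `γ` in the `j`-th block (from the right). -/
def gg (j : ℕ) (γ : U P) : U P :=
  KK P c d s w (j + 1) * W P [c] (s :: (pw w s j ++ [d])) γ * (KK P c d s w (j + 1))⁻¹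

variable {P c d s w}

lemma kap_walk (hk : P.Step [c] (c :: (w ++ [s]))) (r : List α) :
    IsWalk P (c :: r) (c :: (w ++ s :: r)) (kap P c s w r) := by
  have := IsWalk.edge (P := P) (a := []) (b := r) hk
  unfold kap
  simpa using this

lemma lam_walk (hl : P.Step [d] (w ++ [s, d])) (l : List α) :
    IsWalk P (l ++ [d]) (l ++ (w ++ [s, d])) (lam P d s w l) := by
  have := IsWalk.edge (P := P) (a := l) (b := []) hl
  unfold lam
  simpa using this

lemma KK_zero : KK P c d s w 0 = 1 := rfl

lemma KK_succ (n : ℕ) :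
    KK P c d s w (n + 1) = KK P c d s w n * kap P c s w (pw w s n ++ [d]) := rfl

lemma KK_walk (hk : P.Step [c] (c :: (w ++ [s]))) (n : ℕ) :
    IsWalk P [c, d] (c :: (pw w s n ++ [d])) (KK P c d s w n) := by
  induction n with
  | zero => exact IsWalk.nil _
  | succ n ih =>
    rw [KK_succ]
    have := ih.mul (kap_walk hk (pw w s n ++ [d]))
    simpa [pw_succ] using this

lemma tt_walk (hk : P.Step [c] (c :: (w ++ [s]))) (hl : P.Step [d] (w ++ [s, d])) :
    IsWalk P [c, d] [c, d] (tt P c d s w) := by
  have h1 := lam_walk hl [c]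
  have h2 := (kap_walk hk [d]).inv
  have h3 : [c] ++ (w ++ [s, d]) = c :: (w ++ s :: [d]) := by simp
  rw [h3] at h1
  exact h1.mul h2

/-- Left expansions commute with what happens to their right. -/
lemma kap_comm (hk : P.Step [c] (c :: (w ++ [s]))) {x y : List α} {g : U P}
    (hg : IsWalk P x y g) (b r : List α) :
    kap P c s w (b ++ x ++ r) * W P (c :: (w ++ s :: b)) r g =
      W P (c :: b) r g * kap P c s w (b ++ y ++ r) := by
  have h1 : IsWalk P [c] (c :: (w ++ [s])) (E P [] [c] (c :: (w ++ [s])) []) := by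
    simpa using IsWalk.edge (P := P) (a := []) (b := []) hk
  have := interchange h1 hg [] b r
  rw [W_E, W_E] at this
  simpa [kap] using this

/-- Right expansions commute with what happens to their left. -/
lemma lam_comm (hl : P.Step [d] (w ++ [s, d])) {x y : List α} {g : U P}
    (hg : IsWalk P x y g) (a b : List α) :
    W P a (b ++ [d]) g * lam P d s w (a ++ y ++ b) =
      lam P d s w (a ++ x ++ b) * W P a (b ++ (w ++ [s, d])) g := by
  have := interchange_edge hg a b [] [d] (w ++ [s, d]) hl
  simpa [lam] using this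

lemma kap_lam (hk : P.Step [c] (c :: (w ++ [s]))) (hl : P.Step [d] (w ++ [s, d]))
    (b : List α) :
    kap P c s w (b ++ [d]) * lam P d s w (c :: (w ++ s :: b)) =
      lam P d s w (c :: b) * kap P c s w (b ++ (w ++ [s, d])) := by
  have := E_square (P := P) (a := []) (b := b) (c := []) hk hl
  simpa [kap, lam] using this

lemma KK_lam (hk : P.Step [c] (c :: (w ++ [s]))) (hl : P.Step [d] (w ++ [s, d])) (n : ℕ) :
    KK P c d s w n * lam P d s w (c :: pw w s n) = tt P c d s w * KK P c d s w (n + 1) := by
  induction n with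
  | zero =>
    simp [KK, tt, pw]
  | succ n ih =>
    rw [KK_succ, mul_assoc, pw_succ, kap_lam hk hl, ← mul_assoc, ih, KK_succ (n + 1), mul_assoc]
    congr 3
    rw [pw_succ']
    simp

lemma tt_gg (hk : P.Step [c] (c :: (w ++ [s]))) (hl : P.Step [d] (w ++ [s, d]))
    {γ : U P} (hγ : IsWalk P w w γ) (j : ℕ) :
    tt P c d s w * gg P c d s w (j + 1) γ = gg P c d s w j γ * tt P c d s w := by
  unfold gg
  have h1 := KK_lam (P := P) (c := c) (d := d) (s := s) (w := w) hk hl (j + 1)
  have h2 := lam_comm (P := P) (d := d) (s := s) (w := w) hl hγ [c] (s :: pw w s j)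
  have e1 : [c] ++ w ++ (s :: pw w s j) = c :: pw w s (j + 1) := by simp [pw_succ]
  have e2 : (s :: pw w s j) ++ (w ++ [s, d]) = s :: (pw w s (j + 1) ++ [d]) := by
    rw [pw_succ']; simp
  have e3 : (s :: pw w s j) ++ [d] = s :: (pw w s j ++ [d]) := by simp
  rw [e1, e2, e3] at h2
  have h3 : tt P c d s w = KK P c d s w (j + 1) * lam P d s w (c :: pw w s (j + 1)) *
      (KK P c d s w (j + 1 + 1))⁻¹ := by
    rw [h1]; group
  rw [h3]
  have h4 : KK P c d s w (j + 1) * lam P d s w (c :: pw w s (j + 1)) *
      (KK P c d s w (j + 1 + 1))⁻¹ *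
    (KK P c d s w (j + 1 + 1) * W P [c] (s :: (pw w s (j + 1) ++ [d])) γ *
      (KK P c d s w (j + 1 + 1))⁻¹) = KK P c d s w (j + 1) *
      (lam P d s w (c :: pw w s (j + 1)) * W P [c] (s :: (pw w s (j + 1) ++ [d])) γ) *
      (KK P c d s w (j + 1 + 1))⁻¹ := by group
  rw [h4, ← h2]
  group

lemma gg_eq_conj (hk : P.Step [c] (c :: (w ++ [s]))) (hl : P.Step [d] (w ++ [s, d]))
    {γ : U P} (hγ : IsWalk P w w γ) (k : ℕ) :
    gg P c d s w k γ = (tt P c d s w ^ k)⁻¹ * gg P c d s w 0 γ * tt P c d s w ^ k := by
  induction k with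
  | zero => simp
  | succ k ih =>
    have := tt_gg (P := P) (c := c) (d := d) (s := s) (w := w) hk hl hγ k
    have h2 : gg P c d s w (k + 1) γ = (tt P c d s w)⁻¹ * gg P c d s w k γ * tt P c d s w := by
      rw [mul_assoc, ← this]; group
    rw [h2, ih, pow_succ]
    group

/-- The position of a block only depends on the number of blocks to its right. -/
lemma KK_block (hk : P.Step [c] (c :: (w ++ [s])))
    {γ : U P} (hγ : IsWalk P w w γ) (m j : ℕ) :
    KK P c d s w (m + j + 1) * W P (c :: pw w s m) (s :: (pw w s j ++ [d])) γ *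
      (KK P c d s w (m + j + 1))⁻¹ = gg P c d s w j γ := by
  induction m with
  | zero =>
    rw [Nat.zero_add, pw_zero]; rfl
  | succ m ih =>
    rw [← ih]
    have h1 := kap_comm (P := P) (c := c) (s := s) (w := w) hk hγ (pw w s m)
      (s :: (pw w s j ++ [d]))
    have e1 : pw w s m ++ w ++ s :: (pw w s j ++ [d]) = pw w s (m + j + 1) ++ [d] := by
      rw [show m + j + 1 = m + (1 + j) by omega, pw_add, pw_add]
      simp [pw]
    rw [e1] at h1
    have e2 : c :: pw w s (m + 1) = c :: (w ++ s :: pw w s m) := by rw [pw_succ]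
    rw [e2, show m + 1 + j + 1 = m + j + 1 + 1 by omega, KK_succ (m + j + 1)]
    have h2 : KK P c d s w (m + j + 1) * kap P c s w (pw w s (m + j + 1) ++ [d]) *
      W P (c :: (w ++ s :: pw w s m)) (s :: (pw w s j ++ [d])) γ =
      KK P c d s w (m + j + 1) * W P (c :: pw w s m) (s :: (pw w s j ++ [d])) γ *
        kap P c s w (pw w s (m + j + 1) ++ [d]) := by
      rw [mul_assoc, h1, mul_assoc]
    rw [h2]
    group

lemma gg_comm (hk : P.Step [c] (c :: (w ++ [s])))
    {γ γ' : U P} (hγ : IsWalk P w w γ) (hγ' : IsWalk P w w γ') (k : ℕ) :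
    gg P c d s w (k + 1) γ * gg P c d s w 0 γ' = gg P c d s w 0 γ' * gg P c d s w (k + 1) γ := by
  have h0 := KK_block (P := P) (c := c) (d := d) (s := s) (w := w) hk hγ' (k + 1) 0
  rw [← h0]
  unfold gg
  rw [pw_zero, show k + 1 + 0 + 1 = k + 1 + 1 by omega]
  have h1 := interchange (P := P) hγ hγ' [c] (s :: pw w s k) [s, d]
  have e1 : (s :: pw w s k) ++ w ++ [s, d] = s :: (pw w s (k + 1) ++ [d]) := by
    rw [pw_succ']; simp
  have e2 : [c] ++ w ++ (s :: pw w s k) = c :: pw w s (k + 1) := by
    rw [pw_succ]; simp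
  rw [e1, e2] at h1
  have e3 : (s :: ([] ++ [d]) : List α) = [s, d] := rfl
  rw [e3]
  have e4 : ∀ x y z : U P, (x * y * x⁻¹) * (x * z * x⁻¹) = x * (y * z) * x⁻¹ := by
    intro x y z; group
  rw [e4, e4, h1]

/-! ### Blocks -/

/-- The word `u₁ s u₂ s … uₙ s`. -/
def enc (s : α) : List (List α × U P) → List α
  | [] => []
  | p :: L => p.1 ++ s :: enc s L

/-- The product of the paths `γᵢ : w → uᵢ` in the successive blocks. -/
def Gam (P : SemigroupPresentation α) (s : α) (w : List α) : List (List α × U P) → U P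
  | [] => 1
  | p :: L => W P [] (s :: pw w s L.length) p.2 * W P (p.1 ++ [s]) [] (Gam P s w L)

lemma enc_append (L L' : List (List α × U P)) : enc s (L ++ L') = enc s L ++ enc s L' := by
  induction L with
  | nil => rfl
  | cons p L ih => simp [enc, ih]

lemma Gam_walk (L : List (List α × U P)) (hL : ∀ p ∈ L, IsWalk P w p.1 p.2) :
    IsWalk P (pw w s L.length) (enc s L) (Gam P s w L) := by
  induction L with
  | nil => exact IsWalk.nil _
  | cons p L ih =>
    have h1 := (hL p (by simp)).whisker [] (s :: pw w s L.length)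
    have h2 := (ih (fun q hq => hL q (by simp [hq]))).whisker (p.1 ++ [s]) []
    simp only [List.nil_append, List.append_nil] at h1 h2
    have e : p.1 ++ s :: pw w s L.length = p.1 ++ [s] ++ pw w s L.length := by simp
    rw [e] at h1
    have := h1.mul h2
    simp only [List.length_cons, pw_succ, enc, Gam]
    simpa using this

lemma Gam_snoc (L : List (List α × U P)) (u : List α) (γ : U P) :
    Gam P s w (L ++ [(u, γ)]) = W P [] (w ++ [s]) (Gam P s w L) * W P (enc s L) [s] γ := by
  induction L with
  | nil => simp [Gam, enc, pw]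
  | cons p L ih =>
    simp only [List.cons_append, Gam, ih, enc, map_mul, W_W, List.length_append,
      List.length_cons, List.length_nil]
    rw [mul_assoc]
    congr 1
    · congr 2
      rw [pw_succ']
    · simp

lemma Gam_snoc' {u : List α} {γ : U P} (L : List (List α × U P))
    (hL : ∀ p ∈ L, IsWalk P w p.1 p.2) (hγ : IsWalk P u u γ) (hu : u = w) :
    Gam P s w (L ++ [(u, γ)]) =
      W P (pw w s L.length) [s] γ * W P [] (w ++ [s]) (Gam P s w L) := by
  subst hu
  rw [Gam_snoc]
  have := interchange (Gam_walk (s := s) L hL) hγ [] [] [s]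
  simpa using this

lemma Gam_modify {u v : List α} {γ δ : U P} (L₁ L₂ : List (List α × U P))
    (hL₂ : ∀ p ∈ L₂, IsWalk P w p.1 p.2) (hδ : IsWalk P u v δ) :
    Gam P s w (L₁ ++ (u, γ) :: L₂) * W P (enc s L₁) (s :: enc s L₂) δ =
      Gam P s w (L₁ ++ (v, γ * δ) :: L₂) := by
  induction L₁ with
  | nil =>
    simp only [List.nil_append, Gam, enc, map_mul]
    have := interchange hδ (Gam_walk (s := s) L₂ hL₂) [] [s] []
    simp only [List.nil_append, List.append_nil, List.singleton_append] at this
    rw [mul_assoc, ← this]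
    group
  | cons p L₁ ih =>
    simp only [List.cons_append, Gam, enc]
    rw [← ih]
    simp only [map_mul, W_W, List.length_append, List.length_cons]
    simp [mul_assoc]

lemma kap_Gam (hk : P.Step [c] (c :: (w ++ [s]))) (L : List (List α × U P))
    (hL : ∀ p ∈ L, IsWalk P w p.1 p.2) :
    W P [c] [d] (Gam P s w L) * kap P c s w (enc s L ++ [d]) =
      kap P c s w (pw w s L.length ++ [d]) * W P (c :: (w ++ [s])) [d] (Gam P s w L) := by
  have := kap_comm (P := P) (c := c) (s := s) (w := w) hk (Gam_walk (s := s) L hL) [] [d]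
  simpa using this.symm

lemma lam_Gam (hl : P.Step [d] (w ++ [s, d])) (L : List (List α × U P))
    (hL : ∀ p ∈ L, IsWalk P w p.1 p.2) :
    W P [c] [d] (Gam P s w L) * lam P d s w (c :: enc s L) =
      lam P d s w (c :: pw w s L.length) * W P [c] (w ++ [s, d]) (Gam P s w L) := by
  have := lam_comm (P := P) (d := d) (s := s) (w := w) hl (Gam_walk (s := s) L hL) [c] []
  simpa using this

end Step

end Pool.Agent.DiagramGroups
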